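import Pool.Agent.H15.DL.Scale

/-! # PK2b: asymptotics of the exponents (3.1).
With `phi t = log (1 - t) + t` and `t = d (rt n/sc n) / 2` (so `2 ra d n = 1 - t`,
`2 (1 - ra d n) = 1 + t`):
`expo (ra dR n) (ra dL n) c n = E dR - E dL`, `E d = n (phi t - phi (-t)) + (c - n) phi t`;
`k_n phi (d (rt n/sc n)/2) → -K d^2/4` when `k_n/sc n → K` (`sc (rt/sc)^2 = 2`,
`phi t = -t^2/2 + O(t^3)`); `n (phi t - phi (-t)) → -d^3/24` (`n (rt/sc)^3 = 1/2`,
`phi t - phi (-t) = -2 t^3/3 + O(t^5)`). -/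

open MeasureTheory ProbabilityTheory Filter Topology Set
open scoped ENNReal

namespace Pool.Agent.H15.DL

open Pool.Agent.H37.DL

/-- Taylor bound of order two -/
theorem asym_log_two {t : ℝ} (ht : |t| ≤ 1 / 2) :
    |Real.log (1 - t) + t + t ^ 2 / 2| ≤ 2 * |t| ^ 3 := by
  have h := Real.abs_log_sub_add_sum_range_le (x := t) (by linarith) 2
  simp only [Finset.sum_range_succ, Finset.sum_range_zero] at h
  have h2 : |t| ^ (2 + 1) / (1 - |t|) ≤ 2 * |t| ^ 3 := by
    rw [div_le_iff₀ (by linarith)]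
    have h3 : 0 ≤ |t| ^ 3 * (1 - 2 * |t|) :=
      mul_nonneg (pow_nonneg (abs_nonneg t) 3) (by linarith)
    have e3 : |t| ^ (2 + 1) = |t| ^ 3 := rfl
    rw [e3]
    linarith
  refine le_trans (le_of_eq ?_) (h.trans h2)
  congr 1
  push_cast
  ring

/-- Taylor bound of order three -/
theorem asym_log_three {t : ℝ} (ht : |t| ≤ 1 / 2) :
    |Real.log (1 - t) + t + t ^ 2 / 2 + t ^ 3 / 3| ≤ 2 * |t| ^ 4 := by
  have h := Real.abs_log_sub_add_sum_range_le (x := t) (by linarith) 3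
  simp only [Finset.sum_range_succ, Finset.sum_range_zero] at h
  have h2 : |t| ^ (3 + 1) / (1 - |t|) ≤ 2 * |t| ^ 4 := by
    rw [div_le_iff₀ (by linarith)]
    have h3 : 0 ≤ |t| ^ 4 * (1 - 2 * |t|) :=
      mul_nonneg (pow_nonneg (abs_nonneg t) 4) (by linarith)
    have e3 : |t| ^ (3 + 1) = |t| ^ 4 := rfl
    rw [e3]
    linarith
  refine le_trans (le_of_eq ?_) (h.trans h2)
  congr 1
  push_cast
  ring

theorem asym_rho_pos : ∀ᶠ n : ℕ in atTop, 0 < rt n / sc n := by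
  filter_upwards [eventually_ge_atTop 1] with n hn
  exact div_pos (rt_pos hn) (sc_pos hn)

theorem asym_small (d : ℝ) : ∀ᶠ n : ℕ in atTop, |d * (rt n / sc n) / 2| ≤ 1 / 2 := by
  have h : Tendsto (fun n : ℕ => |d * (rt n / sc n) / 2|) atTop (𝓝 |d * 0 / 2|) :=
    ((tendsto_rho.const_mul d).div_const 2).abs
  have h0 : |d * 0 / 2| < 1 / 2 := by simp
  filter_upwards [h.eventually (gt_mem_nhds h0)] with n hn using le_of_lt hn

theorem asym_two (d : ℝ) :
    Tendsto (fun n : ℕ => (Real.log (1 - d * (rt n / sc n) / 2) + d * (rt n / sc n) / 2)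
      / (rt n / sc n) ^ 2) atTop (𝓝 (-(d ^ 2 / 8))) := by
  rw [tendsto_iff_norm_sub_tendsto_zero]
  have hb : Tendsto (fun n : ℕ => (2 * |d / 2| ^ 3) * (rt n / sc n)) atTop (𝓝 0) := by
    have := tendsto_rho.const_mul (2 * |d / 2| ^ 3)
    rwa [mul_zero] at this
  refine squeeze_zero' (Eventually.of_forall fun n => norm_nonneg _) ?_ hb
  filter_upwards [asym_rho_pos, asym_small d] with n hp hs
  set r := rt n / sc n with hr
  have h := asym_log_two hs
  rw [Real.norm_eq_abs]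
  have e : (Real.log (1 - d * r / 2) + d * r / 2) / r ^ 2 - -(d ^ 2 / 8)
      = (Real.log (1 - d * r / 2) + d * r / 2 + (d * r / 2) ^ 2 / 2) / r ^ 2 := by
    field_simp
    ring
  rw [e, abs_div, abs_of_pos (pow_pos hp 2), div_le_iff₀ (pow_pos hp 2)]
  refine h.trans (le_of_eq ?_)
  have e2 : |d * r / 2| = |d / 2| * r := by
    rw [show d * r / 2 = d / 2 * r by ring, abs_mul, abs_of_pos hp]
  rw [e2]
  ring

theorem phi_tendsto (d : ℝ) {k : ℕ → ℝ} {K : ℝ}
    (hk : Tendsto (fun n : ℕ => k n / sc n) atTop (𝓝 K)) :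
    Tendsto (fun n : ℕ => k n * (Real.log (1 - d * (rt n / sc n) / 2) + d * (rt n / sc n) / 2))
      atTop (𝓝 (-(K * d ^ 2 / 4))) := by
  have h := (hk.mul_const 2).mul (asym_two d)
  have e : K * 2 * -(d ^ 2 / 8) = -(K * d ^ 2 / 4) := by ring
  rw [e] at h
  refine h.congr' ?_
  filter_upwards [eventually_ge_atTop 1] with n hn
  have h1 := sc_mul_sq hn
  have hs := sc_pos hn
  have hp : 0 < rt n / sc n := div_pos (rt_pos hn) hs
  set r := rt n / sc n with hr
  have h2 : (2 : ℝ) / r ^ 2 = sc n := by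
    rw [div_eq_iff (pow_pos hp 2).ne', h1]
  calc k n / sc n * 2 * ((Real.log (1 - d * r / 2) + d * r / 2) / r ^ 2)
      = k n / sc n * (2 / r ^ 2) * (Real.log (1 - d * r / 2) + d * r / 2) := by ring
    _ = k n * (Real.log (1 - d * r / 2) + d * r / 2) := by
        rw [h2, div_mul_cancel₀ _ hs.ne']

theorem asym_three (d : ℝ) :
    Tendsto (fun n : ℕ => (Real.log (1 - d * (rt n / sc n) / 2)
      - Real.log (1 + d * (rt n / sc n) / 2) + d * (rt n / sc n))
      / (rt n / sc n) ^ 3) atTop (𝓝 (-(d ^ 3 / 12))) := by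
  rw [tendsto_iff_norm_sub_tendsto_zero]
  have hb : Tendsto (fun n : ℕ => (4 * |d / 2| ^ 4) * (rt n / sc n)) atTop (𝓝 0) := by
    have := tendsto_rho.const_mul (4 * |d / 2| ^ 4)
    rwa [mul_zero] at this
  refine squeeze_zero' (Eventually.of_forall fun n => norm_nonneg _) ?_ hb
  filter_upwards [asym_rho_pos, asym_small d] with n hp hs
  set r := rt n / sc n with hr
  have h := asym_log_three hs
  have hs' : |-(d * r / 2)| ≤ 1 / 2 := by rwa [abs_neg]
  have h' := asym_log_three hs'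
  rw [abs_neg] at h'
  rw [Real.norm_eq_abs]
  have e : (Real.log (1 - d * r / 2) - Real.log (1 + d * r / 2) + d * r) / r ^ 3 - -(d ^ 3 / 12)
      = ((Real.log (1 - d * r / 2) + d * r / 2 + (d * r / 2) ^ 2 / 2 + (d * r / 2) ^ 3 / 3)
        - (Real.log (1 - -(d * r / 2)) + -(d * r / 2) + (-(d * r / 2)) ^ 2 / 2
          + (-(d * r / 2)) ^ 3 / 3)) / r ^ 3 := by
    rw [sub_neg_eq_add (1 : ℝ)]
    field_simp
    ring
  rw [e, abs_div, abs_of_pos (pow_pos hp 3), div_le_iff₀ (pow_pos hp 3)]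
  refine (abs_sub _ _).trans ((add_le_add h h').trans (le_of_eq ?_))
  have e2 : |d * r / 2| = |d / 2| * r := by
    rw [show d * r / 2 = d / 2 * r by ring, abs_mul, abs_of_pos hp]
  rw [e2]
  ring

theorem phi_tendsto' (d : ℝ) :
    Tendsto (fun n : ℕ => (n : ℝ) * (Real.log (1 - d * (rt n / sc n) / 2)
      - Real.log (1 + d * (rt n / sc n) / 2) + d * (rt n / sc n))) atTop
      (𝓝 (-(d ^ 3 / 24))) := by
  have h := (asym_three d).const_mul (1 / 2 : ℝ)
  have e : (1 / 2 : ℝ) * -(d ^ 3 / 12) = -(d ^ 3 / 24) := by ring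
  rw [e] at h
  refine h.congr' ?_
  filter_upwards [eventually_ge_atTop 1] with n hn
  have h1 := n_mul_cube hn
  have hp : 0 < rt n / sc n := div_pos (rt_pos hn) (sc_pos hn)
  set r := rt n / sc n with hr
  have h2 : (1 / 2 : ℝ) / r ^ 3 = n := by
    rw [div_eq_iff (pow_pos hp 3).ne', h1]
  rw [← h2]
  ring

theorem asym_log_ra {d : ℝ} {n : ℕ} (h : |d * (rt n / sc n) / 2| ≤ 1 / 2) :
    0 < 1 - d * (rt n / sc n) / 2 ∧ 0 < 1 + d * (rt n / sc n) / 2 := by
  rw [abs_le] at h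
  constructor <;> linarith [h.1, h.2]

theorem expo_tendsto (dL dR y : ℝ) {c : ℕ → ℕ}
    (hc : Tendsto (fun n : ℕ => ((c n : ℝ) - n) / sc n) atTop (𝓝 y)) :
    Tendsto (fun n : ℕ => expo (ra dR n) (ra dL n) (c n) n) atTop (𝓝 (expL dL dR y)) := by
  have h := ((phi_tendsto dR hc).add (phi_tendsto' dR)).sub
    ((phi_tendsto dL hc).add (phi_tendsto' dL))
  have e : -(y * dR ^ 2 / 4) + -(dR ^ 3 / 24) - (-(y * dL ^ 2 / 4) + -(dL ^ 3 / 24))
      = expL dL dR y := by
    unfold expL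
    ring
  rw [e] at h
  refine h.congr' ?_
  filter_upwards [asym_small dR, asym_small dL] with n hR hL
  obtain ⟨R1, R2⟩ := asym_log_ra hR
  obtain ⟨L1, L2⟩ := asym_log_ra hL
  unfold expo ra
  set r := rt n / sc n with hr
  have e1 : (1 / 2 - dR * r / 4) / (1 / 2 - dL * r / 4) = (1 - dR * r / 2) / (1 - dL * r / 2) := by
    rw [div_eq_div_iff (by linarith) L1.ne']
    ring
  have e2 : (1 - (1 / 2 - dL * r / 4)) / (1 - (1 / 2 - dR * r / 4))
      = (1 + dL * r / 2) / (1 + dR * r / 2) := by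
    rw [div_eq_div_iff (by linarith) R2.ne']
    ring
  rw [e1, e2, Real.log_div R1.ne' L1.ne', Real.log_div L2.ne' R2.ne']
  ring

/-- exponential moment of `k` steps to the right, `2 l = d' - d` in terms of the rates
`ra d n - l = ra d' n` : here in the form `k log (al/(al - l)) - 2 l k` -/
theorem mgf_right (d d' : ℝ) {k : ℕ → ℕ} {K : ℝ}
    (hk : Tendsto (fun n : ℕ => (k n : ℝ) / sc n) atTop (𝓝 K)) :
    Tendsto (fun n : ℕ => (k n : ℝ) * Real.log (ra d n / ra d' n)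
      - 2 * (ra d n - ra d' n) * k n) atTop (𝓝 (K * (d' ^ 2 - d ^ 2) / 4)) := by
  have h := (phi_tendsto d hk).sub (phi_tendsto d' hk)
  have e : -(K * d ^ 2 / 4) - -(K * d' ^ 2 / 4) = K * (d' ^ 2 - d ^ 2) / 4 := by ring
  rw [e] at h
  refine h.congr' ?_
  filter_upwards [asym_small d, asym_small d'] with n hd hd'
  obtain ⟨D1, D2⟩ := asym_log_ra hd
  obtain ⟨E1, E2⟩ := asym_log_ra hd'
  unfold ra
  set r := rt n / sc n with hr
  have e1 : (1 / 2 - d * r / 4) / (1 / 2 - d' * r / 4) = (1 - d * r / 2) / (1 - d' * r / 2) := by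
    rw [div_eq_div_iff (by linarith) E1.ne']
    ring
  rw [e1, Real.log_div D1.ne' E1.ne']
  ring

end Pool.Agent.H15.DL
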