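import Pool.Agent.H37.DL.BM

/-! # PK2b: the Brownian event of (3.6) -/

open MeasureTheory ProbabilityTheory Filter Topology Set
open scoped ENNReal

namespace Pool.Agent.H15.DL

open Pool.Agent.H37.DL

/-- from rational times to real times, half line -/
theorem BMWin_ray {g : ℝ → ℝ} (hg : Continuous g) (h : ∀ q : ℚ, 0 ≤ (q : ℝ) → g q ≤ 0) :
    ∀ x, 0 ≤ x → g x ≤ 0 := by
  intro x hx
  by_contra hc
  push Not at hc
  have hev : ∀ᶠ y in 𝓝 x, 0 < g y := hg.continuousAt.eventually (lt_mem_nhds hc)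
  obtain ⟨δ, hδ, hball⟩ := Metric.eventually_nhds_iff.1 hev
  obtain ⟨q, hq1, hq2⟩ := exists_rat_btwn (show x < x + δ by linarith)
  have h1 : 0 < g q := by
    apply hball
    rw [Real.dist_eq, abs_lt]
    constructor <;> linarith
  have h2 := h q (by linarith)
  linarith

/-- from rational times to real times, unit interval -/
theorem BMWin_unit {g : ℝ → ℝ} (hg : Continuous g)
    (h : ∀ q : ℚ, 0 ≤ (q : ℝ) → (q : ℝ) ≤ 1 → g q ≤ 0) :
    ∀ x ∈ Set.Icc (0 : ℝ) 1, g x ≤ 0 := by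
  intro x hx
  by_contra hc
  push Not at hc
  rcases eq_or_lt_of_le hx.2 with h1 | h1
  · have h2 := h 1 (by simp) (by simp)
    rw [h1] at hc
    simp only [Rat.cast_one] at h2
    linarith
  have hev : ∀ᶠ y in 𝓝 x, 0 < g y := hg.continuousAt.eventually (lt_mem_nhds hc)
  obtain ⟨δ, hδ, hball⟩ := Metric.eventually_nhds_iff.1 hev
  obtain ⟨q, hq1, hq2⟩ := exists_rat_btwn (show x < min (x + δ) 1 by
    rw [lt_min_iff]; exact ⟨by linarith, h1⟩)
  rw [lt_min_iff] at hq2
  have h3 : 0 < g q := by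
    apply hball
    rw [Real.dist_eq, abs_lt]
    constructor <;> linarith
  have h2 := h q (by linarith [hx.1]) hq2.2.le
  linarith

/-- the tube event (rational times) -/
def BMWin_tube (N : ℕ) (c A : ℝ) (f : ℝ → ℝ) : Prop :=
  (∀ j : ℕ, j < N → f (j + 1) - f j ∈ Set.Icc c (c + 1)) ∧
    ∀ j : ℕ, j < N → ∀ q : ℚ, 0 ≤ (q : ℝ) → (q : ℝ) ≤ 1 → f (j + q) - f j ∈ Set.Icc (-A) A

/-- the line event (rational times) -/
def BMWin_line (N : ℕ) (c d : ℝ) (f : ℝ → ℝ) : Prop :=
  ∀ q : ℚ, 0 ≤ (q : ℝ) → f (N + q) - f N ∈ Set.Iic (c * q + d)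

/-- deterministic part, one side -/
theorem BMWin_det {f : ℝ → ℝ} (hf : Continuous f) (h0 : f 0 = 0) {κ e A : ℝ} {N : ℕ}
    (hκ : 1 ≤ κ) (he : 0 < e) (hA : 0 < A) (hN : 1.05 * κ ≤ N)
    (ht : BMWin_tube N (-2 * κ - 1) (2 * κ + 1 + A) f)
    (hl : BMWin_line N (e * κ) (e * κ ^ 2) f) {u : ℝ} (hu : 0 ≤ u) :
    (u ≤ 1.05 * κ → f u + 2 * κ * u ≤ (5 + A) * κ) ∧
      (1.05 * κ ≤ u → f u + 2 * κ * u ≤
        (2 + e) * κ * (u - 1.05 * κ) + e * κ ^ 2 + (5 + A) * κ) := by
  obtain ⟨ht1, ht2⟩ := ht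
  have hval : ∀ j : ℕ, j ≤ N → f j ≤ -2 * κ * j := by
    intro j
    induction j with
    | zero => intro _; simp [h0]
    | succ j ih =>
      intro hj
      have h1 := ih (by omega)
      have h2 := (ht1 j (by omega)).2
      push_cast
      linarith
  have hin : ∀ v : ℝ, 0 ≤ v → v < N → f v + 2 * κ * v ≤ (5 + A) * κ := by
    intro v hv hvN
    set j := ⌊v⌋₊ with hj
    have hj1 : (j : ℝ) ≤ v := Nat.floor_le hv
    have hj2 : v < j + 1 := Nat.lt_floor_add_one v
    have hjN : j < N := by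
      have : (j : ℝ) < N := lt_of_le_of_lt hj1 hvN
      exact_mod_cast this
    have hg : Continuous fun x => f (j + x) - f j - (2 * κ + 1 + A) := by fun_prop
    have h1 := BMWin_unit hg (fun q hq0 hq1 => by
      have := (ht2 j hjN q hq0 hq1).2
      linarith) (v - j) ⟨by linarith, by linarith⟩
    have h2 := hval j hjN.le
    have h3 : (j : ℝ) + (v - j) = v := by ring
    simp only [h3] at h1
    nlinarith
  have hNN : f N ≤ -2 * κ * N := hval N le_rfl
  have hout : ∀ v : ℝ, (N : ℝ) ≤ v → f v + 2 * κ * v ≤ (2 + e) * κ * (v - N) + e * κ ^ 2 := by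
    intro v hv
    have hg : Continuous fun x => f (N + x) - f N - (e * κ * x + e * κ ^ 2) := by fun_prop
    have h1 := BMWin_ray hg (fun q hq0 => by
      have := hl q hq0
      rw [Set.mem_Iic] at this
      linarith) (v - N) (by linarith)
    have h3 : (N : ℝ) + (v - N) = v := by ring
    simp only [h3] at h1
    nlinarith
  have hκ0 : 0 < κ := by linarith
  constructor
  · intro hu1
    rcases lt_or_ge u N with h | h
    · exact hin u hu h
    · have h1 : u = N := le_antisymm (hu1.trans hN) h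
      rw [h1]
      nlinarith [mul_pos hA hκ0]
  · intro hu1
    have h2 : 0 ≤ (2 + e) * κ * (u - 1.05 * κ) :=
      mul_nonneg (by positivity) (by linarith)
    have h3 : 0 ≤ e * κ ^ 2 := by positivity
    rcases lt_or_ge u N with h | h
    · have := hin u hu h
      linarith
    · have h4 := hout u h
      have h5 : (2 + e) * κ * (u - N) ≤ (2 + e) * κ * (u - 1.05 * κ) :=
        mul_le_mul_of_nonneg_left (by linarith) (by positivity)
      have h6 : 0 ≤ (5 + A) * κ := by positivity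
      linarith

section

variable {Ω : Type*} [MeasurableSpace Ω] {P : Measure Ω} [IsProbabilityMeasure P]
  {b : Ω → ℝ → ℝ}

/-- the sigma-algebra generated by the increments in `S` -/
abbrev BMWin_sig (b : Ω → ℝ → ℝ) (S : Set ℝ) (s : ℝ) : MeasurableSpace Ω :=
  MeasurableSpace.comap (fun ω (x : S) => b ω x - b ω s) inferInstance

theorem BMWin_meas (b : Ω → ℝ → ℝ) {S : Set ℝ} (s : ℝ) {x y : ℝ} (hx : x ∈ S) (hy : y ∈ S)
    {T : Set ℝ} (hT : MeasurableSet T) :
    MeasurableSet[BMWin_sig b S s] {ω | b ω x - b ω y ∈ T} := by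
  have h1 : Measurable[BMWin_sig b S s] (fun ω (x : S) => b ω x - b ω s) :=
    comap_measurable _
  have h2 : Measurable (fun φ : S → ℝ => φ ⟨x, hx⟩ - φ ⟨y, hy⟩) :=
    (measurable_pi_apply _).sub (measurable_pi_apply _)
  have h3 : Measurable[BMWin_sig b S s] (fun ω => b ω x - b ω y) := by
    have h4 := h2.comp h1
    have h5 : ((fun φ : S → ℝ => φ ⟨x, hx⟩ - φ ⟨y, hy⟩) ∘ fun ω (x : S) => b ω x - b ω s)
        = fun ω => b ω x - b ω y := by
      funext ω
      simp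
    rwa [h5] at h4
  exact h3 hT

/-- the reflected path `x ↦ b (ε x)`, `ε = 1` or `ε = -1` -/
theorem BMWin_meas_tube (b : Ω → ℝ → ℝ) (ε : ℝ) {S : Set ℝ} (s : ℝ) (N : ℕ) (c A : ℝ)
    (hS : ∀ x : ℝ, 0 ≤ x → x ≤ N → ε * x ∈ S) :
    MeasurableSet[BMWin_sig b S s] {ω | BMWin_tube N c A fun x => b ω (ε * x)} := by
  have hjS : ∀ j : ℕ, j ≤ N → ε * (j : ℝ) ∈ S := fun j hj => hS _ (by positivity)
    (by exact_mod_cast hj)
  have h1 : {ω | BMWin_tube N c A fun x => b ω (ε * x)} =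
      (⋂ j : ℕ, ⋂ _ : j < N, {ω | b ω (ε * (j + 1)) - b ω (ε * j) ∈ Set.Icc c (c + 1)}) ∩
      ⋂ j : ℕ, ⋂ _ : j < N, ⋂ q : ℚ, ⋂ _ : 0 ≤ (q : ℝ), ⋂ _ : (q : ℝ) ≤ 1,
        {ω | b ω (ε * (j + q)) - b ω (ε * j) ∈ Set.Icc (-A) A} := by
    ext ω
    simp only [BMWin_tube, Set.mem_inter_iff, Set.mem_iInter]
    rfl
  rw [h1]
  refine MeasurableSet.inter ?_ ?_
  · refine MeasurableSet.iInter fun j => MeasurableSet.iInter fun hj => ?_
    refine BMWin_meas b s ?_ (hjS j hj.le) measurableSet_Icc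
    have := hjS (j + 1) hj
    push_cast at this
    exact this
  · refine MeasurableSet.iInter fun j => MeasurableSet.iInter fun hj =>
      MeasurableSet.iInter fun q => MeasurableSet.iInter fun hq0 =>
      MeasurableSet.iInter fun hq1 => ?_
    refine BMWin_meas b s ?_ (hjS j hj.le) measurableSet_Icc
    have h2 : ((j : ℝ) + 1) ≤ N := by exact_mod_cast hj
    exact hS _ (by positivity) (by linarith)

theorem BMWin_meas_line (b : Ω → ℝ → ℝ) (ε : ℝ) {S : Set ℝ} (s : ℝ) (N : ℕ) (c d : ℝ)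
    (hS : ∀ x : ℝ, (N : ℝ) ≤ x → ε * x ∈ S) :
    MeasurableSet[BMWin_sig b S s] {ω | BMWin_line N c d fun x => b ω (ε * x)} := by
  have h1 : {ω | BMWin_line N c d fun x => b ω (ε * x)} =
      ⋂ q : ℚ, ⋂ _ : 0 ≤ (q : ℝ),
        {ω | b ω (ε * (N + q)) - b ω (ε * N) ∈ Set.Iic (c * q + d)} := by
    ext ω
    simp only [BMWin_line, Set.mem_iInter]
    rfl
  rw [h1]
  refine MeasurableSet.iInter fun q => MeasurableSet.iInter fun hq0 => ?_
  exact BMWin_meas b s (hS _ (by linarith)) (hS _ le_rfl) measurableSet_Iic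

theorem BMWin_indep (hb : IsBM P b) (s : ℝ) {E F : Set Ω}
    (hE : MeasurableSet[BMWin_sig b (Set.Ici s) s] E)
    (hF : MeasurableSet[BMWin_sig b (Set.Iic s) s] F) : P (E ∩ F) = P E * P F := by
  have h1 : IndepFun (fun ω (x : Set.Ici s) => b ω x - b ω s)
    (fun ω (x : Set.Iic s) => b ω x - b ω s) P := hb.indep s
  rw [IndepFun_iff] at h1
  exact h1 E F hE hF

theorem BMWin_sig_le (hb : IsBM P b) (S : Set ℝ) (s : ℝ) :
    BMWin_sig b S s ≤ (inferInstance : MeasurableSpace Ω) := by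
  have h1 : Measurable (fun ω (x : S) => b ω x - b ω s) := by
    apply measurable_pi_lambda
    intro x
    exact (hb.meas x).sub (hb.meas s)
  exact h1.comap_le

/-- probability of the tube event -/
theorem BMWin_prob_tube (hb : IsBM P b) : ∃ A : ℝ, 0 < A ∧ ∀ κ : ℝ, 1 ≤ κ → ∀ N : ℕ,
    (N : ℝ) ≤ 1.05 * κ + 1 →
    ENNReal.ofReal (Real.exp (-1.05 * κ ^ 3 - (8 + 3 * A) * κ ^ 2)) ≤
      P {ω | BMWin_tube N (-2 * κ - 1) (2 * κ + 1 + A) (b ω)} := by
  obtain ⟨A, hA, h⟩ := hb.tube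
  refine ⟨A, hA, fun κ hκ N hN => ?_⟩
  have hc : |(-2 * κ - 1)| = 2 * κ + 1 := by
    rw [abs_of_nonpos (by linarith)]
    ring
  refine le_trans ?_ ((h N fun _ => -2 * κ - 1).trans (measure_mono ?_))
  · apply ENNReal.ofReal_le_ofReal
    apply Real.exp_le_exp.2
    rw [Finset.sum_const, Finset.card_range, nsmul_eq_mul, hc]
    have hκ0 : 0 < κ := by linarith
    have h1 : (N : ℝ) * ((2 * κ + 1 + 1) ^ 2 / 4 + A) ≤
        (1.05 * κ + 1) * ((2 * κ + 1 + 1) ^ 2 / 4 + A) :=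
      mul_le_mul_of_nonneg_right hN (by positivity)
    have h2 : κ ≤ κ ^ 2 := by nlinarith
    have h3 : 1 ≤ κ ^ 2 := by nlinarith
    nlinarith [mul_nonneg hA.le (sub_nonneg.2 h2), mul_nonneg hA.le (sub_nonneg.2 h3)]
  · intro ω hω
    refine ⟨fun j hj => (hω j hj).1, fun j hj q hq0 hq1 => ?_⟩
    have := (hω j hj).2 q ⟨hq0, hq1⟩
    simp only [hc] at this
    exact abs_le.1 this

/-- probability of the line event -/
theorem BMWin_prob_line (hb : IsBM P b) (N : ℕ) {c d : ℝ} (hc : 0 < c) (hd : 0 < d)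
    (h3 : 12 ≤ c * d) (hm : MeasurableSet {ω | BMWin_line N c d (b ω)}) :
    ENNReal.ofReal (1 / 2) ≤ P {ω | BMWin_line N c d (b ω)} := by
  have h1 := (hb.shift N).line hc hd
  have h2 : {ω | BMWin_line N c d (b ω)}ᶜ ⊆
      {ω | ∃ x, 0 ≤ x ∧ c * x + d ≤ b ω (N + x) - b ω N} := by
    intro ω hω
    simp only [BMWin_line, Set.mem_compl_iff, Set.mem_ofPred_eq, Set.mem_Iic, not_forall,
      not_le] at hω
    obtain ⟨q, hq0, hq⟩ := hω
    exact ⟨q, hq0, hq.le⟩
  have h4 : P {ω | BMWin_line N c d (b ω)}ᶜ ≤ ENNReal.ofReal (1 / 2) := by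
    refine (measure_mono h2).trans (h1.trans ?_)
    apply ENNReal.ofReal_le_ofReal
    have h5 : Real.exp (-(c * d) / 4) ≤ Real.exp (-3) := by
      apply Real.exp_le_exp.2
      linarith
    have h6 : (8 : ℝ) ≤ Real.exp 3 := by
      have h7 : (2 : ℝ) ≤ Real.exp 1 := by
        have := Real.add_one_le_exp (1 : ℝ)
        linarith
      have h8 : Real.exp 3 = Real.exp 1 ^ 3 := by
        rw [← Real.exp_nat_mul]
        norm_num
      rw [h8]
      nlinarith [pow_le_pow_left₀ (by norm_num : (0 : ℝ) ≤ 2) h7 3]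
    have h9 : Real.exp (-3) ≤ 1 / 8 := by
      rw [Real.exp_neg, one_div]
      exact inv_anti₀ (by norm_num) h6
    linarith
  have h5 : P {ω | BMWin_line N c d (b ω)} = 1 - P {ω | BMWin_line N c d (b ω)}ᶜ := by
    rw [prob_compl_eq_one_sub hm, ENNReal.sub_sub_cancel ENNReal.one_ne_top prob_le_one]
  rw [h5]
  calc ENNReal.ofReal (1 / 2) = 1 - ENNReal.ofReal (1 / 2) := by
        rw [← ENNReal.ofReal_one, ← ENNReal.ofReal_sub _ (by norm_num)]
        norm_num
    _ ≤ _ := tsub_le_tsub_left h4 1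

end

/-- `N = ⌈1.05 κ⌉₊`.  Tube of slope `-2 κ` on `[0, N]` (`IsBM.tube` with `c j = -2 κ - 1`, cost
`N ((2 κ + 2)^2 / 4 + C)`), the same on the left (`IsBM.reflect`), and `IsBM.line` for
`b (N + t) - b N`, `b (-N - t) - b (-N)` with slope `e κ` and height `e κ^2`; independence
(`IsBM.indep` at `N`, `-N`, `0`). -/
theorem bm_window {Ωb : Type*} [MeasurableSpace Ωb] {Pb : Measure Ωb} [IsProbabilityMeasure Pb]
    {b : Ωb → ℝ → ℝ} (hb : IsBM Pb b) {e : ℝ} (he : 0 < e) : ∃ C : ℝ, 0 < C ∧ ∃ κ₀ : ℝ, 0 < κ₀ ∧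
      ∀ κ : ℝ, κ₀ ≤ κ → ENNReal.ofReal (Real.exp (-(2 * 1.05) * κ ^ 3 - C * κ ^ 2)) ≤
        Pb {ω | (∀ u, |u| ≤ 1.05 * κ → b ω u + 2 * κ * |u| ≤ C * κ) ∧
          ∀ u, 1.05 * κ ≤ |u| → b ω u + 2 * κ * |u| ≤
            (2 + e) * κ * (|u| - 1.05 * κ) + e * κ ^ 2 + C * κ} := by
  obtain ⟨A, hA, hR⟩ := BMWin_prob_tube hb
  obtain ⟨A', hA', hL⟩ := BMWin_prob_tube hb.reflect
  refine ⟨18 + 3 * (A + A'), by positivity, max 1 (12 / e ^ 2), by positivity, fun κ hκ => ?_⟩
  have hκ1 : 1 ≤ κ := (le_max_left _ _).trans hκ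
  have hκ2 : 12 / e ^ 2 ≤ κ := (le_max_right _ _).trans hκ
  have hκ0 : 0 < κ := by linarith
  have hcd : 12 ≤ e * κ * (e * κ ^ 2) := by
    rw [div_le_iff₀ (by positivity)] at hκ2
    have h1 : κ ≤ κ ^ 3 := by nlinarith [mul_self_nonneg κ, mul_nonneg hκ0.le (sub_nonneg.2 hκ1)]
    have h2 : e * κ * (e * κ ^ 2) = κ ^ 3 * e ^ 2 := by ring
    rw [h2]
    nlinarith [mul_le_mul_of_nonneg_right h1 (by positivity : (0 : ℝ) ≤ e ^ 2)]
  set N := ⌈1.05 * κ⌉₊ with hNdef
  have hN1 : 1.05 * κ ≤ N := Nat.le_ceil _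
  have hN2 : (N : ℝ) ≤ 1.05 * κ + 1 := (Nat.ceil_lt_add_one (by positivity)).le
  -- the four events
  set E1 : Set Ωb := {ω | BMWin_line N (e * κ) (e * κ ^ 2) fun x => b ω (1 * x)} with hE1
  set E2 : Set Ωb := {ω | BMWin_tube N (-2 * κ - 1) (2 * κ + 1 + A) fun x => b ω (1 * x)} with hE2
  set E3 : Set Ωb := {ω | BMWin_tube N (-2 * κ - 1) (2 * κ + 1 + A') fun x => b ω (-1 * x)}
    with hE3
  set E4 : Set Ωb := {ω | BMWin_line N (e * κ) (e * κ ^ 2) fun x => b ω (-1 * x)} with hE4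
  have hN0 : (0 : ℝ) ≤ N := by positivity
  have hp : Pb (E1 ∩ (E2 ∩ (E3 ∩ E4))) = Pb E1 * (Pb E2 * (Pb E3 * Pb E4)) := by
    rw [BMWin_indep hb N, BMWin_indep hb 0, BMWin_indep hb (-N)]
    · exact BMWin_meas_tube b (-1) (-N) N _ _ fun x hx0 hx1 => by
        rw [Set.mem_Ici]; linarith
    · exact BMWin_meas_line b (-1) (-N) N _ _ fun x hx => by
        rw [Set.mem_Iic]; linarith
    · exact BMWin_meas_tube b 1 0 N _ _ fun x hx0 hx1 => by
        rw [Set.mem_Ici]; linarith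
    · refine MeasurableSet.inter ?_ ?_
      · exact BMWin_meas_tube b (-1) 0 N _ _ fun x hx0 hx1 => by
          rw [Set.mem_Iic]; linarith
      · exact BMWin_meas_line b (-1) 0 N _ _ fun x hx => by
          rw [Set.mem_Iic]; linarith
    · exact BMWin_meas_line b 1 N N _ _ fun x hx => by
        rw [Set.mem_Ici]; linarith
    · refine MeasurableSet.inter ?_ (MeasurableSet.inter ?_ ?_)
      · exact BMWin_meas_tube b 1 N N _ _ fun x hx0 hx1 => by
          rw [Set.mem_Iic]; linarith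
      · exact BMWin_meas_tube b (-1) N N _ _ fun x hx0 hx1 => by
          rw [Set.mem_Iic]; linarith
      · exact BMWin_meas_line b (-1) N N _ _ fun x hx => by
          rw [Set.mem_Iic]; linarith
  have hP2 : ENNReal.ofReal (Real.exp (-1.05 * κ ^ 3 - (8 + 3 * A) * κ ^ 2)) ≤ Pb E2 := by
    have := hR κ hκ1 N hN2
    simpa only [hE2, one_mul] using this
  have hP3 : ENNReal.ofReal (Real.exp (-1.05 * κ ^ 3 - (8 + 3 * A') * κ ^ 2)) ≤ Pb E3 := by
    have := hL κ hκ1 N hN2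
    simpa only [hE3, neg_one_mul] using this
  have hP1 : ENNReal.ofReal (1 / 2) ≤ Pb E1 := by
    have hm : MeasurableSet E1 := (BMWin_sig_le hb Set.univ 0) _
      (BMWin_meas_line b 1 0 N _ _ fun x _ => Set.mem_univ _)
    have := BMWin_prob_line hb N (by positivity : 0 < e * κ) (by positivity : 0 < e * κ ^ 2) hcd
      (by simpa only [hE1, one_mul] using hm)
    simpa only [hE1, one_mul] using this
  have hP4 : ENNReal.ofReal (1 / 2) ≤ Pb E4 := by
    have hm : MeasurableSet E4 := (BMWin_sig_le hb Set.univ 0) _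
      (BMWin_meas_line b (-1) 0 N _ _ fun x _ => Set.mem_univ _)
    have := BMWin_prob_line hb.reflect N (by positivity : 0 < e * κ)
      (by positivity : 0 < e * κ ^ 2) hcd (by simpa only [hE4, neg_one_mul] using hm)
    simpa only [hE4, neg_one_mul] using this
  have hκ3 : 1 ≤ κ ^ 2 := by nlinarith
  calc ENNReal.ofReal (Real.exp (-(2 * 1.05) * κ ^ 3 - (18 + 3 * (A + A')) * κ ^ 2))
      ≤ ENNReal.ofReal (1 / 2) * (ENNReal.ofReal (Real.exp (-1.05 * κ ^ 3 - (8 + 3 * A) * κ ^ 2)) *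
          (ENNReal.ofReal (Real.exp (-1.05 * κ ^ 3 - (8 + 3 * A') * κ ^ 2)) *
            ENNReal.ofReal (1 / 2))) := by
        rw [← ENNReal.ofReal_mul (by positivity), ← ENNReal.ofReal_mul (by positivity),
          ← ENNReal.ofReal_mul (by positivity)]
        apply ENNReal.ofReal_le_ofReal
        have h1 : Real.exp (-(2 * 1.05) * κ ^ 3 - (18 + 3 * (A + A')) * κ ^ 2) =
            Real.exp (-1.05 * κ ^ 3 - (8 + 3 * A) * κ ^ 2) *
            Real.exp (-1.05 * κ ^ 3 - (8 + 3 * A') * κ ^ 2) * Real.exp (-(2 * κ ^ 2)) := by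
          rw [← Real.exp_add, ← Real.exp_add]
          congr 1
          ring
        have h2 : Real.exp (-(2 * κ ^ 2)) ≤ 1 / 4 := by
          have h3 : (4 : ℝ) ≤ Real.exp (2 * κ ^ 2) := by
            have h4 : (2 : ℝ) ≤ Real.exp 1 := by
              have := Real.add_one_le_exp (1 : ℝ)
              linarith
            have h5 : Real.exp 2 = Real.exp 1 ^ 2 := by
              rw [← Real.exp_nat_mul]
              norm_num
            have h6 : Real.exp 2 ≤ Real.exp (2 * κ ^ 2) := Real.exp_le_exp.2 (by linarith)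
            nlinarith
          rw [Real.exp_neg, one_div]
          exact inv_anti₀ (by norm_num) h3
        rw [h1]
        have h7 : 0 ≤ Real.exp (-1.05 * κ ^ 3 - (8 + 3 * A) * κ ^ 2) *
            Real.exp (-1.05 * κ ^ 3 - (8 + 3 * A') * κ ^ 2) := by positivity
        nlinarith [mul_le_mul_of_nonneg_left h2 h7]
    _ ≤ Pb E1 * (Pb E2 * (Pb E3 * Pb E4)) :=
        mul_le_mul' hP1 (mul_le_mul' hP2 (mul_le_mul' hP3 hP4))
    _ = Pb (E1 ∩ (E2 ∩ (E3 ∩ E4))) := hp.symm
    _ ≤ _ := by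
        apply measure_mono
        rintro ω ⟨h1, h2, h3, h4⟩
        simp only [hE1, hE2, hE3, hE4, Set.mem_ofPred_eq, one_mul, neg_one_mul] at h1 h2 h3 h4
        have hR' := fun u (hu : 0 ≤ u) => BMWin_det (hb.cont ω) (hb.zero ω) hκ1 he hA hN1
          h2 h1 (u := u) hu
        have hL' := fun u (hu : 0 ≤ u) => BMWin_det (f := fun x => b ω (-x))
          ((hb.cont ω).comp continuous_neg) (by simpa using hb.zero ω) hκ1 he hA' hN1
          h3 h4 (u := u) hu
        have hC1 : (5 + A) * κ ≤ (18 + 3 * (A + A')) * κ :=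
          mul_le_mul_of_nonneg_right (by linarith) hκ0.le
        have hC2 : (5 + A') * κ ≤ (18 + 3 * (A + A')) * κ :=
          mul_le_mul_of_nonneg_right (by linarith) hκ0.le
        constructor
        · intro u hu
          rcases le_total 0 u with h | h
          · rw [abs_of_nonneg h] at hu ⊢
            exact ((hR' u h).1 hu).trans hC1
          · rw [abs_of_nonpos h] at hu ⊢
            have h5 := ((hL' (-u) (by linarith)).1 hu).trans hC2
            simpa only [neg_neg] using h5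
        · intro u hu
          rcases le_total 0 u with h | h
          · rw [abs_of_nonneg h] at hu ⊢
            have := (hR' u h).2 hu
            linarith
          · rw [abs_of_nonpos h] at hu ⊢
            have h5 := (hL' (-u) (by linarith)).2 hu
            simp only [neg_neg] at h5
            linarith

end Pool.Agent.H15.DL
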