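import Pool.Agent.H37.DL.Bdry

/-! # PK2b (limit part of the exponential identities): notation and scaled formulas.
The kink of the boundary walk is at column `0`; the last column is `cn y n`; there are `n` rows.
Rates `ra d n = 1/2 - d (rt n / sc n) / 4`, so that `(ra dR n - ra dL n) rt n = (dL - dR) / 2`
exactly. -/

open MeasureTheory ProbabilityTheory Filter Topology Set
open scoped ENNReal

namespace Pool.Agent.H15.DL

open Pool.Agent.H37.DL

/-- the rates -/
noncomputable def ra (d : ℝ) (n : ℕ) : ℝ := 1 / 2 - d * (rt n / sc n) / 4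

/-- the last column -/
noncomputable def cn (y : ℝ) (n : ℕ) : ℕ := ((n : ℤ) + ⌊sc n * y⌋).toNat

/-- scaling of a passage time to `(cn y n, n - 1)` -/
noncomputable def cs (y : ℝ) (n : ℕ) (t : ℝ) : ℝ := (t - 2 * n - 2 * cn y n) / rt n

/-- scaled value of the exit at column `a` -/
noncomputable def ex (w : ℤ → ℕ → ℝ) (z : ℤ → ℝ) (dL dR y : ℝ) (n : ℕ) (a : ℤ) : ℝ :=
  cs y n (hh z (ra dR n) (ra dL n) a + lpp w a ((cn y n : ℤ) - a).toNat (n - 1))

/-- scaled boundary walk -/
noncomputable def hn (z : ℤ → ℝ) (dL dR : ℝ) (n : ℕ) (a : ℤ) : ℝ :=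
  (hh z (ra dR n) (ra dL n) a - 2 * a) / rt n

/-- the drift -/
noncomputable def dr (dL dR u : ℝ) : ℝ := dR * max u 0 - dL * max (-u) 0

/-- the exponent of the exact identity -/
noncomputable def expo (al be : ℝ) (c n : ℕ) : ℝ :=
  c * Real.log (al / be) + n * Real.log ((1 - be) / (1 - al)) - (al - be) * (2 * n + 2 * c)

/-- its limit -/
noncomputable def expL (dL dR y : ℝ) : ℝ := (dL ^ 3 - dR ^ 3) / 24 + y * (dL ^ 2 - dR ^ 2) / 4

end Pool.Agent.H15.DL
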