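import Pool.Agent.H15.DL.Scale

/-! # PK2b: the scaled exits -/

open MeasureTheory ProbabilityTheory Filter Topology Set
open scoped ENNReal

namespace Pool.Agent.H15.DL

open Pool.Agent.H37.DL

theorem Ioc_nonpos {a b : ℤ} (h : b ≤ a) : Finset.Ioc a b = ∅ := Finset.Ioc_eq_empty (not_lt.2 h)

theorem wsum_sub_two {z : ℤ → ℝ} (a : ℤ) :
    wsum (fun i => z i - 2) a =
      (∑ i ∈ Finset.Ioc 0 a, z i - ∑ i ∈ Finset.Ioc a 0, z i) - 2 * a := by
  unfold wsum
  rw [Finset.sum_sub_distrib, Finset.sum_sub_distrib]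
  simp only [Finset.sum_const, Int.card_Ioc, nsmul_eq_mul]
  rcases le_total 0 a with h | h
  · have h1 : ((a - 0).toNat : ℝ) = a := by
      have : ((a - 0).toNat : ℤ) = a := by omega
      exact_mod_cast this
    have h2 : ((0 - a).toNat : ℝ) = 0 := by
      have : (0 - a).toNat = 0 := by omega
      rw [this]
      simp
    rw [h1, h2]
    ring
  · have h1 : ((a - 0).toNat : ℝ) = 0 := by
      have : (a - 0).toNat = 0 := by omega
      rw [this]
      simp
    have h2 : ((0 - a).toNat : ℝ) = -a := by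
      have : ((0 - a).toNat : ℤ) = -a := by omega
      exact_mod_cast this
    rw [h1, h2]
    ring

/-- `hn` in terms of the centred walk -/
theorem hn_eq {n : ℕ} (hn1 : 1 ≤ n) {dL dR : ℝ} (hR : 0 < ra dR n) (hL : 0 < ra dL n)
    (z : ℤ → ℝ) (a : ℤ) :
    hn z dL dR n a = (wsum (fun i => z i - 2) a / rt n + (if 0 ≤ a then dR else dL) * (a / sc n))
      / (2 * ra (if 0 ≤ a then dR else dL) n) := by
  have hrt := (rt_pos hn1).ne'
  have hsc := (sc_pos hn1).ne'
  rw [wsum_sub_two]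
  unfold hn hh
  by_cases h : 0 ≤ a
  · rw [if_pos h, Ioc_nonpos h]
    simp only [Finset.sum_empty, zero_div, sub_zero]
    set S := ∑ i ∈ Finset.Ioc 0 a, z i
    have h1 : 2 * ra dR n = 1 - dR * (rt n / sc n) / 2 := by
      unfold ra
      ring
    have h2 : 2 * ra dR n ≠ 0 := by positivity
    rw [div_eq_div_iff hrt h2]
    have h3 : S / (2 * ra dR n) * (2 * ra dR n) = S := div_mul_cancel₀ _ h2
    have h4 : (S / (2 * ra dR n) - 2 * (a : ℝ)) * (2 * ra dR n)
        = S - 2 * a * (2 * ra dR n) := by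
      rw [sub_mul, h3]
    rw [h4, h1]
    field_simp
    ring
  · have h' : a ≤ 0 := (not_le.1 h).le
    rw [if_neg h, Ioc_nonpos h']
    simp only [Finset.sum_empty, zero_div, zero_sub]
    set S := ∑ i ∈ Finset.Ioc a 0, z i
    have h1 : 2 * ra dL n = 1 - dL * (rt n / sc n) / 2 := by
      unfold ra
      ring
    have h2 : 2 * ra dL n ≠ 0 := by positivity
    rw [div_eq_div_iff hrt h2]
    have h3 : S / (2 * ra dL n) * (2 * ra dL n) = S := div_mul_cancel₀ _ h2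
    have h4 : (-(S / (2 * ra dL n)) - 2 * (a : ℝ)) * (2 * ra dL n)
        = -S - 2 * a * (2 * ra dL n) := by
      rw [sub_mul, neg_mul, h3]
    rw [h4, h1]
    field_simp
    ring

theorem floor_sc {n : ℕ} (hn1 : 1 ≤ n) (a : ℤ) : ⌊sc n * ((a : ℝ) / sc n)⌋ = a := by
  rw [mul_div_cancel₀ _ (sc_pos hn1).ne', Int.floor_intCast]

theorem bn_floor {n : ℕ} (hn1 : 1 ≤ n) (z : ℤ → ℝ) (a : ℤ) :
    bn z n (a / sc n) = wsum (fun i => z i - 2) a / rt n := by
  unfold bn
  rw [floor_sc hn1]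

/-- the scaled exit value is the rescaled last passage time plus the scaled boundary walk -/
theorem ex_eq (y : ℝ) : ∀ᶠ n : ℕ in atTop, ∀ (w : ℤ → ℕ → ℝ) (z : ℤ → ℝ) (dL dR : ℝ) (a : ℤ),
    ex w z dL dR y n a = Sn w n (a / sc n, y) + hn z dL dR n a := by
  filter_upwards [cn_eq y, eventually_ge_atTop 1] with n hcn hn1 w z dL dR a
  unfold ex cs Sn hn
  simp only [floor_sc hn1]
  have h1 : ((cn y n : ℕ) : ℝ) = (n : ℝ) + ⌊sc n * y⌋ := by exact_mod_cast hcn
  rw [hcn, h1, ← add_div]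
  congr 1
  ring

theorem Sn_floor {n : ℕ} (hn1 : 1 ≤ n) (w : ℤ → ℕ → ℝ) (u y : ℝ) :
    Sn w n (⌊sc n * u⌋ / sc n, y) = Sn w n (u, y) := by
  unfold Sn
  simp only [floor_sc hn1]

/-- shift of the columns -/
theorem lpp_shift (w : ℤ → ℕ → ℝ) (s a : ℤ) (k j : ℕ) :
    lpp (fun i l => w (i + s) l) a k j = lpp w (a + s) k j := by
  induction k generalizing j with
  | zero =>
    induction j with
    | zero => simp [lpp]
    | succ j ih => simp only [lpp, ih]
  | succ k ihk =>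
    have e : a + ((k : ℤ) + 1) + s = a + s + (k + 1) := by ring
    induction j with
    | zero => simp only [lpp, ihk, e]
    | succ j ih => simp only [lpp, ih, ihk, e]

theorem sum_split {z : ℤ → ℝ} {a b c : ℤ} (h1 : a ≤ b) (h2 : b ≤ c) :
    ∑ i ∈ Finset.Ioc a c, z i = ∑ i ∈ Finset.Ioc a b, z i + ∑ i ∈ Finset.Ioc b c, z i := by
  rw [← Finset.sum_union, Finset.Ioc_union_Ioc_eq_Ioc h1 h2]
  rw [Finset.disjoint_left]
  intro i hi hi'
  rw [Finset.mem_Ioc] at hi hi'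
  omega

theorem sum_shift (z : ℤ → ℝ) (a b s : ℤ) :
    ∑ i ∈ Finset.Ioc a b, z (i + s) = ∑ i ∈ Finset.Ioc (a + s) (b + s), z i := by
  refine Finset.sum_bij (fun i _ => i + s) ?_ ?_ ?_ ?_
  · intro i hi
    rw [Finset.mem_Ioc] at hi ⊢
    omega
  · intro i _ j _ hij
    exact add_right_cancel hij
  · intro i hi
    rw [Finset.mem_Ioc] at hi
    exact ⟨i - s, by rw [Finset.mem_Ioc]; omega, by omega⟩
  · intro i _
    rfl

/-- splitting of the boundary walk at a column `s ≥ 0` -/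
theorem hh_split_right (z : ℤ → ℝ) (al be : ℝ) {s a : ℤ} (hs : 0 ≤ s) (ha : s ≤ a) (be' : ℝ) :
    hh z al be a = hh z al be s + hh (fun i => z (i + s)) al be' (a - s) := by
  unfold hh
  have h1 : a - s + s = a := by ring
  rw [sum_shift, Ioc_nonpos (hs.trans ha), Ioc_nonpos hs, Ioc_nonpos (sub_nonneg.2 ha),
    sum_split hs ha, zero_add, h1]
  simp only [Finset.sum_empty, zero_div, sub_zero]
  rw [add_div]

/-- splitting of the boundary walk at a column `s ≤ 0` -/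
theorem hh_split_left (z : ℤ → ℝ) (al be : ℝ) {s a : ℤ} (hs : s ≤ 0) (ha : a ≤ s) (al' : ℝ) :
    hh z al be a = hh z al be s + hh (fun i => z (i + s)) al' be (a - s) := by
  unfold hh
  have h1 : a - s + s = a := by ring
  rw [Ioc_nonpos (ha.trans hs), Ioc_nonpos hs, Ioc_nonpos (sub_nonpos.2 ha), sum_shift,
    sum_split ha hs, zero_add, h1]
  simp only [Finset.sum_empty, zero_div, zero_sub]
  rw [add_div]
  ring

theorem hh_mono_right {z : ℤ → ℝ} (hz : ∀ i, 0 ≤ z i) {al al' : ℝ} (ha : 0 < al') (h : al' ≤ al)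
    (be be' : ℝ) {a : ℤ} (h0 : 0 ≤ a) : hh z al be a ≤ hh z al' be' a := by
  unfold hh
  rw [Ioc_nonpos h0]
  simp only [Finset.sum_empty, zero_div, sub_zero]
  have h1 : 0 ≤ ∑ i ∈ Finset.Ioc 0 a, z i := Finset.sum_nonneg fun i _ => hz i
  exact div_le_div_of_nonneg_left h1 (by positivity) (by linarith)

theorem hh_mono_left {z : ℤ → ℝ} (hz : ∀ i, 0 ≤ z i) {be be' : ℝ} (hb : 0 < be) (h : be ≤ be')
    (al al' : ℝ) {a : ℤ} (h0 : a ≤ 0) : hh z al be a ≤ hh z al' be' a := by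
  unfold hh
  rw [Ioc_nonpos h0]
  simp only [Finset.sum_empty, zero_div, zero_sub]
  have h1 : 0 ≤ ∑ i ∈ Finset.Ioc a 0, z i := Finset.sum_nonneg fun i _ => hz i
  exact neg_le_neg (div_le_div_of_nonneg_left h1 (by positivity) (by linarith))

/-- the exits through the left side, seen from column `s ≤ 0` -/
theorem leftExit_split (w : ℤ → ℕ → ℝ) {z v : ℤ → ℝ} (hz : ∀ i, 0 ≤ z i) (hv : ∀ i, 0 ≤ v i)
    (al : ℝ) {be be' : ℝ} (hb : 0 < be) (h : be ≤ be') (hb' : be' < 1) {N c n j s : ℕ}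
    (hs : s < N) :
    leftExit w z v be N c n j ≤ hh z al be (-(s : ℤ)) +
      leftExit (fun i l => w (i - s) l) (fun i => z (i - s)) v be' (N - s) (c + s) n j := by
  unfold leftExit hh
  have hN : ((N - s : ℕ) : ℤ) = (N : ℤ) - s := by omega
  have e1 : c + s + (N - s) - 1 = c + N - 1 := by omega
  have e2 : lpp (fun a l => w (a - s) (l + j)) (1 - ((N : ℤ) - s)) (c + N - 1) (n - 1 - j)
      = lpp (fun a l => w a (l + j)) (1 - N) (c + N - 1) (n - 1 - j) := by
    have h1 := lpp_shift (fun a l => w a (l + j)) (-(s : ℤ)) (1 - ((N : ℤ) - s)) (c + N - 1)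
      (n - 1 - j)
    have h2 : 1 - ((N : ℤ) - s) + -(s : ℤ) = 1 - N := by ring
    rw [h2] at h1
    exact h1
  have e3 : ∑ i ∈ Finset.Ioc (-((N : ℤ) - s)) 0, z (i - s)
      = ∑ i ∈ Finset.Ioc (-(N : ℤ)) (-(s : ℤ)), z i := by
    have h1 := sum_shift z (-((N : ℤ) - s)) 0 (-(s : ℤ))
    have h2 : -((N : ℤ) - s) + -(s : ℤ) = -N := by ring
    rw [h2, zero_add] at h1
    exact h1
  have e4 : ∑ i ∈ Finset.Ioc (-(N : ℤ)) 0, z i = ∑ i ∈ Finset.Ioc (-(N : ℤ)) (-(s : ℤ)), z i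
      + ∑ i ∈ Finset.Ioc (-(s : ℤ)) 0, z i := sum_split (by omega) (by omega)
  rw [hN, e1, e2, e3, e4, Ioc_nonpos (by omega : -(s : ℤ) ≤ 0)]
  simp only [Finset.sum_empty, zero_div, zero_sub]
  have h1 : 0 ≤ ∑ i ∈ Finset.Ioc (-(N : ℤ)) (-(s : ℤ)), z i := Finset.sum_nonneg fun i _ => hz i
  have h2 : 0 ≤ ∑ k ∈ Finset.range (j + 1), v k := Finset.sum_nonneg fun i _ => hv _
  have h3 := div_le_div_of_nonneg_left h1 (by positivity : 0 < 2 * be)
    (by linarith : 2 * be ≤ 2 * be')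
  have h4 := div_le_div_of_nonneg_left h2 (by linarith : 0 < 2 * (1 - be'))
    (by linarith : 2 * (1 - be') ≤ 2 * (1 - be))
  rw [neg_add, add_div, neg_div, neg_div, neg_div]
  linarith

end Pool.Agent.H15.DL
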