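import Pool.Agent.H15.DL.Ident

/-! # PK2b: auxiliary facts for the far exits -/

open MeasureTheory ProbabilityTheory Filter Topology Set
open scoped ENNReal

namespace Pool.Agent.H15.DL

open Pool.Agent.H37.DL

variable {Ω₁ Ω₂ Ω₃ : Type*} [MeasurableSpace Ω₁] [MeasurableSpace Ω₂] [MeasurableSpace Ω₃]
  {Q₁ : Measure Ω₁} {Q₂ : Measure Ω₂} {Q₃ : Measure Ω₃} [IsProbabilityMeasure Q₁]
  [IsProbabilityMeasure Q₂] [IsProbabilityMeasure Q₃] {z : Ω₂ → ℤ → ℝ} {v : Ω₃ → ℤ → ℝ}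

theorem FarAux_mp21 : MeasurePreserving (fun q : Ω₁ × Ω₂ × Ω₃ => q.2.1)
    (Q₁.prod (Q₂.prod Q₃)) Q₂ := by
  have h1 : MeasurePreserving (Prod.snd : Ω₁ × Ω₂ × Ω₃ → Ω₂ × Ω₃) (Q₁.prod (Q₂.prod Q₃))
      (Q₂.prod Q₃) := measurePreserving_snd
  have h2 : MeasurePreserving (Prod.fst : Ω₂ × Ω₃ → Ω₂) (Q₂.prod Q₃) Q₂ := measurePreserving_fst
  exact h2.comp h1

theorem FarAux_mp22 : MeasurePreserving (fun q : Ω₁ × Ω₂ × Ω₃ => q.2.2)
    (Q₁.prod (Q₂.prod Q₃)) Q₃ := by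
  have h1 : MeasurePreserving (Prod.snd : Ω₁ × Ω₂ × Ω₃ → Ω₂ × Ω₃) (Q₁.prod (Q₂.prod Q₃))
      (Q₂.prod Q₃) := measurePreserving_snd
  have h2 : MeasurePreserving (Prod.snd : Ω₂ × Ω₃ → Ω₃) (Q₂.prod Q₃) Q₃ := measurePreserving_snd
  exact h2.comp h1

theorem FarAux_inv_rt {n : ℕ} (hn : 1 ≤ n) {d d' : ℝ} (h : d' - d = 2) :
    ra d n - ra d' n = 1 / rt n := by
  have h1 := ra_sub hn d' d
  rw [eq_div_iff (rt_pos hn).ne', h1, h]
  norm_num

theorem FarAux_measurable_hh (hz : ∀ i, Measurable fun ω => z ω i) (al be : ℝ) (a : ℤ) :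
    Measurable fun ω => hh (z ω) al be a := by
  unfold hh
  refine Measurable.sub ?_ ?_
  · exact (Finset.measurable_fun_sum _ fun i _ => hz i).div_const _
  · exact (Finset.measurable_fun_sum _ fun i _ => hz i).div_const _

/-- from the limits of the exponents to the probability -/
theorem FarAux_conclude {Ω : Type*} [MeasurableSpace Ω] {μ : Measure Ω} {A : ℕ → Set Ω}
    {α β : ℕ → ℝ} {a b M δ : ℝ} (hδ : 0 < δ) (hα : Tendsto α atTop (𝓝 a))
    (hβ : Tendsto β atTop (𝓝 b)) (hab : (a + b + M) / 2 < Real.log δ)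
    (hA : ∀ᶠ n : ℕ in atTop, μ (A n) ≤ ENNReal.ofReal (Real.exp ((α n + β n + M) / 2))) :
    ∀ᶠ n : ℕ in atTop, μ (A n) ≤ ENNReal.ofReal δ := by
  have h1 : Tendsto (fun n => (α n + β n + M) / 2) atTop (𝓝 ((a + b + M) / 2)) :=
    ((hα.add hβ).add_const M).div_const 2
  filter_upwards [hA, h1.eventually (gt_mem_nhds hab)] with n hn hn'
  refine hn.trans (ENNReal.ofReal_le_ofReal ?_)
  calc Real.exp ((α n + β n + M) / 2) ≤ Real.exp (Real.log δ) := Real.exp_le_exp.2 hn'.le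
    _ = δ := Real.exp_log hδ

/-- exponential moment of the part of the walk between `0` and the beginning of the far region -/
theorem FarAux_mgf (hz : IsWalk Q₂ z) (s : Finset ℤ) {r r' c : ℝ} (hr : 0 < r) (hr' : 0 < r') :
    ∫⁻ q : Ω₁ × Ω₂ × Ω₃, ENNReal.ofReal (Real.exp ((r - r') * ((∑ i ∈ s, z q.2.1 i) / (2 * r))
        - c)) ∂(Q₁.prod (Q₂.prod Q₃)) =
      ENNReal.ofReal (Real.exp (s.card * Real.log (r / r') - c)) := by
  have ht : (r - r') / (2 * r) < 1 / 2 := by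
    rw [div_lt_div_iff₀ (by positivity) (by norm_num)]
    nlinarith
  have h1 := walk_mgf hz s ht
  have h2 : (1 : ℝ) / (1 - 2 * ((r - r') / (2 * r))) = r / r' := by
    have h3 : (1 : ℝ) - 2 * ((r - r') / (2 * r)) = r' / r := by
      field_simp
      ring
    rw [h3, one_div_div]
  rw [h2] at h1
  have hm : Measurable fun ω : Ω₂ => ENNReal.ofReal (Real.exp ((r - r') / (2 * r) *
      ∑ i ∈ s, z ω i)) := by
    refine ENNReal.measurable_ofReal.comp (Real.measurable_exp.comp (measurable_const.mul ?_))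
    exact Finset.measurable_fun_sum _ fun i _ => hz.meas i
  have e1 : ∀ q : Ω₁ × Ω₂ × Ω₃, ENNReal.ofReal (Real.exp ((r - r') * ((∑ i ∈ s, z q.2.1 i) /
      (2 * r)) - c)) = ENNReal.ofReal (Real.exp (-c)) *
      ENNReal.ofReal (Real.exp ((r - r') / (2 * r) * ∑ i ∈ s, z q.2.1 i)) := by
    intro q
    rw [← ENNReal.ofReal_mul (Real.exp_nonneg _), ← Real.exp_add]
    congr 2
    ring
  simp only [e1]
  have hm' : Measurable fun q : Ω₁ × Ω₂ × Ω₃ => ENNReal.ofReal (Real.exp ((r - r') / (2 * r) *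
      ∑ i ∈ s, z q.2.1 i)) := hm.comp (FarAux_mp21 (Q₁ := Q₁) (Q₂ := Q₂) (Q₃ := Q₃)).measurable
  rw [lintegral_const_mul _ hm']
  have e2 := (FarAux_mp21 (Q₁ := Q₁) (Q₂ := Q₂) (Q₃ := Q₃)).lintegral_comp hm
  rw [e2, h1, ← ENNReal.ofReal_mul (Real.exp_nonneg _)]
  congr 1
  rw [sub_eq_add_neg, Real.exp_add, mul_comm, Real.exp_nat_mul, Real.exp_log (by positivity)]

end Pool.Agent.H15.DL
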