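import Pool.Agent.H15.DL.FarAux

/-! # PK2b: far left exits are negligible, uniformly in `n` (3.3).
`μ = Q₁.prod (Q₂.prod Q₃)`: weights, bottom walk, left walk; `N = n`. -/

open MeasureTheory ProbabilityTheory Filter Topology Set
open scoped ENNReal

namespace Pool.Agent.H15.DL

open Pool.Agent.H37.DL

variable {Ω₁ Ω₂ Ω₃ : Type*} [MeasurableSpace Ω₁] [MeasurableSpace Ω₂] [MeasurableSpace Ω₃]
  {Q₁ : Measure Ω₁} {Q₂ : Measure Ω₂} {Q₃ : Measure Ω₃} [IsProbabilityMeasure Q₁]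
  [IsProbabilityMeasure Q₂] [IsProbabilityMeasure Q₃] {z : Ω₂ → ℤ → ℝ} {v : Ω₃ → ℤ → ℝ}

/-- the deterministic bound, bottom exits -/
theorem FarL_det {w : ℤ → ℕ → ℝ} {z v : ℤ → ℝ} (hz : ∀ i, 0 ≤ z i) (al al' : ℝ) {be be' : ℝ}
    (hb : 0 < be) (hbe : be ≤ be') {n k c : ℕ} (hn : 1 ≤ n) (hkn : k ≤ n) {a : ℤ}
    (hka : a ≤ -(k : ℤ)) (hna : -(n : ℤ) < a) :
    hh z al be a + lpp w a ((c : ℤ) - a).toNat (n - 1) ≤ hh z al be (-(k : ℤ)) +
      HH (fun i l => w (i - k) l) (fun i => z (i - k)) v al' be' (n - k) (c + k) n := by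
  have h1 := hh_split_left z al be (s := -(k : ℤ)) (a := a) (by omega) hka al'
  have h2 := hh_mono_left (z := fun i => z (i + -(k : ℤ))) (fun i => hz _) hb hbe al' al'
    (a := a - -(k : ℤ)) (by omega)
  have h3 := hh_le_HH (fun i l => w (i + -(k : ℤ)) l) (fun i => z (i + -(k : ℤ))) v al' be'
    (N := n - k) (c := c + k) (n := n) hn (a := a - -(k : ℤ)) (by omega) (by omega)
  rw [lpp_shift] at h3
  have e1 : a - -(k : ℤ) + -(k : ℤ) = a := by ring
  have e2 : (((c + k : ℕ) : ℤ) - (a - -(k : ℤ))) = (c : ℤ) - a := by omega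
  rw [e1, e2] at h3
  simp only [← sub_eq_add_neg] at h1 h2 h3
  linarith

/-- the deterministic bound, left exits -/
theorem FarL_det' {w : ℤ → ℕ → ℝ} {z v : ℤ → ℝ} (hz : ∀ i, 0 ≤ z i) (hv : ∀ i, 0 ≤ v i)
    (al al' : ℝ) {be be' : ℝ} (hb : 0 < be) (hbe : be ≤ be') (hb' : be' < 1) {n k c j : ℕ}
    (hkn : k < n) (hj : j < n) :
    leftExit w z v be n c n j ≤ hh z al be (-(k : ℤ)) +
      HH (fun i l => w (i - k) l) (fun i => z (i - k)) v al' be' (n - k) (c + k) n := by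
  have h1 := leftExit_split w hz hv al hb hbe hb' (N := n) (c := c) (n := n) (j := j) hkn
  have h2 := leftExit_le_HH (fun i l => w (i - k) l) (fun i => z (i - k)) v al' be'
    (N := n - k) (c := c + k) (n := n) hj (by omega)
  linarith

/-- the bound for a fixed `n` -/
theorem FarL_n {w : Ω₁ → ℤ → ℕ → ℝ} (hw : IsExpWeights Q₁ w) (hz : IsWalk Q₂ z)
    (hv : IsWalk Q₃ v) (dL dR y M K X : ℝ) {n : ℕ} (hn : 1 ≤ n) {k : ℕ}
    (hk : ∀ a : ℤ, (a : ℝ) ≤ -(K * sc n) → a ≤ -(k : ℤ)) (hkn : k < n)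
    (hX : X + 1 ≤ dL) (h1 : 0 < ra dL n) (h1' : 0 < ra (dL - 2) n)
    (h2 : 0 < ra (X - 1) n ∧ ra (X - 1) n < 1) (h3 : 0 < ra (X + 1) n ∧ ra (X + 1) n < 1) :
    (Q₁.prod (Q₂.prod Q₃)) {q | (∃ a : ℤ, -(n : ℤ) < a ∧ (a : ℝ) ≤ -(K * sc n) ∧
          -M ≤ ex (w q.1) (z q.2.1) dL dR y n a) ∨
        ∃ j < n, -M ≤ cs y n (leftExit (w q.1) (z q.2.1) (v q.2.2) (ra dL n) n (cn y n) n j)} ≤
      ENNReal.ofReal (Real.exp ((((k : ℝ) * Real.log (ra dL n / ra (dL - 2) n)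
        - 2 * (ra dL n - ra (dL - 2) n) * k) +
        expo (ra (X - 1) n) (ra (X + 1) n) (cn y n + k) n + M) / 2)) := by
  have hrt := rt_pos hn
  have hr1 := FarAux_inv_rt hn (d := X - 1) (d' := X + 1) (by ring)
  have hr2 := FarAux_inv_rt hn (d := dL - 2) (d' := dL) (by ring)
  have hr3 : ra dL n - ra (dL - 2) n = -(1 / rt n) := by linarith
  set f : Ω₁ × Ω₂ × Ω₃ → ℝ := fun q => (ra dL n - ra (dL - 2) n) *
    ((∑ i ∈ Finset.Ioc (-(k : ℤ)) 0, z q.2.1 i) / (2 * ra dL n)) -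
      2 * (ra dL n - ra (dL - 2) n) * k with hf
  set g : Ω₁ × Ω₂ × Ω₃ → ℝ := fun q => (ra (X - 1) n - ra (X + 1) n) *
    (HH (fun i l => w q.1 (i - k) l) (fun i => z q.2.1 (i - k)) (v q.2.2) (ra (X - 1) n)
      (ra (X + 1) n) (n - k) (cn y n + k) n - 2 * n - 2 * ((cn y n + k : ℕ) : ℝ)) with hg
  have hfm : Measurable f := by
    have : Measurable fun ω : Ω₂ => (ra dL n - ra (dL - 2) n) *
        ((∑ i ∈ Finset.Ioc (-(k : ℤ)) 0, z ω i) / (2 * ra dL n)) -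
          2 * (ra dL n - ra (dL - 2) n) * k :=
      (measurable_const.mul ((Finset.measurable_fun_sum _ fun i _ => hz.meas i).div_const _)).sub
        measurable_const
    exact this.comp (FarAux_mp21 (Q₁ := Q₁) (Q₂ := Q₂) (Q₃ := Q₃)).measurable
  have hgm : Measurable g := by
    have := measurable_HH (Ω := Ω₁ × Ω₂ × Ω₃) (w := fun q i l => w q.1 (i - k) l)
      (z := fun q i => z q.2.1 (i - k)) (v := fun q => v q.2.2)
      (fun i j => (hw.meas _ _).comp measurable_fst)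
      (fun i => (hz.meas _).comp (FarAux_mp21 (Q₁ := Q₁) (Q₂ := Q₂) (Q₃ := Q₃)).measurable)
      (fun i => (hv.meas _).comp (FarAux_mp22 (Q₁ := Q₁) (Q₂ := Q₂) (Q₃ := Q₃)).measurable)
      (ra (X - 1) n) (ra (X + 1) n) (n - k) (cn y n + k) n
    exact measurable_const.mul ((this.sub measurable_const).sub measurable_const)
  have hF : ∫⁻ q, ENNReal.ofReal (Real.exp (f q)) ∂(Q₁.prod (Q₂.prod Q₃)) ≤
      ENNReal.ofReal (Real.exp ((k : ℝ) * Real.log (ra dL n / ra (dL - 2) n)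
        - 2 * (ra dL n - ra (dL - 2) n) * k)) := by
    refine le_of_eq ?_
    have := FarAux_mgf (Q₁ := Q₁) (Q₃ := Q₃) hz (Finset.Ioc (-(k : ℤ)) 0) h1 h1'
      (c := 2 * (ra dL n - ra (dL - 2) n) * k)
    simp only [Int.card_Ioc, zero_sub, neg_neg, Int.toNat_natCast] at this
    exact this
  have hG : ∫⁻ q, ENNReal.ofReal (Real.exp (g q)) ∂(Q₁.prod (Q₂.prod Q₃)) ≤
      ENNReal.ofReal (Real.exp (expo (ra (X - 1) n) (ra (X + 1) n) (cn y n + k) n)) :=
    le_of_eq (HH_expo (weights_shift hw (-(k : ℤ))) (hz.shift (-(k : ℤ))) hv h2.1 h2.2 h3.1 h3.2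
      (n - k) (cn y n + k) n)
  have hM := markov2 hfm hgm (r := -M) hF hG
  rw [sub_neg_eq_add] at hM
  refine le_trans (measure_mono_ae ?_) hM
  have hpos : ∀ᵐ q ∂(Q₁.prod (Q₂.prod Q₃)), ∀ i, 0 ≤ z q.2.1 i :=
    (FarAux_mp21 (Q₁ := Q₁) (Q₂ := Q₂) (Q₃ := Q₃)).quasiMeasurePreserving.ae (walk_nonneg hz)
  have hpos' : ∀ᵐ q ∂(Q₁.prod (Q₂.prod Q₃)), ∀ i, 0 ≤ v q.2.2 i :=
    (FarAux_mp22 (Q₁ := Q₁) (Q₂ := Q₂) (Q₃ := Q₃)).quasiMeasurePreserving.ae (walk_nonneg hv)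
  filter_upwards [hpos, hpos'] with q hq hq'
  have e1 : hh (z q.2.1) (ra dR n) (ra dL n) (-(k : ℤ)) =
      -((∑ i ∈ Finset.Ioc (-(k : ℤ)) 0, z q.2.1 i) / (2 * ra dL n)) := by
    unfold hh
    rw [Finset.Ioc_eq_empty (a := (0 : ℤ)) (b := -(k : ℤ)) (by omega)]
    simp
  -- the common part of both cases
  have key : ∀ t : ℝ, t ≤ hh (z q.2.1) (ra dR n) (ra dL n) (-(k : ℤ)) +
      HH (fun i l => w q.1 (i - k) l) (fun i => z q.2.1 (i - k)) (v q.2.2) (ra (X - 1) n)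
      (ra (X + 1) n) (n - k) (cn y n + k) n → cs y n t ≤ f q + g q := by
    intro t ht
    rw [e1] at ht
    simp only [hf, hg, hr1, hr3]
    unfold cs
    rw [div_le_iff₀ hrt]
    have e3 : ∀ A B : ℝ, (-(1 / rt n) * A - 2 * -(1 / rt n) * (k : ℝ) + 1 / rt n * B) * rt n =
        -A + 2 * k + B := by
      intro A B
      field_simp
      ring
    rw [e3]
    push_cast
    linarith
  rintro (⟨a, ha1, ha2, ha3⟩ | ⟨j, hj, hj'⟩)
  · change -M ≤ f q + g q
    refine ha3.trans (key _ ?_)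
    exact FarL_det hq (ra dR n) (ra (X - 1) n) h1 (ra_anti hn hX) hn hkn.le (hk a ha2) ha1
  · change -M ≤ f q + g q
    refine hj'.trans (key _ ?_)
    exact FarL_det' hq hq' (ra dR n) (ra (X - 1) n) h1 (ra_anti hn hX) h3.2 hkn hj

/-- FAR LEFT.  `k = ⌊K sc n⌋₊`, `al' = ra (-2 (y + K) - 1) n`, `be' = ra (-2 (y + K) + 1) n`.
For an exit `a ≤ - k`: `hh a + lpp a ≤ hh (-k) + HH (shifted by -k) al' be' (n - k) (c + k) n`,
and the same for the left exits (`leftExit_split`, `leftExit_le_HH`).  `markov2` with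
`f = (al' - be') (hh (-k) + 2 k)` (`walk_mgf`, `mgf_right` with `d = dL`, `d' = dL - 2`; limit
`K (1 - dL)`), and `g`: limit `1/12 - (y + K)^2`. -/
theorem far_left {w : ℕ → Ω₁ → ℤ → ℕ → ℝ} (hw : ∀ n, IsExpWeights Q₁ (w n)) (hz : IsWalk Q₂ z)
    (hv : IsWalk Q₃ v) (dL dR y M : ℝ) {δ : ℝ} (hδ : 0 < δ) :
    ∃ K₀ : ℝ, ∀ K : ℝ, K₀ ≤ K → ∀ᶠ n : ℕ in atTop,
      (Q₁.prod (Q₂.prod Q₃)) {q | (∃ a : ℤ, -(n : ℤ) < a ∧ (a : ℝ) ≤ -(K * sc n) ∧
          -M ≤ ex (w n q.1) (z q.2.1) dL dR y n a) ∨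
        ∃ j < n, -M ≤ cs y n (leftExit (w n q.1) (z q.2.1) (v q.2.2) (ra dL n) n (cn y n) n j)} ≤
        ENNReal.ofReal δ := by
  have hlim : Tendsto (fun K : ℝ => ((K * (1 - dL)) + (1 / 12 - (y + K) ^ 2) + M) / 2) atTop
      atBot := by
    have h1 : (fun K : ℝ => ((K * (1 - dL)) + (1 / 12 - (y + K) ^ 2) + M) / 2) =
        fun K : ℝ => -(K * (K - (1 - dL - 2 * y)) / 2) + (1 / 12 - y ^ 2 + M) / 2 := by
      funext K
      ring
    rw [h1]
    refine tendsto_atBot_add_const_right _ _ (tendsto_neg_atTop_atBot.comp ?_)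
    refine Tendsto.atTop_div_const (by norm_num) ?_
    refine tendsto_id.atTop_mul_atTop₀ ?_
    exact tendsto_atTop_add_const_right _ _ tendsto_id
  have hev : ∀ᶠ K : ℝ in atTop, ((K * (1 - dL)) + (1 / 12 - (y + K) ^ 2) + M) / 2 < Real.log δ ∧
      -2 * (y + K) + 1 ≤ dL ∧ 0 < K := by
    refine (hlim.eventually_lt_atBot _).and ?_
    filter_upwards [eventually_ge_atTop ((1 - dL) / 2 - y), eventually_gt_atTop 0] with K h1 h2
    exact ⟨by linarith, h2⟩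
  obtain ⟨K₀, hK₀⟩ := eventually_atTop.1 hev
  refine ⟨K₀, fun K hK => ?_⟩
  obtain ⟨hK1, hK2, hK3⟩ := hK₀ K hK
  set X : ℝ := -2 * (y + K) with hX
  set k : ℕ → ℕ := fun n => ⌊K * sc n⌋₊ with hk
  have hkK : Tendsto (fun n : ℕ => (k n : ℝ) / sc n) atTop (𝓝 K) := by
    have h1 : ∀ᶠ n : ℕ in atTop, K - 1 / sc n ≤ (k n : ℝ) / sc n ∧ (k n : ℝ) / sc n ≤ K := by
      filter_upwards [eventually_ge_atTop 1] with n hn
      have hs := sc_pos hn
      have hKs : 0 < K * sc n := by positivity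
      have h2 := Nat.floor_le hKs.le
      have h3 := Nat.lt_floor_add_one (K * sc n)
      constructor
      · rw [le_div_iff₀ hs, sub_mul, one_div, inv_mul_cancel₀ hs.ne']
        simp only [hk]
        linarith
      · rw [div_le_iff₀ hs]
        exact h2
    have h2 : Tendsto (fun n : ℕ => K - 1 / sc n) atTop (𝓝 K) := by
      have := (tendsto_const_nhds (x := (1 : ℝ))).div_atTop tendsto_sc
      simpa using (tendsto_const_nhds (x := K)).sub this
    exact tendsto_of_tendsto_of_tendsto_of_le_of_le' h2 tendsto_const_nhds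
      (h1.mono fun n h => h.1) (h1.mono fun n h => h.2)
  have hkn : ∀ᶠ n : ℕ in atTop, k n < n := by
    have h1 := tendsto_sc_div.const_mul K
    rw [mul_zero] at h1
    filter_upwards [h1.eventually (gt_mem_nhds one_pos), eventually_ge_atTop 1] with n hn hn1
    have hn0 : (0 : ℝ) < n := by exact_mod_cast hn1
    have hs := sc_pos hn1
    have h2 : K * sc n < n := by
      rw [← mul_div_assoc, div_lt_one hn0] at hn
      exact hn
    have h3 := Nat.floor_le (show 0 ≤ K * sc n by positivity)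
    have h4 : ((k n : ℕ) : ℝ) < n := lt_of_le_of_lt h3 h2
    exact_mod_cast h4
  have hc : Tendsto (fun n : ℕ => (((cn y n + k n : ℕ) : ℝ) - n) / sc n) atTop (𝓝 (y + K)) := by
    have h1 := (cn_tendsto y).add hkK
    refine h1.congr fun n => ?_
    push_cast
    ring
  have hα := mgf_right dL (dL - 2) hkK
  have hβ := expo_tendsto (X + 1) (X - 1) (y + K) hc
  refine FarAux_conclude hδ hα hβ (M := M) ?_ ?_
  · have e : expL (X + 1) (X - 1) (y + K) = 1 / 12 - (y + K) ^ 2 := by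
      unfold expL
      rw [hX]
      ring
    rw [e]
    refine lt_of_le_of_lt (le_of_eq ?_) hK1
    ring
  · filter_upwards [hkn, eventually_ge_atTop 1, ra_mem dL, ra_mem (dL - 2), ra_mem (X - 1),
      ra_mem (X + 1)] with n hn hn1 r1 r2 r3 r4
    refine FarL_n (hw n) hz hv dL dR y M K X hn1 ?_ hn hK2 (by linarith) (by linarith)
      ⟨by linarith, by linarith⟩ ⟨by linarith, by linarith⟩
    intro a ha
    have hs := sc_pos hn1
    have hKs : 0 ≤ K * sc n := by positivity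
    have h1 := Nat.floor_le hKs
    have h2 : (a : ℝ) ≤ ((-(k n : ℤ) : ℤ) : ℝ) := by
      push_cast
      simp only [hk]
      linarith
    exact_mod_cast h2

end Pool.Agent.H15.DL
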