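import Pool.Agent.H15.DL.FarAux

/-! # PK2b: far right exits are negligible, uniformly in `n` (3.3).
`μ = Q₁.prod (Q₂.prod Q₃)`: weights, bottom walk, left walk; `N = n`. -/

open MeasureTheory ProbabilityTheory Filter Topology Set
open scoped ENNReal

namespace Pool.Agent.H15.DL

open Pool.Agent.H37.DL

variable {Ω₁ Ω₂ Ω₃ : Type*} [MeasurableSpace Ω₁] [MeasurableSpace Ω₂] [MeasurableSpace Ω₃]
  {Q₁ : Measure Ω₁} {Q₂ : Measure Ω₂} {Q₃ : Measure Ω₃} [IsProbabilityMeasure Q₁]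
  [IsProbabilityMeasure Q₂] [IsProbabilityMeasure Q₃] {z : Ω₂ → ℤ → ℝ} {v : Ω₃ → ℤ → ℝ}

/-- the deterministic bound -/
theorem FarR_det {w : ℤ → ℕ → ℝ} {z v : ℤ → ℝ} (hz : ∀ i, 0 ≤ z i) {al al' : ℝ} (ha : 0 < al')
    (hal : al' ≤ al) (be be' : ℝ) {n k c : ℕ} (hn : 1 ≤ n) {a : ℤ} (hka : (k : ℤ) < a)
    (hac : a ≤ c) :
    hh z al be a + lpp w a ((c : ℤ) - a).toNat (n - 1) ≤ hh z al be k +
      HH (fun i l => w (i + k) l) (fun i => z (i + k)) v al' be' 0 (c - k) n := by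
  have h1 := hh_split_right z al be (s := (k : ℤ)) (a := a) (by omega) hka.le be'
  have h2 := hh_mono_right (z := fun i => z (i + k)) (fun i => hz _) ha hal be' be'
    (a := a - k) (by omega)
  have h3 := hh_le_HH (fun i l => w (i + k) l) (fun i => z (i + k)) v al' be' (N := 0)
    (c := c - k) (n := n) hn (a := a - k) (by push_cast; omega) (by omega)
  rw [lpp_shift] at h3
  have e1 : a - k + k = a := by ring
  have e2 : (((c - k : ℕ) : ℤ) - (a - k)) = (c : ℤ) - a := by omega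
  rw [e1, e2] at h3
  linarith

/-- the bound for a fixed `n` -/
theorem FarR_n {w : Ω₁ → ℤ → ℕ → ℝ} (hw : IsExpWeights Q₁ w) (hz : IsWalk Q₂ z)
    (hv : IsWalk Q₃ v) (dL dR y M K X : ℝ) {n : ℕ} (hn : 1 ≤ n) {k : ℕ}
    (hk : ∀ a : ℤ, K * sc n ≤ a → (k : ℤ) < a) (hkc : k ≤ cn y n)
    (hX : dR ≤ X - 1) (h1 : 0 < ra dR n) (h1' : 0 < ra (dR + 2) n)
    (h2 : 0 < ra (X - 1) n ∧ ra (X - 1) n < 1) (h3 : 0 < ra (X + 1) n ∧ ra (X + 1) n < 1) :
    (Q₁.prod (Q₂.prod Q₃)) {q | ∃ a : ℤ, K * sc n ≤ a ∧ a ≤ (cn y n : ℤ) ∧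
        -M ≤ ex (w q.1) (z q.2.1) dL dR y n a} ≤
      ENNReal.ofReal (Real.exp ((((k : ℝ) * Real.log (ra dR n / ra (dR + 2) n)
        - 2 * (ra dR n - ra (dR + 2) n) * k) +
        expo (ra (X - 1) n) (ra (X + 1) n) (cn y n - k) n + M) / 2)) := by
  have hrt := rt_pos hn
  have hr1 := FarAux_inv_rt hn (d := X - 1) (d' := X + 1) (by ring)
  have hr2 := FarAux_inv_rt hn (d := dR) (d' := dR + 2) (by ring)
  set f : Ω₁ × Ω₂ × Ω₃ → ℝ := fun q => (ra dR n - ra (dR + 2) n) *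
    ((∑ i ∈ Finset.Ioc (0 : ℤ) k, z q.2.1 i) / (2 * ra dR n)) -
      2 * (ra dR n - ra (dR + 2) n) * k with hf
  set g : Ω₁ × Ω₂ × Ω₃ → ℝ := fun q => (ra (X - 1) n - ra (X + 1) n) *
    (HH (fun i l => w q.1 (i + k) l) (fun i => z q.2.1 (i + k)) (v q.2.2) (ra (X - 1) n)
      (ra (X + 1) n) 0 (cn y n - k) n - 2 * n - 2 * ((cn y n - k : ℕ) : ℝ)) with hg
  have hfm : Measurable f := by
    have : Measurable fun ω : Ω₂ => (ra dR n - ra (dR + 2) n) *
        ((∑ i ∈ Finset.Ioc (0 : ℤ) k, z ω i) / (2 * ra dR n)) -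
          2 * (ra dR n - ra (dR + 2) n) * k :=
      (measurable_const.mul ((Finset.measurable_fun_sum _ fun i _ => hz.meas i).div_const _)).sub
        measurable_const
    exact this.comp (FarAux_mp21 (Q₁ := Q₁) (Q₂ := Q₂) (Q₃ := Q₃)).measurable
  have hgm : Measurable g := by
    have := measurable_HH (Ω := Ω₁ × Ω₂ × Ω₃) (w := fun q i l => w q.1 (i + k) l)
      (z := fun q i => z q.2.1 (i + k)) (v := fun q => v q.2.2)
      (fun i j => (hw.meas _ _).comp measurable_fst)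
      (fun i => (hz.meas _).comp (FarAux_mp21 (Q₁ := Q₁) (Q₂ := Q₂) (Q₃ := Q₃)).measurable)
      (fun i => (hv.meas _).comp (FarAux_mp22 (Q₁ := Q₁) (Q₂ := Q₂) (Q₃ := Q₃)).measurable)
      (ra (X - 1) n) (ra (X + 1) n) 0 (cn y n - k) n
    exact measurable_const.mul ((this.sub measurable_const).sub measurable_const)
  have hF : ∫⁻ q, ENNReal.ofReal (Real.exp (f q)) ∂(Q₁.prod (Q₂.prod Q₃)) ≤
      ENNReal.ofReal (Real.exp ((k : ℝ) * Real.log (ra dR n / ra (dR + 2) n)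
        - 2 * (ra dR n - ra (dR + 2) n) * k)) := by
    refine le_of_eq ?_
    have := FarAux_mgf (Q₁ := Q₁) (Q₃ := Q₃) hz (Finset.Ioc (0 : ℤ) k) h1 h1'
      (c := 2 * (ra dR n - ra (dR + 2) n) * k)
    simp only [Int.card_Ioc, sub_zero, Int.toNat_natCast] at this
    exact this
  have hG : ∫⁻ q, ENNReal.ofReal (Real.exp (g q)) ∂(Q₁.prod (Q₂.prod Q₃)) ≤
      ENNReal.ofReal (Real.exp (expo (ra (X - 1) n) (ra (X + 1) n) (cn y n - k) n)) :=
    le_of_eq (HH_expo (weights_shift hw k) (hz.shift k) hv h2.1 h2.2 h3.1 h3.2 0 (cn y n - k) n)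
  have hM := markov2 hfm hgm (r := -M) hF hG
  rw [sub_neg_eq_add] at hM
  refine le_trans (measure_mono_ae ?_) hM
  have hpos : ∀ᵐ q ∂(Q₁.prod (Q₂.prod Q₃)), ∀ i, 0 ≤ z q.2.1 i :=
    (FarAux_mp21 (Q₁ := Q₁) (Q₂ := Q₂) (Q₃ := Q₃)).quasiMeasurePreserving.ae (walk_nonneg hz)
  filter_upwards [hpos] with q hq
  rintro ⟨a, ha1, ha2, ha3⟩
  change -M ≤ f q + g q
  refine ha3.trans ?_
  have hd := FarR_det (w := w q.1) (v := v q.2.2) hq h2.1 (ra_anti hn hX) (ra dL n)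
    (ra (X + 1) n) hn (hk a ha1) ha2
  have e1 : hh (z q.2.1) (ra dR n) (ra dL n) k =
      (∑ i ∈ Finset.Ioc (0 : ℤ) k, z q.2.1 i) / (2 * ra dR n) := by
    unfold hh
    rw [Finset.Ioc_eq_empty (a := (k : ℤ)) (b := 0) (by omega)]
    simp
  rw [e1] at hd
  simp only [hf, hg, hr1, hr2]
  unfold ex cs
  rw [div_le_iff₀ hrt]
  have e2 : ((cn y n - k : ℕ) : ℝ) = (cn y n : ℝ) - k := by
    rw [Nat.cast_sub hkc]
  rw [e2]
  have e3 : ∀ A B : ℝ, (1 / rt n * A - 2 * (1 / rt n) * (k : ℝ) + 1 / rt n * B) * rt n =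
      A - 2 * k + B := by
    intro A B
    field_simp
  rw [e3]
  linarith

/-- FAR RIGHT.  `k = ⌈K sc n⌉₊ - 1`, `al' = ra (2 (K - y) - 1) n`, `be' = ra (2 (K - y) + 1) n`,
`(al' - be') rt n = 1`.  For an exit `a > k`:
`hh a + lpp a ≤ hh k + HH (w shifted by k) (z shifted by k) v al' be' 0 (c - k) n`
(`hh_split_right`, `hh_mono_right`, `lpp_shift`, `hh_le_HH`).  `markov2` with
`f = (al' - be') (hh k - 2 k)` (`walk_mgf`, `mgf_right` with `d = dR`, `d' = dR + 2`; limit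
`K (dR + 1)`), `g = (al' - be') (HH - 2 n - 2 (c - k))` (`HH_expo`, `expo_tendsto`; limit
`expL (2 (K - y) + 1) (2 (K - y) - 1) (y - K) = 1/12 - (K - y)^2`). -/
theorem far_right {w : ℕ → Ω₁ → ℤ → ℕ → ℝ} (hw : ∀ n, IsExpWeights Q₁ (w n)) (hz : IsWalk Q₂ z)
    (hv : IsWalk Q₃ v) (dL dR y M : ℝ) {δ : ℝ} (hδ : 0 < δ) :
    ∃ K₀ : ℝ, ∀ K : ℝ, K₀ ≤ K → ∀ᶠ n : ℕ in atTop,
      (Q₁.prod (Q₂.prod Q₃)) {q | ∃ a : ℤ, K * sc n ≤ a ∧ a ≤ (cn y n : ℤ) ∧
        -M ≤ ex (w n q.1) (z q.2.1) dL dR y n a} ≤ ENNReal.ofReal δ := by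
  -- the limit of the exponent tends to `-∞`
  have hlim : Tendsto (fun K : ℝ => ((K * (dR + 1)) + (1 / 12 - (K - y) ^ 2) + M) / 2) atTop
      atBot := by
    have h1 : (fun K : ℝ => ((K * (dR + 1)) + (1 / 12 - (K - y) ^ 2) + M) / 2) =
        fun K : ℝ => -(K * (K - (dR + 1 + 2 * y)) / 2) + (1 / 12 - y ^ 2 + M) / 2 := by
      funext K
      ring
    rw [h1]
    refine tendsto_atBot_add_const_right _ _ (tendsto_neg_atTop_atBot.comp ?_)
    refine Tendsto.atTop_div_const (by norm_num) ?_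
    refine tendsto_id.atTop_mul_atTop₀ ?_
    exact tendsto_atTop_add_const_right _ _ tendsto_id
  have hev : ∀ᶠ K : ℝ in atTop, ((K * (dR + 1)) + (1 / 12 - (K - y) ^ 2) + M) / 2 < Real.log δ ∧
      dR ≤ 2 * (K - y) - 1 ∧ 0 < K := by
    refine (hlim.eventually_lt_atBot _).and ?_
    filter_upwards [eventually_ge_atTop ((dR + 1) / 2 + y), eventually_gt_atTop 0] with K h1 h2
    exact ⟨by linarith, h2⟩
  obtain ⟨K₀, hK₀⟩ := eventually_atTop.1 hev
  refine ⟨K₀, fun K hK => ?_⟩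
  obtain ⟨hK1, hK2, hK3⟩ := hK₀ K hK
  set X : ℝ := 2 * (K - y) with hX
  set k : ℕ → ℕ := fun n => ⌈K * sc n⌉₊ - 1 with hk
  -- `k n / sc n → K`
  have hkK : Tendsto (fun n : ℕ => (k n : ℝ) / sc n) atTop (𝓝 K) := by
    have h1 : ∀ᶠ n : ℕ in atTop, K - 1 / sc n ≤ (k n : ℝ) / sc n ∧ (k n : ℝ) / sc n ≤ K := by
      filter_upwards [eventually_ge_atTop 1] with n hn
      have hs := sc_pos hn
      have hKs : 0 < K * sc n := by positivity
      have hc : 1 ≤ ⌈K * sc n⌉₊ := Nat.one_le_ceil_iff.2 hKs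
      have e : (k n : ℝ) = (⌈K * sc n⌉₊ : ℝ) - 1 := by
        simp only [hk]
        rw [Nat.cast_sub hc, Nat.cast_one]
      have h2 := Nat.le_ceil (K * sc n)
      have h3 := Nat.ceil_lt_add_one hKs.le
      constructor
      · rw [e, le_div_iff₀ hs, sub_mul, one_div, inv_mul_cancel₀ hs.ne']
        linarith
      · rw [e, div_le_iff₀ hs]
        linarith
    have h2 : Tendsto (fun n : ℕ => K - 1 / sc n) atTop (𝓝 K) := by
      have := (tendsto_const_nhds (x := (1 : ℝ))).div_atTop tendsto_sc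
      simpa using (tendsto_const_nhds (x := K)).sub this
    exact tendsto_of_tendsto_of_tendsto_of_le_of_le' h2 tendsto_const_nhds
      (h1.mono fun n h => h.1) (h1.mono fun n h => h.2)
  have hkc : ∀ᶠ n : ℕ in atTop, k n ≤ cn y n := by
    have h1 := floor_mem (K + 1) y
    filter_upwards [h1, eventually_ge_atTop 1, tendsto_sc.eventually_ge_atTop 2] with n hn hn1 hs
    have h2 : (k n : ℤ) ≤ ⌊sc n * (K + 1)⌋ := by
      rw [Int.le_floor]
      have h3 := Nat.ceil_lt_add_one (show 0 ≤ K * sc n by have := sc_pos hn1; positivity)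
      have h4 : (k n : ℝ) ≤ (⌈K * sc n⌉₊ : ℝ) := by
        simp only [hk]
        exact_mod_cast Nat.sub_le _ _
      push_cast
      nlinarith
    have h3 := h2.trans hn.2
    exact_mod_cast h3
  have hc : Tendsto (fun n : ℕ => (((cn y n - k n : ℕ) : ℝ) - n) / sc n) atTop (𝓝 (y - K)) := by
    have h1 := (cn_tendsto y).sub hkK
    refine h1.congr' ?_
    filter_upwards [hkc] with n hn
    rw [Nat.cast_sub hn]
    ring
  have hα := mgf_right dR (dR + 2) hkK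
  have hβ := expo_tendsto (X + 1) (X - 1) (y - K) hc
  refine FarAux_conclude hδ hα hβ (M := M) ?_ ?_
  · have e : expL (X + 1) (X - 1) (y - K) = 1 / 12 - (K - y) ^ 2 := by
      unfold expL
      rw [hX]
      ring
    rw [e]
    refine lt_of_le_of_lt (le_of_eq ?_) hK1
    ring
  · filter_upwards [hkc, eventually_ge_atTop 1, ra_mem dR, ra_mem (dR + 2), ra_mem (X - 1),
      ra_mem (X + 1)] with n hn hn1 r1 r2 r3 r4
    refine FarR_n (hw n) hz hv dL dR y M K X hn1 ?_ hn hK2 (by linarith) (by linarith)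
      ⟨by linarith, by linarith⟩ ⟨by linarith, by linarith⟩
    intro a ha
    have hs := sc_pos hn1
    have hKs : 0 < K * sc n := by positivity
    have hc : 1 ≤ ⌈K * sc n⌉₊ := Nat.one_le_ceil_iff.2 hKs
    have h1 : ((⌈K * sc n⌉₊ : ℕ) : ℤ) ≤ a := by
      rw [Int.natCast_ceil_eq_ceil hKs.le]
      exact Int.ceil_le.2 ha
    simp only [hk]
    omega

end Pool.Agent.H15.DL
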