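import Pool.Agent.H15.DL.Asym
import Pool.Agent.H15.DL.Exit

/-! # PK2b: convergence of the scaled exits at finitely many points -/

open MeasureTheory ProbabilityTheory Filter Topology Set
open scoped ENNReal

namespace Pool.Agent.H15.DL

open Pool.Agent.H37.DL

/-- Slutsky (`TendstoInDistribution.prodMk_of_tendstoInMeasure_const`) -/
theorem slutsky {Ω Ω' E E' : Type*} [MeasurableSpace Ω] [MeasurableSpace Ω']
    {μ : Measure Ω} [IsProbabilityMeasure μ] {μ' : Measure Ω'} [IsProbabilityMeasure μ']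
    [NormedAddCommGroup E] [SecondCountableTopology E] [MeasurableSpace E] [BorelSpace E]
    [NormedAddCommGroup E'] [SecondCountableTopology E'] [MeasurableSpace E'] [BorelSpace E']
    {X : ℕ → Ω → E} {Z : Ω' → E} (hX : ∀ n, Measurable (X n)) (hZ : Measurable Z)
    (h : ∀ F : E → ℝ, Continuous F → (∃ C, ∀ v, |F v| ≤ C) →
      Tendsto (fun n => ∫ ω, F (X n ω) ∂μ) atTop (𝓝 (∫ ω, F (Z ω) ∂μ')))
    {θ : ℕ → E'} {t : E'} (hθ : Tendsto θ atTop (𝓝 t)) {G : E × E' → ℝ} (hG : Continuous G)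
    (hGb : ∃ C, ∀ v, |G v| ≤ C) :
    Tendsto (fun n => ∫ ω, G (X n ω, θ n) ∂μ) atTop (𝓝 (∫ ω, G (Z ω, t) ∂μ')) := by
  have h1 : TendstoInDistribution X atTop Z (fun _ => μ) μ' := by
    refine ⟨fun n => (hX n).aemeasurable, hZ.aemeasurable, ?_⟩
    refine ProbabilityMeasure.tendsto_iff_forall_integral_tendsto.mpr ?_
    intro f
    have h2 := h f f.continuous ⟨‖f‖, fun v => by
      simpa using f.norm_coe_le_norm v⟩
    have e1 : ∀ n, ∫ x, f x ∂(μ.map (X n)) = ∫ ω, f (X n ω) ∂μ := fun n =>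
      integral_map (hX n).aemeasurable f.continuous.aestronglyMeasurable
    have e2 : ∫ x, f x ∂(μ'.map Z) = ∫ ω, f (Z ω) ∂μ' :=
      integral_map hZ.aemeasurable f.continuous.aestronglyMeasurable
    have e3 := h2
    simp only [← e1, ← e2] at e3
    exact e3
  have hY : TendstoInMeasure μ (fun n (_ : Ω) => θ n) atTop (fun _ => t) := by
    rw [tendstoInMeasure_iff_norm]
    intro ε hε
    have : ∀ᶠ n in atTop, ‖θ n - t‖ < ε := by
      have := hθ.sub_const t
      rw [sub_self] at this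
      exact (by simpa using this.norm : Tendsto (fun n => ‖θ n - t‖) atTop (𝓝 0)).eventually_lt_const hε
    refine tendsto_const_nhds.congr' ?_
    filter_upwards [this] with n hn
    have : {x : Ω | ε ≤ ‖θ n - t‖} = ∅ := by
      ext x
      simpa using hn
    rw [this, measure_empty]
  have h3 := h1.prodMk_of_tendstoInMeasure_const X (fun n (_ : Ω) => θ n) Z hY
    (fun n => aemeasurable_const)
  have h4 := ProbabilityMeasure.tendsto_iff_forall_integral_tendsto.mp h3.tendsto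
  obtain ⟨C, hC⟩ := hGb
  have h5 := h4 (BoundedContinuousFunction.ofNormedAddCommGroup G hG C (fun v => hC v))
  have e1 : ∀ n, ∫ x, G x ∂(μ.map (fun ω => (X n ω, θ n))) = ∫ ω, G (X n ω, θ n) ∂μ := fun n =>
    integral_map ((hX n).prodMk measurable_const).aemeasurable hG.aestronglyMeasurable
  have e2 : ∫ x, G x ∂(μ'.map (fun ω => (Z ω, t))) = ∫ ω, G (Z ω, t) ∂μ' :=
    integral_map (hZ.prodMk measurable_const).aemeasurable hG.aestronglyMeasurable
  simp only [← e1, ← e2]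
  exact h5

variable {Ω₁ Ω₂ Ωb : Type*} [MeasurableSpace Ω₁] [MeasurableSpace Ω₂] [MeasurableSpace Ωb]
  {Q₁ : Measure Ω₁} {Q₂ : Measure Ω₂} {Pb : Measure Ωb} [IsProbabilityMeasure Q₁]
  [IsProbabilityMeasure Q₂] [IsProbabilityMeasure Pb] {z : Ω₂ → ℤ → ℝ} {b : Ωb → ℝ → ℝ}

omit [IsProbabilityMeasure Q₁] in
theorem measurable_Sn {w : Ω₁ → ℤ → ℕ → ℝ} (hw : IsExpWeights Q₁ w) (n : ℕ) (p : ℝ × ℝ) :
    Measurable fun ω => Sn (w ω) n p := by
  unfold Sn
  exact (((measurable_lpp hw.meas _ _ _).sub_const _).sub_const _).div_const _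

omit [IsProbabilityMeasure Q₂] in
theorem measurable_bn (hz : IsWalk Q₂ z) (n : ℕ) (x : ℝ) : Measurable fun ω => bn (z ω) n x := by
  unfold bn wsum
  have h := hz.meas
  exact ((Finset.measurable_sum _ fun i _ => (h i).sub_const 2).sub
    (Finset.measurable_sum _ fun i _ => (h i).sub_const 2)).div_const _

omit [IsProbabilityMeasure Q₂] in
theorem measurable_hh (hz : IsWalk Q₂ z) (al be : ℝ) (a : ℤ) :
    Measurable fun ω => hh (z ω) al be a := by
  unfold hh
  have h := hz.meas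
  exact ((Finset.measurable_sum _ fun i _ => h i).div_const _).sub
    ((Finset.measurable_sum _ fun i _ => h i).div_const _)

omit [IsProbabilityMeasure Q₁] [IsProbabilityMeasure Q₂] in
theorem measurable_ex {w : Ω₁ → ℤ → ℕ → ℝ} (hw : IsExpWeights Q₁ w) (hz : IsWalk Q₂ z)
    (dL dR y : ℝ) (n : ℕ) (a : ℤ) :
    Measurable fun q : Ω₁ × Ω₂ => ex (w q.1) (z q.2) dL dR y n a := by
  unfold ex cs
  have h1 : Measurable fun q : Ω₁ × Ω₂ => hh (z q.2) (ra dR n) (ra dL n) a :=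
    (measurable_hh hz (ra dR n) (ra dL n) a).comp measurable_snd
  have h2 : Measurable fun q : Ω₁ × Ω₂ => lpp (w q.1) a ((cn y n : ℤ) - a).toNat (n - 1) :=
    (measurable_lpp hw.meas a ((cn y n : ℤ) - a).toNat (n - 1)).comp measurable_fst
  exact (((h1.add h2).sub_const _).sub_const _).div_const _

/-- the slope at `u` -/
noncomputable def sl (dL dR u : ℝ) : ℝ := if 0 ≤ u then dR else dL

theorem sl_mul (dL dR u : ℝ) : sl dL dR u * u = dr dL dR u := by
  unfold sl dr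
  split_ifs with h
  · rw [max_eq_left h, max_eq_right (by linarith)]; ring
  · rw [max_eq_right (by linarith), max_eq_left (by linarith)]; ring

/-- the scaled exit in terms of the rescaled fields -/
theorem ex_grid (dL dR y : ℝ) : ∀ᶠ n : ℕ in atTop, ∀ (w : ℤ → ℕ → ℝ) (z : ℤ → ℝ) (u : ℝ),
    ex w z dL dR y n ⌊sc n * u⌋ = Sn w n (u, y) + 1 / (2 * ra (sl dL dR u) n) * bn z n u +
      sl dL dR u * (⌊sc n * u⌋ / sc n) / (2 * ra (sl dL dR u) n) := by
  filter_upwards [ex_eq y, ra_mem dL, ra_mem dR, eventually_ge_atTop 1] with n h1 h2 h3 h4 w z u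
  have hsc := sc_pos h4
  rw [h1, Sn_floor h4, hn_eq h4 (by linarith [h3.1]) (by linarith [h2.1])]
  have e1 : (if (0 : ℤ) ≤ ⌊sc n * u⌋ then dR else dL) = sl dL dR u := by
    unfold sl
    have : (0 : ℤ) ≤ ⌊sc n * u⌋ ↔ 0 ≤ u := by
      rw [Int.floor_nonneg]
      exact mul_nonneg_iff_of_pos_left hsc
    simp only [this]
  rw [e1]
  have e2 : wsum (fun i => z i - 2) ⌊sc n * u⌋ / rt n = bn z n u := rfl
  rw [e2]
  ring

theorem grid_coef (dL dR u : ℝ) :
    Tendsto (fun n : ℕ => 1 / (2 * ra (sl dL dR u) n)) atTop (𝓝 1) ∧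
    Tendsto (fun n : ℕ => sl dL dR u * (⌊sc n * u⌋ / sc n) / (2 * ra (sl dL dR u) n)) atTop
      (𝓝 (dr dL dR u)) := by
  have h1 : Tendsto (fun n : ℕ => 2 * ra (sl dL dR u) n) atTop (𝓝 1) := by
    have := (tendsto_ra (sl dL dR u)).const_mul 2
    simpa using this
  refine ⟨?_, ?_⟩
  · simpa using h1.inv₀ one_ne_zero
  · have h2 := ((tendsto_floor u).const_mul (sl dL dR u)).div h1 one_ne_zero
    rw [sl_mul, div_one] at h2
    exact h2

/-- convergence of the scaled exits at finitely many points: `joint_fdd`, `slutsky` with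
`ex = Sn + e_n * bn + δ_n`, `e_n = 1 / (2 ra d n) → 1`, `δ_n = d (⌊sc n u⌋ / sc n) / (2 ra d n)`
(`ex_eq`, `hn_eq`, `bn_floor`, `Sn_floor`), `d = dR` if `0 ≤ u`, `dL` otherwise -/
theorem grid_limit {w : ℕ → Ω₁ → ℤ → ℕ → ℝ} (hw : ∀ n, IsExpWeights Q₁ (w n))
    {S : Ω₁ → ℝ × ℝ → ℝ} (hS : ∀ p, Measurable fun ω => S ω p)
    (hlim : ∀ R : ℝ, ∀ ε : ℝ, 0 < ε → Tendsto (fun n : ℕ => Q₁ {ω | ∃ p : ℝ × ℝ, |p.1| ≤ R ∧
      |p.2| ≤ R ∧ ε ≤ |Sn (w n ω) n p - S ω p|}) atTop (𝓝 0))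
    (hz : IsWalk Q₂ z) (hb : IsBM Pb b) (dL dR y : ℝ) {m : ℕ} (u : Fin m → ℝ)
    {F : (Fin m → ℝ) → ℝ} (hF : Continuous F) (hFb : ∃ C, ∀ x, |F x| ≤ C) :
    Tendsto (fun n : ℕ => ∫ q, F (fun i => ex (w n q.1) (z q.2) dL dR y n ⌊sc n * u i⌋)
      ∂(Q₁.prod Q₂)) atTop
      (𝓝 (∫ q, F (fun i => S q.1 (u i, y) + b q.2 (u i) + dr dL dR (u i)) ∂(Q₁.prod Pb))) := by
  obtain ⟨C, hC⟩ := hFb
  have h0 := fun (G : (Fin m → ℝ) × (Fin m → ℝ) → ℝ) (hG : Continuous G)
    (hGb : ∃ C, ∀ v, |G v| ≤ C) => joint_fdd hw hS hlim hz hb (fun i => (u i, y)) u hG hGb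
  have hθ : Tendsto (fun n : ℕ => ((fun i : Fin m => 1 / (2 * ra (sl dL dR (u i)) n)),
      (fun i : Fin m => sl dL dR (u i) * (⌊sc n * u i⌋ / sc n) / (2 * ra (sl dL dR (u i)) n))))
      atTop (𝓝 ((fun _ => (1 : ℝ)), (fun i => dr dL dR (u i)))) := by
    refine Tendsto.prodMk_nhds ?_ ?_
    · rw [tendsto_pi_nhds]
      exact fun i => (grid_coef dL dR (u i)).1
    · rw [tendsto_pi_nhds]
      exact fun i => (grid_coef dL dR (u i)).2
  have hX : ∀ n, Measurable (fun q : Ω₁ × Ω₂ => ((fun i : Fin m => Sn (w n q.1) n (u i, y)),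
      (fun i : Fin m => bn (z q.2) n (u i)))) := by
    intro n
    refine Measurable.prodMk ?_ ?_
    · exact measurable_pi_lambda _ fun i => (measurable_Sn (hw n) n (u i, y)).comp measurable_fst
    · exact measurable_pi_lambda _ fun i => (measurable_bn hz n (u i)).comp measurable_snd
  have hZ : Measurable (fun q : Ω₁ × Ωb => ((fun i : Fin m => S q.1 (u i, y)),
      (fun i : Fin m => b q.2 (u i)))) := by
    refine Measurable.prodMk ?_ ?_
    · exact measurable_pi_lambda _ fun i => (hS (u i, y)).comp measurable_fst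
    · exact measurable_pi_lambda _ fun i => (hb.meas (u i)).comp measurable_snd
  have h1 := slutsky (E := (Fin m → ℝ) × (Fin m → ℝ)) (E' := (Fin m → ℝ) × (Fin m → ℝ)) hX hZ h0
    hθ (G := fun p => F (fun i => p.1.1 i + p.2.1 i * p.1.2 i + p.2.2 i)) (by fun_prop)
    ⟨C, fun v => hC _⟩
  have h3 : (fun q : Ω₁ × Ωb => F (fun i => S q.1 (u i, y) + b q.2 (u i) + dr dL dR (u i))) =
      fun q => F (fun i => S q.1 (u i, y) + 1 * b q.2 (u i) + dr dL dR (u i)) := by
    simp only [one_mul]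
  rw [h3]
  refine h1.congr' ?_
  filter_upwards [ex_grid dL dR y] with n hn
  refine integral_congr_ae (Eventually.of_forall fun q => ?_)
  simp only [hn]

end Pool.Agent.H15.DL
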