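import Pool.Agent.H15.DL.Base
import Pool.Agent.H45.DL.ExpM

/-! # PK2b: exponential moments of the walk, a Markov inequality, shifts -/

open MeasureTheory ProbabilityTheory Filter Topology Set
open scoped ENNReal

namespace Pool.Agent.H15.DL

open Pool.Agent.H37.DL

theorem walk_nonneg {Ω : Type*} [MeasurableSpace Ω] {Q : Measure Ω} [IsProbabilityMeasure Q]
    {z : Ω → ℤ → ℝ} (hz : IsWalk Q z) : ∀ᵐ ω ∂Q, ∀ i, 0 ≤ z ω i := by
  rw [ae_all_iff]
  intro i
  have h := Pool.Agent.H45.DL.exp_pos_ae (r := 1 / 2) (by norm_num)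
  rw [← hz.law i] at h
  have h2 := ae_of_ae_map (hz.meas i).aemeasurable h
  filter_upwards [h2] with ω hω
  exact hω.le

theorem walk_mgf {Ω : Type*} [MeasurableSpace Ω] {Q : Measure Ω} [IsProbabilityMeasure Q]
    {z : Ω → ℤ → ℝ} (hz : IsWalk Q z) (s : Finset ℤ) {t : ℝ} (ht : t < 1 / 2) :
    ∫⁻ ω, ENNReal.ofReal (Real.exp (t * ∑ i ∈ s, z ω i)) ∂Q =
      ENNReal.ofReal ((1 / (1 - 2 * t)) ^ s.card) := by
  have hm : Measurable fun x : ℝ => ENNReal.ofReal (Real.exp (t * x)) := by fun_prop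
  have h1 : ∀ ω, ENNReal.ofReal (Real.exp (t * ∑ i ∈ s, z ω i)) =
      ∏ i ∈ s, ENNReal.ofReal (Real.exp (t * z ω i)) := by
    intro ω
    rw [Finset.mul_sum, Real.exp_sum, ENNReal.ofReal_prod_of_nonneg]
    intro i _
    exact (Real.exp_pos _).le
  have hind : iIndepFun (fun (i : ℤ) ω => ENNReal.ofReal (Real.exp (t * z ω i))) Q :=
    hz.indep.comp (fun _ x => ENNReal.ofReal (Real.exp (t * x))) fun _ => hm
  rw [lintegral_congr h1, lintegral_prod_eq_prod_lintegral_of_indepFun s _ hind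
    fun i => hm.comp (hz.meas i)]
  have h2 : ∀ i ∈ s, ∫⁻ ω, ENNReal.ofReal (Real.exp (t * z ω i)) ∂Q =
      ENNReal.ofReal (1 / (1 - 2 * t)) := by
    intro i _
    rw [← lintegral_map (μ := Q) (g := fun ω => z ω i) hm (hz.meas i), hz.law i,
      Pool.Agent.H45.DL.exp_mgf (by norm_num) ht]
    congr 1
    have : (1 : ℝ) / 2 - t ≠ 0 := by linarith
    have : (1 : ℝ) - 2 * t ≠ 0 := by linarith
    field_simp
  rw [Finset.prod_congr rfl h2, Finset.prod_const, ENNReal.ofReal_pow]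
  have : 0 < 1 - 2 * t := by linarith
  positivity

theorem weights_shift {Ω : Type*} [MeasurableSpace Ω] {P : Measure Ω} [IsProbabilityMeasure P]
    {w : Ω → ℤ → ℕ → ℝ} (hw : IsExpWeights P w) (s : ℤ) :
    IsExpWeights P fun ω i l => w ω (i + s) l := by
  refine ⟨fun i j => hw.meas (i + s) j, fun i j => hw.law (i + s) j, ?_⟩
  refine hw.indep.precomp (g := fun q : ℤ × ℕ => (q.1 + s, q.2)) ?_
  intro a b h
  simp only [Prod.mk.injEq, add_left_inj] at h
  exact Prod.ext h.1 h.2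

/-- Markov and Cauchy-Schwarz (in the form `1 ≤ (exp (f - α + c) + exp (g - β + c)) / 2` when
`r ≤ f + g`, `c = (α + β - r) / 2`) -/
theorem markov2 {Ω : Type*} [MeasurableSpace Ω] {μ : Measure Ω} {f g : Ω → ℝ}
    (hf : Measurable f) (hg : Measurable g) {α β r : ℝ}
    (h1 : ∫⁻ ω, ENNReal.ofReal (Real.exp (f ω)) ∂μ ≤ ENNReal.ofReal (Real.exp α))
    (h2 : ∫⁻ ω, ENNReal.ofReal (Real.exp (g ω)) ∂μ ≤ ENNReal.ofReal (Real.exp β)) :
    μ {ω | r ≤ f ω + g ω} ≤ ENNReal.ofReal (Real.exp ((α + β - r) / 2)) := by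
  set c := (α + β - r) / 2 with hc
  have hmeas : MeasurableSet {ω | r ≤ f ω + g ω} := measurableSet_le measurable_const (hf.add hg)
  have key : ∀ ω, ({ω | r ≤ f ω + g ω}.indicator 1 ω : ℝ≥0∞) ≤
      ENNReal.ofReal (Real.exp (c - α) / 2) * ENNReal.ofReal (Real.exp (f ω)) +
        ENNReal.ofReal (Real.exp (c - β) / 2) * ENNReal.ofReal (Real.exp (g ω)) := by
    intro ω
    by_cases h : ω ∈ {ω | r ≤ f ω + g ω}
    · rw [Set.indicator_of_mem h, ← ENNReal.ofReal_mul (by positivity),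
        ← ENNReal.ofReal_mul (by positivity), ← ENNReal.ofReal_add (by positivity) (by positivity),
        Pi.one_apply, ← ENNReal.ofReal_one]
      apply ENNReal.ofReal_le_ofReal
      have e1 : Real.exp (c - α) / 2 * Real.exp (f ω) = Real.exp (f ω - α + c) / 2 := by
        rw [div_mul_eq_mul_div, ← Real.exp_add]; congr 2; ring
      have e2 : Real.exp (c - β) / 2 * Real.exp (g ω) = Real.exp (g ω - β + c) / 2 := by
        rw [div_mul_eq_mul_div, ← Real.exp_add]; congr 2; ring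
      rw [e1, e2]
      have h3 := Real.add_one_le_exp (f ω - α + c)
      have h4 := Real.add_one_le_exp (g ω - β + c)
      have h5 : r ≤ f ω + g ω := h
      linarith
    · rw [Set.indicator_of_notMem h]
      exact zero_le
  calc μ {ω | r ≤ f ω + g ω} = ∫⁻ ω, {ω | r ≤ f ω + g ω}.indicator 1 ω ∂μ := by
        rw [lintegral_indicator_one hmeas]
    _ ≤ ∫⁻ ω, (ENNReal.ofReal (Real.exp (c - α) / 2) * ENNReal.ofReal (Real.exp (f ω)) +
        ENNReal.ofReal (Real.exp (c - β) / 2) * ENNReal.ofReal (Real.exp (g ω))) ∂μ :=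
        lintegral_mono key
    _ = ENNReal.ofReal (Real.exp (c - α) / 2) * ∫⁻ ω, ENNReal.ofReal (Real.exp (f ω)) ∂μ +
        ENNReal.ofReal (Real.exp (c - β) / 2) * ∫⁻ ω, ENNReal.ofReal (Real.exp (g ω)) ∂μ := by
        rw [lintegral_add_left (by fun_prop), lintegral_const_mul _ (by fun_prop),
          lintegral_const_mul _ (by fun_prop)]
    _ ≤ ENNReal.ofReal (Real.exp (c - α) / 2) * ENNReal.ofReal (Real.exp α) +
        ENNReal.ofReal (Real.exp (c - β) / 2) * ENNReal.ofReal (Real.exp β) := by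
        gcongr
    _ = ENNReal.ofReal (Real.exp c) := by
        rw [← ENNReal.ofReal_mul (by positivity), ← ENNReal.ofReal_mul (by positivity),
          ← ENNReal.ofReal_add (by positivity) (by positivity)]
        congr 1
        rw [div_mul_eq_mul_div, ← Real.exp_add, div_mul_eq_mul_div, ← Real.exp_add]
        have e1 : c - α + α = c := by ring
        have e2 : c - β + β = c := by ring
        rw [e1, e2]
        ring

end Pool.Agent.H15.DL
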