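import Pool.Agent.H15.DL.Asym
import Pool.Agent.H15.DL.Exit
import Pool.Agent.H15.DL.Mgf

/-! # PK2b: the exact identity in terms of `expo` -/

open MeasureTheory ProbabilityTheory Filter Topology Set
open scoped ENNReal

namespace Pool.Agent.H15.DL

open Pool.Agent.H37.DL

variable {Ω₁ Ω₂ Ω₃ : Type*} [MeasurableSpace Ω₁] [MeasurableSpace Ω₂] [MeasurableSpace Ω₃]
  {Q₁ : Measure Ω₁} {Q₂ : Measure Ω₂} {Q₃ : Measure Ω₃} [IsProbabilityMeasure Q₁]
  [IsProbabilityMeasure Q₂] [IsProbabilityMeasure Q₃] {z : Ω₂ → ℤ → ℝ} {v : Ω₃ → ℤ → ℝ}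

/-- the exact identity, in terms of `expo` -/
theorem HH_expo {w : Ω₁ → ℤ → ℕ → ℝ} (hw : IsExpWeights Q₁ w) (hz : IsWalk Q₂ z)
    (hv : IsWalk Q₃ v) {al be : ℝ} (ha0 : 0 < al) (ha1 : al < 1) (hb0 : 0 < be) (hb1 : be < 1)
    (N c n : ℕ) :
    ∫⁻ q, ENNReal.ofReal (Real.exp ((al - be) *
        (HH (w q.1) (z q.2.1) (v q.2.2) al be N c n - 2 * n - 2 * c))) ∂(Q₁.prod (Q₂.prod Q₃)) =
      ENNReal.ofReal (Real.exp (expo al be c n)) := by
  have h1 : ∀ q : Ω₁ × Ω₂ × Ω₃, ENNReal.ofReal (Real.exp ((al - be) *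
        (HH (w q.1) (z q.2.1) (v q.2.2) al be N c n - 2 * n - 2 * c))) =
      ENNReal.ofReal (Real.exp ((al - be) * HH (w q.1) (z q.2.1) (v q.2.2) al be N c n)) *
        ENNReal.ofReal (Real.exp (-((al - be) * (2 * n + 2 * c)))) := by
    intro q
    rw [← ENNReal.ofReal_mul (Real.exp_pos _).le, ← Real.exp_add]
    congr 2; ring
  rw [lintegral_congr h1, lintegral_mul_const' _ _ ENNReal.ofReal_ne_top,
    HH_identity hw hz hv ha0 ha1 hb0 hb1 N c n, ← ENNReal.ofReal_mul (by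
      have : 0 < 1 - al := by linarith
      have : 0 < 1 - be := by linarith
      positivity)]
  congr 1
  have h2 : 0 < al / be := by positivity
  have h3 : 0 < (1 - be) / (1 - al) := div_pos (by linarith) (by linarith)
  unfold expo
  have e1 : Real.exp ((c : ℝ) * Real.log (al / be)) = (al / be) ^ c := by
    rw [mul_comm, ← Real.rpow_def_of_pos h2, Real.rpow_natCast]
  have e2 : Real.exp ((n : ℝ) * Real.log ((1 - be) / (1 - al))) = ((1 - be) / (1 - al)) ^ n := by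
    rw [mul_comm, ← Real.rpow_def_of_pos h3, Real.rpow_natCast]
  rw [Real.exp_sub, Real.exp_add, e1, e2, Real.exp_neg, ← div_eq_mul_inv]

end Pool.Agent.H15.DL
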