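import Pool.Agent.H37.DL.Walk

/-! # PK2b: transfer between the coupling space and an arbitrary realisation of the sheet -/

open MeasureTheory ProbabilityTheory Filter Topology Set
open scoped ENNReal

namespace Pool.Agent.H15.DL

open Pool.Agent.H37.DL

theorem law_transfer {Ω₁ Ω Ωb : Type*} [MeasurableSpace Ω₁] [MeasurableSpace Ω]
    [MeasurableSpace Ωb] {Q₁ : Measure Ω₁} [IsProbabilityMeasure Q₁] {P : Measure Ω}
    [IsProbabilityMeasure P] {Pb : Measure Ωb} [IsProbabilityMeasure Pb]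
    {S' : Ω₁ → ℝ × ℝ → ℝ} {S : Ω → ℝ × ℝ → ℝ} (hS' : ∀ p, Measurable fun ω => S' ω p)
    (hS : ∀ p, Measurable fun ω => S ω p) (heq : Q₁.map S' = P.map S)
    {G : (ℝ × ℝ → ℝ) × Ωb → ℝ≥0∞} (hG : Measurable G) :
    ∫⁻ q, G (S' q.1, q.2) ∂(Q₁.prod Pb) = ∫⁻ q, G (S q.1, q.2) ∂(P.prod Pb) := by
  have mS' : Measurable S' := measurable_pi_iff.mpr hS'
  have mS : Measurable S := measurable_pi_iff.mpr hS
  have h1 := Measure.map_prod_map Q₁ Pb mS' measurable_id
  have h2 := Measure.map_prod_map P Pb mS measurable_id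
  rw [heq, h2] at h1
  have h3 := lintegral_map (μ := Q₁.prod Pb) hG (mS'.prodMap measurable_id)
  have h4 := lintegral_map (μ := P.prod Pb) hG (mS.prodMap measurable_id)
  rw [← h1] at h3
  exact h3.symm.trans h4

end Pool.Agent.H15.DL
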