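import Pool.Agent.H15.DL.NegTrunc
import Pool.Agent.H15.DL.Law

/-! # PK2b: the exponential identity for the sheet, negative exponent (3.3) -/

open MeasureTheory ProbabilityTheory Filter Topology Set
open scoped ENNReal

namespace Pool.Agent.H15.DL

open Pool.Agent.H37.DL

variable {Ω : Type*} [MeasurableSpace Ω] {P : Measure Ω} [IsProbabilityMeasure P]
  {S : Ω → ℝ × ℝ → ℝ} {Ωb : Type*} [MeasurableSpace Ωb] {Pb : Measure Ωb}
  [IsProbabilityMeasure Pb] {b : Ωb → ℝ → ℝ}

/-- (3.3), `dL < dR`: from `neg_trunc`: the infimum over the rationals is smaller; `δ → 0`,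
`ε → 0`, `M → ∞` (monotone convergence) -/
theorem neg (hS : IsAirySheet P S) (hb : IsBM Pb b) {dL dR : ℝ} (y : ℝ) (h : dL < dR) :
    ∫⁻ q, ⨅ u : ℚ, ENNReal.ofReal (Real.exp ((dL - dR) / 2 *
        (S q.1 ((u : ℝ), y) + b q.2 (u : ℝ) + dr dL dR (u : ℝ)))) ∂(P.prod Pb) ≤
      ENNReal.ofReal (Real.exp (expL dL dR y)) := by
  obtain ⟨Ω', _, Q, S', w, hQ, hw, hm', hc', heq, hlim⟩ := hS.limit
  set G : (ℝ × ℝ → ℝ) × Ωb → ℝ≥0∞ := fun q => ⨅ u : ℚ, ENNReal.ofReal (Real.exp ((dL - dR) / 2 *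
        (q.1 ((u : ℝ), y) + b q.2 (u : ℝ) + dr dL dR (u : ℝ)))) with hG
  have hGm : Measurable G := by
    refine Measurable.iInf fun u => ?_
    have h1 : Measurable fun q : (ℝ × ℝ → ℝ) × Ωb => q.1 ((u : ℝ), y) :=
      (measurable_pi_apply _).comp measurable_fst
    have h2 : Measurable fun q : (ℝ × ℝ → ℝ) × Ωb => b q.2 (u : ℝ) :=
      (hb.meas _).comp measurable_snd
    exact (Real.measurable_exp.comp (((h1.add h2).add_const _).const_mul _)).ennreal_ofReal
  have htr := law_transfer (Pb := Pb) hm' hS.meas heq hGm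
  change ∫⁻ q, G (S q.1, q.2) ∂(P.prod Pb) ≤ _
  rw [← htr]
  set θ := (dR - dL) / 2 with hθ
  have hθ0 : 0 < θ := by rw [hθ]; linarith
  have hneg : (dL - dR) / 2 = -θ := by rw [hθ]; ring
  have hS'm : Measurable fun q : Ω' × Ωb => (S' q.1, q.2) := by
    refine Measurable.prodMk ?_ measurable_snd
    exact measurable_pi_lambda _ fun p => (hm' p).comp measurable_fst
  have hGS : Measurable fun q : Ω' × Ωb => G (S' q.1, q.2) := hGm.comp hS'm
  -- the bound for fixed `M`, `ε`
  have hfix : ∀ M ε : ℝ, 0 < M → 0 < ε →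
      ∫⁻ q, min (ENNReal.ofReal (Real.exp (θ * M)))
        (ENNReal.ofReal (Real.exp (-(θ * ε))) * G (S' q.1, q.2)) ∂(Q.prod Pb) ≤
      ENNReal.ofReal (Real.exp (expL dL dR y)) := by
    intro M ε hM hε
    refine ENNReal.le_of_forall_pos_le_add fun δ hδ _ => ?_
    obtain ⟨K, m, hm, hle⟩ := neg_trunc hw hm' hc' hlim hb y h hM hε (δ := (δ : ℝ)) (by
      exact_mod_cast hδ)
    rw [ENNReal.ofReal_coe_nnreal] at hle
    refine le_trans (lintegral_mono fun q => ?_) hle
    refine min_le_min le_rfl ?_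
    refine le_iInf fun i => ?_
    have h1 : G (S' q.1, q.2) ≤ ENNReal.ofReal (Real.exp ((dL - dR) / 2 *
        (S' q.1 (((i : ℤ) : ℝ) / m, y) + b q.2 (((i : ℤ) : ℝ) / m) +
          dr dL dR (((i : ℤ) : ℝ) / m)))) := by
      have h2 := iInf_le (fun u : ℚ => ENNReal.ofReal (Real.exp ((dL - dR) / 2 *
        (S' q.1 ((u : ℝ), y) + b q.2 (u : ℝ) + dr dL dR (u : ℝ))))) (((i : ℤ) : ℚ) / (m : ℚ))
      push_cast at h2
      exact h2
    calc ENNReal.ofReal (Real.exp (-(θ * ε))) * G (S' q.1, q.2)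
        ≤ ENNReal.ofReal (Real.exp (-(θ * ε))) * ENNReal.ofReal (Real.exp ((dL - dR) / 2 *
        (S' q.1 (((i : ℤ) : ℝ) / m, y) + b q.2 (((i : ℤ) : ℝ) / m) +
          dr dL dR (((i : ℤ) : ℝ) / m)))) := by gcongr
      _ = _ := by
        rw [← ENNReal.ofReal_mul (Real.exp_pos _).le, ← Real.exp_add]
        congr 2
        rw [hneg]
        ring
  -- monotone convergence
  set F : ℕ → Ω' × Ωb → ℝ≥0∞ := fun n q => min (ENNReal.ofReal (Real.exp (θ * ((n : ℝ) + 1))))
        (ENNReal.ofReal (Real.exp (-(θ * (1 / ((n : ℝ) + 1))))) * G (S' q.1, q.2)) with hF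
  have hFm : ∀ n, Measurable (F n) := by
    intro n
    exact measurable_const.min (hGS.const_mul _)
  have hmono : Monotone F := by
    intro n k hnk q
    have hnk' : (n : ℝ) ≤ k := by exact_mod_cast hnk
    refine min_le_min ?_ ?_
    · gcongr
    · gcongr
  have hsup : ∀ q, ⨆ n, F n q = G (S' q.1, q.2) := by
    intro q
    refine le_antisymm (iSup_le fun n => ?_) ?_
    · refine (min_le_right _ _).trans ?_
      calc ENNReal.ofReal (Real.exp (-(θ * (1 / ((n : ℝ) + 1))))) * G (S' q.1, q.2)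
          ≤ 1 * G (S' q.1, q.2) := by
            gcongr
            rw [← ENNReal.ofReal_one]
            apply ENNReal.ofReal_le_ofReal
            rw [Real.exp_le_one_iff]
            have : 0 < θ * (1 / ((n : ℝ) + 1)) := by positivity
            linarith
        _ = G (S' q.1, q.2) := one_mul _
    · have ht1 : Tendsto (fun n : ℕ => ENNReal.ofReal (Real.exp (-(θ * (1 / ((n : ℝ) + 1))))) *
          G (S' q.1, q.2)) atTop (𝓝 (G (S' q.1, q.2))) := by
        have h1 : Tendsto (fun n : ℕ => ENNReal.ofReal (Real.exp (-(θ * (1 / ((n : ℝ) + 1))))))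
            atTop (𝓝 1) := by
          have h2 : Tendsto (fun n : ℕ => -(θ * (1 / ((n : ℝ) + 1)))) atTop (𝓝 0) := by
            have h3 := (tendsto_one_div_add_atTop_nhds_zero_nat (𝕜 := ℝ)).const_mul θ
            simpa using h3.neg
          have h4 := (Real.continuous_exp.tendsto 0).comp h2
          have h5 := (ENNReal.continuous_ofReal.tendsto _).comp h4
          rw [Real.exp_zero, ENNReal.ofReal_one] at h5
          exact h5
        have h6 := ENNReal.Tendsto.mul_const (b := G (S' q.1, q.2)) h1 (Or.inl one_ne_zero)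
        simpa using h6
      have ht2 : Tendsto (fun n : ℕ => ENNReal.ofReal (Real.exp (θ * ((n : ℝ) + 1)))) atTop
          (𝓝 ⊤) := by
        refine ENNReal.tendsto_ofReal_atTop.comp (Real.tendsto_exp_atTop.comp ?_)
        exact ((tendsto_natCast_atTop_atTop (R := ℝ)).atTop_add tendsto_const_nhds).const_mul_atTop
          hθ0
      have ht3 := ht2.min ht1
      rw [min_eq_right le_top] at ht3
      exact le_of_tendsto ht3 (Eventually.of_forall fun n => le_iSup (fun n => F n q) n)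
  have h1 : ∫⁻ q, G (S' q.1, q.2) ∂(Q.prod Pb) = ⨆ n, ∫⁻ q, F n q ∂(Q.prod Pb) := by
    rw [← lintegral_iSup hFm hmono]
    exact lintegral_congr fun q => (hsup q).symm
  rw [h1]
  refine iSup_le fun n => ?_
  exact hfix ((n : ℝ) + 1) (1 / ((n : ℝ) + 1)) (by positivity) (by positivity)

end Pool.Agent.H15.DL
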