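import Pool.Agent.H15.DL.Exit

/-! # PK2b: the passage time with boundary on the good event -/

open MeasureTheory ProbabilityTheory Filter Topology Set
open scoped ENNReal

namespace Pool.Agent.H15.DL

open Pool.Agent.H37.DL

/-- on the good event the passage time with boundary is at most the maximum over the grid
(`HH_attained`) -/
theorem cs_HH_le {w : ℤ → ℕ → ℝ} {z v : ℤ → ℝ} {dL dR y M ε : ℝ} {n K m : ℕ} (hn : 1 ≤ n)
    (h1 : ∀ a : ℤ, K * sc n ≤ a → a ≤ (cn y n : ℤ) → ex w z dL dR y n a < -M)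
    (h2 : ∀ a : ℤ, -(n : ℤ) < a → (a : ℝ) ≤ -(K * sc n) → ex w z dL dR y n a < -M)
    (h3 : ∀ j < n, cs y n (leftExit w z v (ra dL n) n (cn y n) n j) < -M)
    (h4 : ∀ a : ℤ, |(a : ℝ)| ≤ K * sc n → ∃ i : ℤ, |i| ≤ K * m ∧
      ex w z dL dR y n a ≤ ex w z dL dR y n ⌊sc n * ((i : ℝ) / m)⌋ + ε) :
    cs y n (HH w z v (ra dR n) (ra dL n) n (cn y n) n) ≤ -M ∨ ∃ i : ℤ, |i| ≤ K * m ∧
      cs y n (HH w z v (ra dR n) (ra dL n) n (cn y n) n) ≤
        ex w z dL dR y n ⌊sc n * ((i : ℝ) / m)⌋ + ε := by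
  rcases HH_attained w z v (ra dR n) (ra dL n) (N := n) (c := cn y n) hn (by omega) with
    ⟨a, ha1, ha2, hH⟩ | ⟨j, hj, hH⟩
  · rw [hH]
    by_cases hr : K * sc n ≤ (a : ℝ)
    · exact Or.inl (h1 a hr ha2).le
    · by_cases hl : (a : ℝ) ≤ -(K * sc n)
      · exact Or.inl (h2 a ha1 hl).le
      · refine Or.inr ?_
        have habs : |(a : ℝ)| ≤ K * sc n := abs_le.2 ⟨(not_le.1 hl).le, (not_le.1 hr).le⟩
        exact h4 a habs
  · rw [hH]
    exact Or.inl (h3 j hj).le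

end Pool.Agent.H15.DL
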