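import Pool.Agent.H15.DL.Neg

/-! # PK2b: (3.4), negative exponent -/

open MeasureTheory ProbabilityTheory Filter Topology Set
open scoped ENNReal

namespace Pool.Agent.H15.DL

open Pool.Agent.H37.DL

variable {Ω : Type*} [MeasurableSpace Ω] {P : Measure Ω} [IsProbabilityMeasure P]
  {S : Ω → ℝ × ℝ → ℝ} {Ωb : Type*} [MeasurableSpace Ωb] {Pb : Measure Ωb}
  [IsProbabilityMeasure Pb] {b : Ωb → ℝ → ℝ}

/-- (3.4), negative exponent: `neg` for the sheet `S (x - p.2, x - p.1)` at `y = x`, with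
`dR = -2 x + p`, `dL = -2 x - p` -/
theorem neg_par {x : ℝ} (hsym : IsAirySheet P fun ω p => S ω (x - p.2, x - p.1))
    (hb : IsBM Pb b) {p : ℝ} (hp : 0 < p) :
    ∫⁻ q, ⨅ u : ℚ, ENNReal.ofReal (Real.exp (-(p * (S q.1 (0, x - (u : ℝ)) + (x - (u : ℝ)) ^ 2
        - (u : ℝ) ^ 2 + b q.2 (u : ℝ) + p * |(u : ℝ)|)))) ∂(P.prod Pb) ≤
      ENNReal.ofReal (Real.exp (-(p ^ 3 / 12))) := by
  have h := neg hsym hb (dL := -2 * x - p) (dR := -2 * x + p) x (by linarith)
  have hexp : expL (-2 * x - p) (-2 * x + p) x = p * x ^ 2 + -(p ^ 3 / 12) := by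
    unfold expL; ring
  have hint : ∀ q : Ω × Ωb, (⨅ u : ℚ, ENNReal.ofReal (Real.exp ((-2 * x - p - (-2 * x + p)) / 2 *
        ((fun ω p => S ω (x - p.2, x - p.1)) q.1 ((u : ℝ), x) + b q.2 (u : ℝ) +
          dr (-2 * x - p) (-2 * x + p) (u : ℝ))))) =
      ENNReal.ofReal (Real.exp (p * x ^ 2)) *
      ⨅ u : ℚ, ENNReal.ofReal (Real.exp (-(p * (S q.1 (0, x - (u : ℝ)) + (x - (u : ℝ)) ^ 2
        - (u : ℝ) ^ 2 + b q.2 (u : ℝ) + p * |(u : ℝ)|)))) := by
    intro q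
    rw [ENNReal.mul_iInf_of_ne (by simp [Real.exp_pos]) ENNReal.ofReal_ne_top]
    refine iInf_congr fun u => ?_
    rw [← ENNReal.ofReal_mul (Real.exp_pos _).le, ← Real.exp_add]
    congr 2
    have hdr : dr (-2 * x - p) (-2 * x + p) (u : ℝ) = -2 * x * u + p * |(u : ℝ)| := by
      unfold dr
      rcases le_total 0 (u : ℝ) with hu | hu
      · rw [max_eq_left hu, max_eq_right (by linarith), abs_of_nonneg hu]; ring
      · rw [max_eq_right hu, max_eq_left (by linarith), abs_of_nonpos hu]; ring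
    rw [hdr]
    simp only [sub_self]
    ring
  simp_rw [hint] at h
  rw [lintegral_const_mul' _ _ ENNReal.ofReal_ne_top, hexp, Real.exp_add,
    ENNReal.ofReal_mul (Real.exp_pos _).le] at h
  exact (ENNReal.mul_le_mul_iff_right (by simp [Real.exp_pos]) ENNReal.ofReal_ne_top).1 h

end Pool.Agent.H15.DL
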