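import Pool.Agent.H15.DL.Grid

/-! # PK2b: comparison of the exits in a window with those on a finite grid -/

open MeasureTheory ProbabilityTheory Filter Topology Set
open scoped ENNReal

namespace Pool.Agent.H15.DL

open Pool.Agent.H37.DL

/-- modulus of continuity of a random continuous function, in probability (continuity from above
for the events restricted to rational points, uniform continuity on compacts) -/
theorem modulus {Ω : Type*} [MeasurableSpace Ω] {Q : Measure Ω} [IsProbabilityMeasure Q]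
    {f : Ω → ℝ → ℝ} (hf : ∀ x, Measurable fun ω => f ω x) (hc : ∀ ω, Continuous (f ω)) (K : ℝ)
    {ε δ : ℝ} (hε : 0 < ε) (hδ : 0 < δ) : ∃ η : ℝ, 0 < η ∧
      Q {ω | ∃ x y : ℝ, |x| ≤ K ∧ |y| ≤ K ∧ |x - y| ≤ η ∧ ε ≤ |f ω x - f ω y|} ≤
        ENNReal.ofReal δ := by
  set A : ℕ → Set Ω := fun k => {ω | ∃ p : ℚ × ℚ, |(p.1 : ℝ)| < K + 1 ∧ |(p.2 : ℝ)| < K + 1 ∧
    |(p.1 : ℝ) - p.2| < 2 * (1 / ((k : ℝ) + 1)) ∧ ε / 2 < |f ω p.1 - f ω p.2|} with hA
  have hAm : ∀ k, MeasurableSet (A k) := by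
    intro k
    have : A k = ⋃ p : ℚ × ℚ, {ω | |(p.1 : ℝ)| < K + 1 ∧ |(p.2 : ℝ)| < K + 1 ∧
        |(p.1 : ℝ) - p.2| < 2 * (1 / ((k : ℝ) + 1)) ∧ ε / 2 < |f ω p.1 - f ω p.2|} := by
      ext ω; simp [hA]
    rw [this]
    refine MeasurableSet.iUnion fun p => ?_
    refine (MeasurableSet.const _).inter ((MeasurableSet.const _).inter
      ((MeasurableSet.const _).inter ?_))
    exact measurableSet_lt measurable_const
      ((hf p.1).sub (hf p.2)).abs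
  have hanti : Antitone A := by
    intro k l hkl ω ⟨p, h1, h2, h3, h4⟩
    refine ⟨p, h1, h2, lt_of_lt_of_le h3 ?_, h4⟩
    have : (1 : ℝ) / (l + 1) ≤ 1 / (k + 1) := by
      apply one_div_le_one_div_of_le (by positivity)
      have : (k : ℝ) ≤ l := by exact_mod_cast hkl
      linarith
    linarith
  have hempty : ⋂ k, A k = ∅ := by
    rw [eq_empty_iff_forall_notMem]
    intro ω hω
    rw [mem_iInter] at hω
    have huc : UniformContinuousOn (f ω) (Icc (-(K + 1)) (K + 1)) :=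
      isCompact_Icc.uniformContinuousOn_of_continuous (hc ω).continuousOn
    rw [Metric.uniformContinuousOn_iff] at huc
    obtain ⟨η, hη, hu⟩ := huc (ε / 2) (by positivity)
    obtain ⟨k, hk⟩ := exists_nat_one_div_lt (show (0 : ℝ) < η / 2 by positivity)
    obtain ⟨p, h1, h2, h3, h4⟩ := hω k
    have := hu p.1 ⟨by linarith [(abs_lt.1 h1).1], (abs_lt.1 h1).2.le⟩ p.2
      ⟨by linarith [(abs_lt.1 h2).1], (abs_lt.1 h2).2.le⟩ (by
        rw [Real.dist_eq]; linarith)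
    rw [Real.dist_eq] at this
    linarith
  have hlim : Tendsto (fun k => Q (A k)) atTop (𝓝 0) := by
    have := tendsto_measure_iInter_atTop (μ := Q) (fun k => (hAm k).nullMeasurableSet) hanti
      ⟨0, measure_ne_top _ _⟩
    rwa [hempty, measure_empty] at this
  obtain ⟨k, hk⟩ := (hlim.eventually_lt_const (show (0 : ℝ≥0∞) < ENNReal.ofReal δ by
    simpa using hδ)).exists
  refine ⟨1 / ((k : ℝ) + 1), by positivity, (measure_mono ?_).trans hk.le⟩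
  rintro ω ⟨x, y, hx, hy, hxy, hfxy⟩
  have hopen : IsOpen {p : ℝ × ℝ | |p.1| < K + 1 ∧ |p.2| < K + 1 ∧
      |p.1 - p.2| < 2 * (1 / ((k : ℝ) + 1)) ∧ ε / 2 < |f ω p.1 - f ω p.2|} := by
    have hcf := hc ω
    have e1 : IsOpen {p : ℝ × ℝ | |p.1| < K + 1} := isOpen_lt (by fun_prop) (by fun_prop)
    have e2 : IsOpen {p : ℝ × ℝ | |p.2| < K + 1} := isOpen_lt (by fun_prop) (by fun_prop)
    have e3 : IsOpen {p : ℝ × ℝ | |p.1 - p.2| < 2 * (1 / ((k : ℝ) + 1))} :=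
      isOpen_lt (by fun_prop) (by fun_prop)
    have e4 : IsOpen {p : ℝ × ℝ | ε / 2 < |f ω p.1 - f ω p.2|} :=
      isOpen_lt (by fun_prop) (by fun_prop)
    exact e1.inter (e2.inter (e3.inter e4))
  have hd : DenseRange (fun p : ℚ × ℚ => ((p.1 : ℝ), (p.2 : ℝ))) :=
    Rat.isDenseEmbedding_coe_real.dense.prodMap Rat.isDenseEmbedding_coe_real.dense
  have hpos : (0 : ℝ) < 1 / ((k : ℝ) + 1) := by positivity
  obtain ⟨p, hp⟩ := hd.exists_mem_open hopen ⟨(x, y), by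
    refine ⟨by show |x| < K + 1; linarith, by show |y| < K + 1; linarith, by
      show |x - y| < _; linarith, by show ε / 2 < |f ω x - f ω y|; linarith⟩⟩
  exact ⟨p, hp⟩

variable {Ω₁ Ω₂ : Type*} [MeasurableSpace Ω₁] [MeasurableSpace Ω₂]
  {Q₁ : Measure Ω₁} {Q₂ : Measure Ω₂} [IsProbabilityMeasure Q₁]
  [IsProbabilityMeasure Q₂] {z : Ω₂ → ℤ → ℝ}

/-- the deterministic comparison -/
theorem window_cmp (dL dR y : ℝ) (K m : ℕ) (hm : 0 < m) {ε : ℝ} (hε : 0 < ε)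
    (hmD : (|dL| + |dR|) / m ≤ ε / 8) : ∀ᶠ n : ℕ in atTop,
    ∀ (w : ℤ → ℕ → ℝ) (z : ℤ → ℝ) (S : ℝ × ℝ → ℝ),
      (∀ p : ℝ × ℝ, |p.1| ≤ max (K : ℝ) |y| → |p.2| ≤ max (K : ℝ) |y| →
        |Sn w n p - S p| < ε / 8) →
      (∀ u u' : ℝ, |u| ≤ K → |u'| ≤ K → |u - u'| ≤ 1 / m → |S (u, y) - S (u', y)| < ε / 8) →
      (∀ u u' : ℝ, |u| ≤ K → |u'| ≤ K → |u - u'| ≤ 1 / m → |bn z n u - bn z n u'| < ε / 8) →
      ∀ a : ℤ, |(a : ℝ)| ≤ K * sc n → ∃ i : ℤ, |i| ≤ K * m ∧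
        ex w z dL dR y n a ≤ ex w z dL dR y n ⌊sc n * ((i : ℝ) / m)⌋ + ε := by
  have hD : Tendsto (fun n : ℕ => (|dL| + |dR|) / sc n) atTop (𝓝 0) :=
    tendsto_sc.const_div_atTop _
  filter_upwards [ex_grid dL dR y, ra_mem dL, ra_mem dR, eventually_ge_atTop 1,
    hD.eventually_le_const (show (0 : ℝ) < ε / 8 by positivity)] with n hex hL hR hn hDn
  intro w z S h1 h2 h3 a ha
  have hsc := sc_pos hn
  have hm' : (0 : ℝ) < m := by exact_mod_cast hm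
  set u : ℝ := a / sc n with hu
  have hua : sc n * u = a := by rw [hu]; field_simp
  have hfa : ⌊sc n * u⌋ = a := by rw [hua]; exact Int.floor_intCast a
  have huK : |u| ≤ K := by
    rw [hu, abs_div, abs_of_pos hsc, div_le_iff₀ hsc]; exact ha
  set i : ℤ := ⌊(m : ℝ) * u⌋ with hi
  have hi1 : (i : ℝ) ≤ m * u := Int.floor_le _
  have hi2 : (m : ℝ) * u < i + 1 := Int.lt_floor_add_one _
  have hi0 : (0 : ℤ) ≤ i ↔ 0 ≤ u := by
    rw [hi, Int.floor_nonneg]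
    exact mul_nonneg_iff_of_pos_left hm'
  have hiK : |i| ≤ K * m := by
    rw [abs_le]
    constructor
    · rw [hi]
      apply Int.le_floor.2
      push_cast
      nlinarith [(abs_le.1 huK).1]
    · have : (i : ℝ) ≤ ((K * m : ℤ) : ℝ) := by
        push_cast
        nlinarith [(abs_le.1 huK).2]
      exact_mod_cast this
  set u' : ℝ := (i : ℝ) / m with hu'
  have hu'1 : u' ≤ u := by rw [hu', div_le_iff₀ hm']; linarith
  have hu'2 : u - u' ≤ 1 / m := by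
    rw [hu']
    rw [sub_le_iff_le_add, ← add_div, le_div_iff₀ hm']
    linarith
  have huu' : |u - u'| ≤ 1 / m := by
    rw [abs_of_nonneg (by linarith)]; exact hu'2
  have hu'K : |u'| ≤ K := by
    rw [hu', abs_div, abs_of_pos hm', div_le_iff₀ hm']
    have : |(i : ℝ)| = ((|i| : ℤ) : ℝ) := by simp
    rw [this]
    exact_mod_cast hiK
  refine ⟨i, hiK, ?_⟩
  have hsl : sl dL dR u' = sl dL dR u := by
    unfold sl
    have : 0 ≤ u' ↔ 0 ≤ u := by
      rw [← hi0, hu']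
      constructor
      · intro h
        by_contra h'
        push Not at h'
        have : (i : ℝ) < 0 := by exact_mod_cast h'
        have := div_neg_of_neg_of_pos this hm'
        linarith
      · intro h
        have : (0 : ℝ) ≤ i := by exact_mod_cast h
        positivity
    simp only [this]
  have e1 := hex w z u
  have e2 := hex w z u'
  rw [hfa] at e1
  rw [hsl] at e2
  rw [e1, e2]
  have hy : |y| ≤ max (K : ℝ) |y| := le_max_right _ _
  have b1 := h1 (u, y) (huK.trans (le_max_left _ _)) hy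
  have b2 := h1 (u', y) (hu'K.trans (le_max_left _ _)) hy
  have b3 := h2 u u' huK hu'K huu'
  have b4 := h3 u u' huK hu'K huu'
  set d := sl dL dR u with hd
  have hdD : |d| ≤ |dL| + |dR| := by
    rw [hd]; unfold sl
    split_ifs <;> linarith [abs_nonneg dL, abs_nonneg dR]
  have hr : 3 / 4 ≤ 2 * ra d n := by
    rw [hd]; unfold sl
    split_ifs
    · linarith [hR.1]
    · linarith [hL.1]
  set r := 2 * ra d n with hrdef
  have hr0 : 0 < r := by linarith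
  have hr1 : 1 / r ≤ 4 / 3 := by
    rw [div_le_div_iff₀ hr0 (by norm_num)]; linarith
  have f1 : |1 / r * (bn z n u - bn z n u')| ≤ 4 / 3 * (ε / 8) := by
    rw [abs_mul, abs_of_pos (by positivity : 0 < 1 / r)]
    exact mul_le_mul hr1 b4.le (abs_nonneg _) (by norm_num)
  have f2 : |(a : ℝ) / sc n - (⌊sc n * u'⌋ : ℝ) / sc n| ≤ 1 / m + 1 / sc n := by
    rw [← hu]
    have g1 : (⌊sc n * u'⌋ : ℝ) / sc n ≤ u' := by
      rw [div_le_iff₀ hsc]; linarith [Int.floor_le (sc n * u')]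
    have g2 : u' - 1 / sc n ≤ (⌊sc n * u'⌋ : ℝ) / sc n := by
      rw [le_div_iff₀ hsc, sub_mul, one_div, inv_mul_cancel₀ hsc.ne']
      linarith [Int.lt_floor_add_one (sc n * u')]
    rw [abs_le]
    constructor
    · have : 0 < 1 / sc n := by positivity
      have : 0 < 1 / (m : ℝ) := by positivity
      linarith
    · linarith
  have f3 : |1 / r * (d * ((a : ℝ) / sc n - (⌊sc n * u'⌋ : ℝ) / sc n))| ≤
      4 / 3 * (ε / 4) := by
    rw [abs_mul, abs_of_pos (by positivity : 0 < 1 / r)]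
    refine mul_le_mul hr1 ?_ (abs_nonneg _) (by norm_num)
    rw [abs_mul]
    calc |d| * |(a : ℝ) / sc n - (⌊sc n * u'⌋ : ℝ) / sc n|
        ≤ (|dL| + |dR|) * (1 / m + 1 / sc n) :=
          mul_le_mul hdD f2 (abs_nonneg _) (by positivity)
      _ = (|dL| + |dR|) / m + (|dL| + |dR|) / sc n := by ring
      _ ≤ ε / 4 := by linarith
  have hdec : (Sn w n (u, y) + 1 / r * bn z n u + d * ((a : ℝ) / sc n) / r) -
      (Sn w n (u', y) + 1 / r * bn z n u' + d * ((⌊sc n * u'⌋ : ℝ) / sc n) / r) =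
      (Sn w n (u, y) - S (u, y)) + (S (u, y) - S (u', y)) - (Sn w n (u', y) - S (u', y))
        + 1 / r * (bn z n u - bn z n u')
        + 1 / r * (d * ((a : ℝ) / sc n - (⌊sc n * u'⌋ : ℝ) / sc n)) := by ring
  have := (abs_lt.1 b1).2
  have := (abs_lt.1 b2).1
  have := (abs_lt.1 b3).2
  have := (abs_le.1 f1).2
  have := (abs_le.1 f3).2
  linarith

/-- For `a` in the window put `u = a / sc n`, `i = ⌊m u⌋` (so that `i` and `a` have the same sign);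
compare `ex a = Sn (u, y) + hn a` with `ex ⌊sc n (i/m)⌋`, by `modulus` for `S (·, y)`, `hlim`,
`bn_osc`, `hn_eq`, `bn_floor`, `ex_eq`, `Sn_floor`. -/
theorem window_le {w : ℕ → Ω₁ → ℤ → ℕ → ℝ} (hw : ∀ n, IsExpWeights Q₁ (w n))
    {S : Ω₁ → ℝ × ℝ → ℝ} (hS : ∀ p, Measurable fun ω => S ω p) (hc : ∀ ω, Continuous (S ω))
    (hlim : ∀ R : ℝ, ∀ ε : ℝ, 0 < ε → Tendsto (fun n : ℕ => Q₁ {ω | ∃ p : ℝ × ℝ, |p.1| ≤ R ∧
      |p.2| ≤ R ∧ ε ≤ |Sn (w n ω) n p - S ω p|}) atTop (𝓝 0))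
    (hz : IsWalk Q₂ z) (dL dR y : ℝ) (K : ℕ) {ε δ : ℝ} (hε : 0 < ε) (hδ : 0 < δ) :
    ∃ m : ℕ, 0 < m ∧ ∀ᶠ n : ℕ in atTop,
      (Q₁.prod Q₂) {q | ∃ a : ℤ, |(a : ℝ)| ≤ K * sc n ∧ ∀ i : ℤ, |i| ≤ K * m →
        ex (w n q.1) (z q.2) dL dR y n ⌊sc n * ((i : ℝ) / m)⌋ + ε <
          ex (w n q.1) (z q.2) dL dR y n a} ≤ ENNReal.ofReal δ := by
  obtain ⟨η₁, hη₁, hA₁⟩ := modulus (Q := Q₁) (f := fun ω u => S ω (u, y)) (fun x => hS (x, y))
    (fun ω => (hc ω).comp (by fun_prop)) K (ε := ε / 8) (δ := δ / 3) (by positivity) (by positivity)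
  obtain ⟨η₂, hη₂, hA₂⟩ := bn_osc hz K (ε := ε / 8) (δ := δ / 3) (by positivity) (by positivity)
  have hA₃ := (hlim (max (K : ℝ) |y|) (ε / 8) (by positivity)).eventually_lt_const
    (show (0 : ℝ≥0∞) < ENNReal.ofReal (δ / 3) by simpa using hδ)
  have hDm : Tendsto (fun m : ℕ => (|dL| + |dR|) / (m : ℝ)) atTop (𝓝 0) :=
    tendsto_const_div_atTop_nhds_zero_nat _
  have h1m : Tendsto (fun m : ℕ => (1 : ℝ) / (m : ℝ)) atTop (𝓝 0) :=
    tendsto_const_div_atTop_nhds_zero_nat _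
  obtain ⟨m, hmD, hm1, hm2, hm0⟩ := ((hDm.eventually_le_const (show (0 : ℝ) < ε / 8 by
    positivity)).and ((h1m.eventually_le_const hη₁).and ((h1m.eventually_le_const hη₂).and
      (eventually_gt_atTop 0)))).exists
  refine ⟨m, hm0, ?_⟩
  filter_upwards [hA₂, hA₃, window_cmp dL dR y K m hm0 hε hmD] with n h2 h3 hdet
  set A₁ : Set Ω₁ := {ω | ∃ x x' : ℝ, |x| ≤ K ∧ |x'| ≤ K ∧ |x - x'| ≤ η₁ ∧
    ε / 8 ≤ |S ω (x, y) - S ω (x', y)|} with hA₁def
  set A₂ : Set Ω₂ := {ω | ∃ x x' : ℝ, |x| ≤ K ∧ |x'| ≤ K ∧ |x - x'| ≤ η₂ ∧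
    ε / 8 ≤ |bn (z ω) n x - bn (z ω) n x'|} with hA₂def
  set A₃ : Set Ω₁ := {ω | ∃ p : ℝ × ℝ, |p.1| ≤ max (K : ℝ) |y| ∧ |p.2| ≤ max (K : ℝ) |y| ∧
    ε / 8 ≤ |Sn (w n ω) n p - S ω p|} with hA₃def
  have hsub : {q : Ω₁ × Ω₂ | ∃ a : ℤ, |(a : ℝ)| ≤ K * sc n ∧ ∀ i : ℤ, |i| ≤ K * m →
        ex (w n q.1) (z q.2) dL dR y n ⌊sc n * ((i : ℝ) / m)⌋ + ε <
          ex (w n q.1) (z q.2) dL dR y n a} ⊆
      (A₁ ×ˢ univ ∪ A₃ ×ˢ univ) ∪ univ ×ˢ A₂ := by
    rintro q ⟨a, ha, hq⟩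
    by_contra hcon
    simp only [mem_union, mem_prod, mem_univ, and_true, true_and, not_or] at hcon
    obtain ⟨⟨c1, c3⟩, c2⟩ := hcon
    obtain ⟨i, hi, hle⟩ := hdet (w n q.1) (z q.2) (S q.1) (by
        intro p hp1 hp2
        by_contra hp3
        exact c3 ⟨p, hp1, hp2, not_lt.1 hp3⟩) (by
        intro u u' hu hu' huu'
        by_contra hp3
        exact c1 ⟨u, u', hu, hu', huu'.trans hm1, not_lt.1 hp3⟩) (by
        intro u u' hu hu' huu'
        by_contra hp3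
        exact c2 ⟨u, u', hu, hu', huu'.trans hm2, not_lt.1 hp3⟩) a ha
    exact absurd (hq i hi) (not_lt.2 hle)
  calc _ ≤ (Q₁.prod Q₂) ((A₁ ×ˢ univ ∪ A₃ ×ˢ univ) ∪ univ ×ˢ A₂) := measure_mono hsub
    _ ≤ (Q₁.prod Q₂) (A₁ ×ˢ univ) + (Q₁.prod Q₂) (A₃ ×ˢ univ) + (Q₁.prod Q₂) (univ ×ˢ A₂) :=
        (measure_union_le _ _).trans (add_le_add_left (measure_union_le _ _) _)
    _ = Q₁ A₁ + Q₁ A₃ + Q₂ A₂ := by simp [Measure.prod_prod]
    _ ≤ ENNReal.ofReal (δ / 3) + ENNReal.ofReal (δ / 3) + ENNReal.ofReal (δ / 3) :=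
        add_le_add (add_le_add hA₁ h3.le) h2
    _ = ENNReal.ofReal δ := by
        rw [← ENNReal.ofReal_add (by positivity) (by positivity),
          ← ENNReal.ofReal_add (by positivity) (by positivity)]
        congr 1; ring

end Pool.Agent.H15.DL
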