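import Pool.Agent.H15.DL.FarR
import Pool.Agent.H15.DL.FarL
import Pool.Agent.H15.DL.Win
import Pool.Agent.H15.DL.NegDet

/-! # PK2b: the truncated inequality, negative exponent -/

open MeasureTheory ProbabilityTheory Filter Topology Set
open scoped ENNReal

namespace Pool.Agent.H15.DL

open Pool.Agent.H37.DL

theorem ofReal_min_inf {m : ℕ} [Nonempty (Fin m)] (C : ℝ) (g : Fin m → ℝ) :
    ENNReal.ofReal (min C (Finset.univ.inf' Finset.univ_nonempty g)) =
      min (ENNReal.ofReal C) (⨅ i, ENNReal.ofReal (g i)) := by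
  have h : ENNReal.ofReal (Finset.univ.inf' Finset.univ_nonempty g) =
      ⨅ i, ENNReal.ofReal (g i) := by
    apply le_antisymm
    · exact le_iInf fun i => ENNReal.ofReal_le_ofReal (Finset.inf'_le g (Finset.mem_univ i))
    · obtain ⟨i, -, hi⟩ := Finset.exists_mem_eq_inf' (Finset.univ_nonempty (α := Fin m)) g
      rw [hi]
      exact iInf_le _ i
  rw [← h]
  exact ENNReal.ofReal_min C _

/-- truncated inequality on the coupling space: `cs_HH_le`, `far_right`, `far_left`, `window_le`,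
`HH_expo`, `expo_tendsto`, `grid_limit` -/
theorem neg_trunc {Ω₁ Ωb : Type*} [MeasurableSpace Ω₁] [MeasurableSpace Ωb]
    {Q₁ : Measure Ω₁} {Pb : Measure Ωb} [IsProbabilityMeasure Q₁] [IsProbabilityMeasure Pb]
    {b : Ωb → ℝ → ℝ} {w : ℕ → Ω₁ → ℤ → ℕ → ℝ} (hw : ∀ n, IsExpWeights Q₁ (w n))
    {S : Ω₁ → ℝ × ℝ → ℝ} (hS : ∀ p, Measurable fun ω => S ω p) (hc : ∀ ω, Continuous (S ω))
    (hlim : ∀ R : ℝ, ∀ ε : ℝ, 0 < ε → Tendsto (fun n : ℕ => Q₁ {ω | ∃ p : ℝ × ℝ, |p.1| ≤ R ∧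
      |p.2| ≤ R ∧ ε ≤ |Sn (w n ω) n p - S ω p|}) atTop (𝓝 0))
    (hb : IsBM Pb b) {dL dR : ℝ} (y : ℝ) (h : dL < dR) {M ε δ : ℝ} (hM : 0 < M) (hε : 0 < ε)
    (hδ : 0 < δ) : ∃ K m : ℕ, 0 < m ∧
    ∫⁻ q, min (ENNReal.ofReal (Real.exp ((dR - dL) / 2 * M)))
        (⨅ i : Finset.Icc (-((K : ℤ) * m)) (K * m), ENNReal.ofReal (Real.exp ((dL - dR) / 2 *
          (S q.1 (((i : ℤ) : ℝ) / m, y) + b q.2 (((i : ℤ) : ℝ) / m)
            + dr dL dR (((i : ℤ) : ℝ) / m) + ε)))) ∂(Q₁.prod Pb) ≤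
      ENNReal.ofReal (Real.exp (expL dL dR y)) + ENNReal.ofReal δ := by
  obtain ⟨Ω₂, _, Q₂, z, hQ₂, hz⟩ := exists_isWalk
  obtain ⟨Ω₃, _, Q₃, v, hQ₃, hv⟩ := exists_isWalk
  set La : ℝ := (dL - dR) / 2 with hLa
  have hLa0 : La < 0 := by rw [hLa]; linarith
  set C : ℝ := Real.exp ((dR - dL) / 2 * M) with hC
  have hC0 : 0 < C := Real.exp_pos _
  have hCLa : C = Real.exp (La * (-M)) := by rw [hC, hLa]; congr 1; ring
  set δ' : ℝ := δ / (3 * C) with hδ'
  have hδ'0 : 0 < δ' := by positivity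
  obtain ⟨KR, hKR⟩ := far_right hw hz hv dL dR y M hδ'0
  obtain ⟨KL, hKL⟩ := far_left hw hz hv dL dR y M hδ'0
  obtain ⟨K, hK⟩ := exists_nat_ge (max KR KL)
  obtain ⟨m, hm, hwin⟩ := window_le hw hS hc hlim hz dL dR y K hε hδ'0
  refine ⟨K, m, hm, ?_⟩
  -- the grid
  set I : Finset ℤ := Finset.Icc (-((K : ℤ) * m)) (K * m) with hI
  have h0I : (0 : ℤ) ∈ I := by
    rw [hI, Finset.mem_Icc]
    constructor
    · have : (0 : ℤ) ≤ (K : ℤ) * m := by positivity
      linarith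
    · positivity
  have : Nonempty I := ⟨⟨0, h0I⟩⟩
  set e := Fintype.equivFin I with he
  have : Nonempty (Fin (Fintype.card I)) := ⟨e ⟨0, h0I⟩⟩
  set u : Fin (Fintype.card I) → ℝ := fun k => (((e.symm k : I) : ℤ) : ℝ) / m with hu
  set F : (Fin (Fintype.card I) → ℝ) → ℝ := fun x =>
    min C (Finset.univ.inf' Finset.univ_nonempty (fun k => Real.exp (La * (x k + ε)))) with hF
  have hFc : Continuous F := by
    rw [hF]
    refine continuous_const.min ?_
    exact Continuous.finset_inf'_apply Finset.univ_nonempty fun k _ => by fun_prop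
  have hF0 : ∀ x, 0 ≤ F x := by
    intro x
    rw [hF]
    refine le_min hC0.le ?_
    rw [Finset.le_inf'_iff]
    exact fun k _ => (Real.exp_pos _).le
  have hFb : ∀ x, |F x| ≤ C := by
    intro x
    rw [abs_of_nonneg (hF0 x)]
    exact min_le_left _ _
  have hgl := grid_limit hw hS hlim hz hb dL dR y u hFc ⟨C, hFb⟩
  -- the lintegral in terms of F
  have hconv : ∀ x : Fin (Fintype.card I) → ℝ, ENNReal.ofReal (F x) =
      min (ENNReal.ofReal C) (⨅ k, ENNReal.ofReal (Real.exp (La * (x k + ε)))) :=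
    fun x => ofReal_min_inf C _
  have hFm : Measurable F := hFc.measurable
  have hmeas1 : Measurable (fun q : Ω₁ × Ωb => fun i => S q.1 (u i, y) + b q.2 (u i)
      + dr dL dR (u i)) := by
    refine measurable_pi_lambda _ fun i => ?_
    exact (((hS (u i, y)).comp measurable_fst).add ((hb.meas (u i)).comp measurable_snd)).add_const _
  have hlhs : ∫⁻ q, min (ENNReal.ofReal C)
        (⨅ i : I, ENNReal.ofReal (Real.exp (La *
          (S q.1 (((i : ℤ) : ℝ) / m, y) + b q.2 (((i : ℤ) : ℝ) / m)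
            + dr dL dR (((i : ℤ) : ℝ) / m) + ε)))) ∂(Q₁.prod Pb) =
      ENNReal.ofReal (∫ q, F (fun i => S q.1 (u i, y) + b q.2 (u i) + dr dL dR (u i))
        ∂(Q₁.prod Pb)) := by
    rw [ofReal_integral_eq_lintegral_ofReal]
    · refine lintegral_congr fun q => ?_
      rw [hconv]
      congr 1
      exact Equiv.iInf_congr e (fun i => by simp only [hu, Equiv.symm_apply_apply])
    · refine Integrable.of_bound (hFm.comp hmeas1).aestronglyMeasurable C
        (Eventually.of_forall fun q => ?_)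
      exact hFb _
    · exact Eventually.of_forall fun q => hF0 _
  rw [hlhs]
  -- pass to the limit
  have hr : Tendsto (fun n : ℕ => ENNReal.ofReal (Real.exp (expo (ra dR n) (ra dL n) (cn y n) n))
      + ENNReal.ofReal δ) atTop (𝓝 (ENNReal.ofReal (Real.exp (expL dL dR y)) +
        ENNReal.ofReal δ)) :=
    ((ENNReal.continuous_ofReal.tendsto _).comp
      ((Real.continuous_exp.tendsto _).comp (expo_tendsto dL dR y (cn_tendsto y)))).add
        tendsto_const_nhds
  refine le_of_tendsto_of_tendsto ((ENNReal.continuous_ofReal.tendsto _).comp hgl) hr ?_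
  filter_upwards [hKR K ((le_max_left _ _).trans hK), hKL K ((le_max_right _ _).trans hK), hwin,
    ra_mem dL, ra_mem dR, eventually_ge_atTop 1] with n hR hL hW hraL hraR hn
  have hmp : MeasurePreserving (Prod.map (id : Ω₁ → Ω₁) (Prod.fst : Ω₂ × Ω₃ → Ω₂))
      (Q₁.prod (Q₂.prod Q₃)) (Q₁.prod Q₂) :=
    (MeasurePreserving.id Q₁).prod measurePreserving_fst
  have hexm : Measurable (fun q : Ω₁ × Ω₂ => fun i =>
      ex (w n q.1) (z q.2) dL dR y n ⌊sc n * u i⌋) :=
    measurable_pi_lambda _ fun i => measurable_ex (hw n) hz dL dR y n _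
  have e1 : ENNReal.ofReal (∫ q, F (fun i => ex (w n q.1) (z q.2) dL dR y n ⌊sc n * u i⌋)
      ∂(Q₁.prod Q₂)) = ∫⁻ q, ENNReal.ofReal (F (fun i =>
        ex (w n q.1) (z q.2.1) dL dR y n ⌊sc n * u i⌋)) ∂(Q₁.prod (Q₂.prod Q₃)) := by
    rw [ofReal_integral_eq_lintegral_ofReal]
    · have := hmp.lintegral_comp (f := fun q : Ω₁ × Ω₂ => ENNReal.ofReal (F (fun i =>
        ex (w n q.1) (z q.2) dL dR y n ⌊sc n * u i⌋))) (hFm.comp hexm).ennreal_ofReal
      rw [← this]
      rfl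
    · refine Integrable.of_bound (hFm.comp hexm).aestronglyMeasurable C
        (Eventually.of_forall fun q => ?_)
      exact hFb _
    · exact Eventually.of_forall fun q => hF0 _
  change ENNReal.ofReal (∫ q, F (fun i => ex (w n q.1) (z q.2) dL dR y n ⌊sc n * u i⌋)
      ∂(Q₁.prod Q₂)) ≤ _
  rw [e1]
  set R : Set (Ω₁ × Ω₂ × Ω₃) := {q | ∃ a : ℤ, (K : ℝ) * sc n ≤ a ∧ a ≤ (cn y n : ℤ) ∧
        -M ≤ ex (w n q.1) (z q.2.1) dL dR y n a} with hRdef
  set L : Set (Ω₁ × Ω₂ × Ω₃) := {q | (∃ a : ℤ, -(n : ℤ) < a ∧ (a : ℝ) ≤ -((K : ℝ) * sc n) ∧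
          -M ≤ ex (w n q.1) (z q.2.1) dL dR y n a) ∨
        ∃ j < n, -M ≤ cs y n (leftExit (w n q.1) (z q.2.1) (v q.2.2) (ra dL n) n (cn y n) n j)}
    with hLdef
  set W : Set (Ω₁ × Ω₂) := {q | ∃ a : ℤ, |(a : ℝ)| ≤ K * sc n ∧ ∀ i : ℤ, |i| ≤ K * m →
        ex (w n q.1) (z q.2) dL dR y n ⌊sc n * ((i : ℝ) / m)⌋ + ε <
          ex (w n q.1) (z q.2) dL dR y n a} with hWdef
  set W' : Set (Ω₁ × Ω₂ × Ω₃) := Prod.map (id : Ω₁ → Ω₁) (Prod.fst : Ω₂ × Ω₃ → Ω₂) ⁻¹' W
    with hW'def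
  have hW' : (Q₁.prod (Q₂.prod Q₃)) W' ≤ ENNReal.ofReal δ' := by
    refine le_trans ?_ hW
    rw [← hmp.map_eq]
    exact Measure.le_map_apply hmp.measurable.aemeasurable W
  have hbad : (Q₁.prod (Q₂.prod Q₃)) (R ∪ L ∪ W') ≤ ENNReal.ofReal (3 * δ') := by
    calc _ ≤ (Q₁.prod (Q₂.prod Q₃)) R + (Q₁.prod (Q₂.prod Q₃)) L + (Q₁.prod (Q₂.prod Q₃)) W' :=
          (measure_union_le _ _).trans (add_le_add_left (measure_union_le _ _) _)
      _ ≤ ENNReal.ofReal δ' + ENNReal.ofReal δ' + ENNReal.ofReal δ' :=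
          add_le_add (add_le_add hR hL) hW'
      _ = ENNReal.ofReal (3 * δ') := by
          rw [← ENNReal.ofReal_add hδ'0.le hδ'0.le, ← ENNReal.ofReal_add (by positivity) hδ'0.le]
          congr 1; ring
  have hpt : ∀ q : Ω₁ × Ω₂ × Ω₃, ENNReal.ofReal (F (fun i =>
      ex (w n q.1) (z q.2.1) dL dR y n ⌊sc n * u i⌋)) ≤
      ENNReal.ofReal (Real.exp (La * cs y n (HH (w n q.1) (z q.2.1) (v q.2.2) (ra dR n) (ra dL n)
        n (cn y n) n))) + (R ∪ L ∪ W').indicator (fun _ => ENNReal.ofReal C) q := by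
    intro q
    by_cases hq : q ∈ R ∪ L ∪ W'
    · rw [indicator_of_mem hq]
      refine le_trans (ENNReal.ofReal_le_ofReal ?_) le_add_self
      exact min_le_left _ _
    · rw [indicator_of_notMem hq, add_zero]
      apply ENNReal.ofReal_le_ofReal
      simp only [mem_union, not_or] at hq
      obtain ⟨⟨hqR, hqL⟩, hqW⟩ := hq
      have hcs := cs_HH_le (w := w n q.1) (z := z q.2.1) (v := v q.2.2) (dL := dL) (dR := dR)
        (y := y) (M := M) (ε := ε) (n := n) (K := K) (m := m) hn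
        (fun a h1 h2 => by
          by_contra h3
          exact hqR ⟨a, h1, h2, not_lt.1 h3⟩)
        (fun a h1 h2 => by
          by_contra h3
          exact hqL (Or.inl ⟨a, h1, h2, not_lt.1 h3⟩))
        (fun j hj => by
          by_contra h3
          exact hqL (Or.inr ⟨j, hj, not_lt.1 h3⟩))
        (fun a ha => by
          by_contra h3
          push Not at h3
          exact hqW ⟨a, ha, fun i hi => h3 i hi⟩)
      rcases hcs with hcs | ⟨i, hi, hcs⟩
      · refine (min_le_left _ _).trans ?_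
        rw [hCLa]
        exact Real.exp_le_exp.2 (mul_le_mul_of_nonpos_left hcs hLa0.le)
      · have hiI : i ∈ I := by
          rw [hI, Finset.mem_Icc]
          exact abs_le.1 hi
        refine (min_le_right _ _).trans ?_
        refine (Finset.inf'_le _ (Finset.mem_univ (e ⟨i, hiI⟩))).trans ?_
        refine Real.exp_le_exp.2 (mul_le_mul_of_nonpos_left ?_ hLa0.le)
        simpa only [hu, Equiv.symm_apply_apply] using hcs
  have hHHm : Measurable (fun q : Ω₁ × Ω₂ × Ω₃ => ENNReal.ofReal (Real.exp (La * cs y n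
      (HH (w n q.1) (z q.2.1) (v q.2.2) (ra dR n) (ra dL n) n (cn y n) n)))) := by
    have h1 : Measurable (fun q : Ω₁ × Ω₂ × Ω₃ => HH (w n q.1) (z q.2.1) (v q.2.2) (ra dR n)
        (ra dL n) n (cn y n) n) :=
      measurable_HH (w := fun q : Ω₁ × Ω₂ × Ω₃ => w n q.1) (z := fun q => z q.2.1)
        (v := fun q => v q.2.2) (fun i j => ((hw n).meas i j).comp measurable_fst)
        (fun i => (hz.meas i).comp (measurable_fst.comp measurable_snd))
        (fun i => (hv.meas i).comp (measurable_snd.comp measurable_snd)) _ _ _ _ _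
    unfold cs
    exact (Real.measurable_exp.comp (((h1.sub_const _).sub_const _).div_const _ |>.const_mul
      _)).ennreal_ofReal
  have hid : ∫⁻ q : Ω₁ × Ω₂ × Ω₃, ENNReal.ofReal (Real.exp (La * cs y n
      (HH (w n q.1) (z q.2.1) (v q.2.2) (ra dR n) (ra dL n) n (cn y n) n)))
      ∂(Q₁.prod (Q₂.prod Q₃)) = ENNReal.ofReal (Real.exp (expo (ra dR n) (ra dL n) (cn y n) n)) := by
    rw [← HH_expo (hw n) hz hv (al := ra dR n) (be := ra dL n) (by linarith [hraR.1])
      (by linarith [hraR.2]) (by linarith [hraL.1]) (by linarith [hraL.2]) n (cn y n) n]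
    refine lintegral_congr fun q => ?_
    congr 2
    have h1 := ra_sub hn dL dR
    have h2 := rt_pos hn
    unfold cs
    rw [hLa, ← h1]
    field_simp
  calc ∫⁻ q, ENNReal.ofReal (F (fun i =>
        ex (w n q.1) (z q.2.1) dL dR y n ⌊sc n * u i⌋)) ∂(Q₁.prod (Q₂.prod Q₃))
      ≤ ∫⁻ q, (ENNReal.ofReal (Real.exp (La * cs y n (HH (w n q.1) (z q.2.1) (v q.2.2)
          (ra dR n) (ra dL n) n (cn y n) n))) + (R ∪ L ∪ W').indicator
            (fun _ => ENNReal.ofReal C) q) ∂(Q₁.prod (Q₂.prod Q₃)) := lintegral_mono hpt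
    _ = ENNReal.ofReal (Real.exp (expo (ra dR n) (ra dL n) (cn y n) n)) +
        ∫⁻ q, (R ∪ L ∪ W').indicator (fun _ => ENNReal.ofReal C) q
          ∂(Q₁.prod (Q₂.prod Q₃)) := by
        rw [lintegral_add_left hHHm, hid]
    _ ≤ ENNReal.ofReal (Real.exp (expo (ra dR n) (ra dL n) (cn y n) n)) +
        ENNReal.ofReal C * ENNReal.ofReal (3 * δ') := by
        gcongr
        exact (lintegral_indicator_const_le _ _).trans (by gcongr)
    _ = ENNReal.ofReal (Real.exp (expo (ra dR n) (ra dL n) (cn y n) n)) + ENNReal.ofReal δ := by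
        rw [← ENNReal.ofReal_mul hC0.le]
        congr 2
        rw [hδ']
        field_simp

end Pool.Agent.H15.DL
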