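import Pool.Agent.H15.DL.Base

/-! # PK2b: the sheet is below a parabola, from the upper tail -/

open MeasureTheory ProbabilityTheory Filter Topology Set
open scoped ENNReal

namespace Pool.Agent.H15.DL

open Pool.Agent.H37.DL

variable {Ω : Type*} [MeasurableSpace Ω] {P : Measure Ω} [IsProbabilityMeasure P]
  {S : Ω → ℝ × ℝ → ℝ}

theorem summable_exp_abs {a : ℝ} (ha : 0 < a) : Summable fun k : ℤ => Real.exp (-(a * |(k : ℝ)|)) := by
  have h1 : Summable fun n : ℕ => Real.exp (-(a * (n : ℝ))) := by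
    have h2 : Summable fun n : ℕ => Real.exp (-a) ^ n :=
      summable_geometric_of_lt_one (Real.exp_pos _).le (by rw [Real.exp_lt_one_iff]; linarith)
    refine h2.congr fun n => ?_
    rw [← Real.exp_nat_mul]
    congr 1; ring
  refine Summable.of_nat_of_neg ?_ ?_
  · refine h1.congr fun n => ?_
    simp
  · refine h1.congr fun n => ?_
    simp

theorem tsum_exp_sq_ne_top {a : ℝ} (ha : 0 < a) :
    ∑' k : ℤ, ENNReal.ofReal (Real.exp (-(a * (k : ℝ) ^ 2))) ≠ ⊤ := by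
  have h1 : Summable fun k : ℤ => Real.exp (-(a * (k : ℝ) ^ 2)) := by
    refine Summable.of_nonneg_of_le (fun k => (Real.exp_pos _).le) (fun k => ?_)
      (summable_exp_abs ha)
    apply Real.exp_le_exp.2
    have h2 : |(k : ℝ)| ≤ (k : ℝ) ^ 2 := by
      rcases eq_or_ne k 0 with rfl | hk
      · simp
      · have h3 : (1 : ℝ) ≤ |(k : ℝ)| := by
          rw [← Int.cast_abs]
          exact_mod_cast Int.one_le_abs hk
        rw [← sq_abs]
        nlinarith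
    nlinarith
  exact h1.tsum_ofReal_ne_top

/-- the sheet is below a parabola outside the window, with probability at least `1/2`, from the
upper tail (`hup`), uniformly in `x` -/
theorem outside {C : ℝ} (hC : 0 < C) (hup : ∀ x h : ℝ, 1 ≤ h →
      P {ω | ∃ y, |y - x| ≤ 1 ∧ h ≤ S ω (0, y) + y ^ 2} ≤
        ENNReal.ofReal (C * Real.exp (-(4 / 3) * h ^ (3 / 2 : ℝ) + C * h))) {e : ℝ} (he : 0 < e) :
    ∃ κ₀ : ℝ, 0 < κ₀ ∧ ∀ x κ : ℝ, κ₀ ≤ κ →
      1 / 2 ≤ P {ω | ∀ u : ℝ, S ω (0, x + u) + (x + u) ^ 2 ≤ e * (κ ^ 2 + u ^ 2)} := by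
  set a := e / 2 with ha
  have ha0 : 0 < a := by positivity
  set A := ∑' k : ℤ, ENNReal.ofReal (Real.exp (-(a * (k : ℝ) ^ 2))) with hA
  have hAt : A ≠ ⊤ := tsum_exp_sq_ne_top ha0
  -- the choice of the constant
  have hlim : Tendsto (fun κ : ℝ => ENNReal.ofReal (C * Real.exp (-(a * κ ^ 2))) * A) atTop
      (𝓝 0) := by
    have h1 : Tendsto (fun κ : ℝ => C * Real.exp (-(a * κ ^ 2))) atTop (𝓝 0) := by
      have h2 : Tendsto (fun κ : ℝ => a * κ ^ 2) atTop atTop :=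
        (tendsto_pow_atTop two_ne_zero).const_mul_atTop ha0
      have h3 := (Real.tendsto_exp_neg_atTop_nhds_zero.comp h2).const_mul C
      rw [mul_zero] at h3
      exact h3
    have h2 := (ENNReal.continuous_ofReal.tendsto _).comp h1
    rw [ENNReal.ofReal_zero] at h2
    have h3 := ENNReal.Tendsto.mul_const (b := A) h2 (Or.inr hAt)
    rw [zero_mul] at h3
    exact h3
  have hev : ∀ᶠ κ : ℝ in atTop, ENNReal.ofReal (C * Real.exp (-(a * κ ^ 2))) * A < 1 / 2 :=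
    hlim.eventually_lt_const (by simp)
  have hev2 : ∀ᶠ κ : ℝ in atTop, max 1 ((3 / 4 * (C + 1)) ^ 2) ≤ a * κ ^ 2 :=
    ((tendsto_pow_atTop two_ne_zero).const_mul_atTop ha0).eventually_ge_atTop _
  have hev3 : ∀ᶠ κ : ℝ in atTop, (2 : ℝ) ≤ κ ^ 2 :=
    (tendsto_pow_atTop two_ne_zero).eventually_ge_atTop _
  obtain ⟨κ₁, hκ₁⟩ := eventually_atTop.1 (hev.and (hev2.and hev3))
  refine ⟨max κ₁ 1, by positivity, fun x κ hκ => ?_⟩
  obtain ⟨hk1, hk2, hk3⟩ := hκ₁ κ ((le_max_left _ _).trans hκ)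
  set E := {ω | ∀ u : ℝ, S ω (0, x + u) + (x + u) ^ 2 ≤ e * (κ ^ 2 + u ^ 2)} with hE
  -- the complement is covered by windows
  have hcov : Eᶜ ⊆ ⋃ k : ℤ, {ω | ∃ y, |y - (x + k)| ≤ 1 ∧
      a * (κ ^ 2 + (k : ℝ) ^ 2) ≤ S ω (0, y) + y ^ 2} := by
    intro ω hω
    simp only [hE, mem_compl_iff, mem_setOf_eq, not_forall, not_le] at hω
    obtain ⟨u, hu⟩ := hω
    refine mem_iUnion.2 ⟨⌊u⌋, x + u, ?_, ?_⟩
    · have h1 := Int.floor_le u
      have h2 := Int.lt_floor_add_one u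
      rw [abs_le]
      constructor <;> linarith
    · have h1 := Int.floor_le u
      have h2 := Int.lt_floor_add_one u
      refine le_trans ?_ hu.le
      have h3 : ((⌊u⌋ : ℤ) : ℝ) ^ 2 ≤ 2 * u ^ 2 + 2 := by
        nlinarith [sq_nonneg (u + ((⌊u⌋ : ℤ) : ℝ) - 2 * u), sq_nonneg (u + (u - ((⌊u⌋ : ℤ) : ℝ)))]
      rw [ha]
      nlinarith
  have hterm : ∀ k : ℤ, P {ω | ∃ y, |y - (x + k)| ≤ 1 ∧
      a * (κ ^ 2 + (k : ℝ) ^ 2) ≤ S ω (0, y) + y ^ 2} ≤
      ENNReal.ofReal (C * Real.exp (-(a * κ ^ 2))) *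
        ENNReal.ofReal (Real.exp (-(a * (k : ℝ) ^ 2))) := by
    intro k
    set h := a * (κ ^ 2 + (k : ℝ) ^ 2) with hh
    have hge : max 1 ((3 / 4 * (C + 1)) ^ 2) ≤ h := by
      refine hk2.trans ?_
      rw [hh]
      nlinarith [sq_nonneg (k : ℝ)]
    have h1 : 1 ≤ h := (le_max_left _ _).trans hge
    have h2 : (3 / 4 * (C + 1)) ^ 2 ≤ h := (le_max_right _ _).trans hge
    refine (hup (x + k) h h1).trans ?_
    rw [← ENNReal.ofReal_mul (by positivity)]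
    apply ENNReal.ofReal_le_ofReal
    rw [mul_assoc, ← Real.exp_add]
    refine mul_le_mul_of_nonneg_left ?_ hC.le
    apply Real.exp_le_exp.2
    have h3 : h ^ (3 / 2 : ℝ) = h * Real.sqrt h := by
      rw [Real.sqrt_eq_rpow, ← Real.rpow_one_add' (by linarith) (by norm_num)]
      norm_num
    have h4 : 3 / 4 * (C + 1) ≤ Real.sqrt h := Real.le_sqrt_of_sq_le h2
    rw [h3]
    have h5 : -(a * κ ^ 2) + -(a * (k : ℝ) ^ 2) = -h := by rw [hh]; ring
    rw [h5]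
    nlinarith
  have hbound : P Eᶜ ≤ 1 / 2 := by
    calc P Eᶜ ≤ ∑' k : ℤ, P {ω | ∃ y, |y - (x + k)| ≤ 1 ∧
          a * (κ ^ 2 + (k : ℝ) ^ 2) ≤ S ω (0, y) + y ^ 2} :=
          (measure_mono hcov).trans (measure_iUnion_le _)
      _ ≤ ∑' k : ℤ, ENNReal.ofReal (C * Real.exp (-(a * κ ^ 2))) *
          ENNReal.ofReal (Real.exp (-(a * (k : ℝ) ^ 2))) := ENNReal.tsum_le_tsum hterm
      _ = ENNReal.ofReal (C * Real.exp (-(a * κ ^ 2))) * A := by rw [ENNReal.tsum_mul_left]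
      _ ≤ 1 / 2 := hk1.le
  have htot : (1 : ℝ≥0∞) ≤ P E + P Eᶜ := by
    rw [← measure_univ (μ := P), ← union_compl_self E]
    exact measure_union_le _ _
  have h2 : (1 : ℝ≥0∞) ≤ P E + 1 / 2 := htot.trans (by gcongr)
  have h3 : (1 : ℝ≥0∞) - 1 / 2 ≤ P E := tsub_le_iff_right.2 h2
  have h4 : (1 : ℝ≥0∞) - 1 / 2 = 1 / 2 := by
    rw [one_div, ENNReal.one_sub_inv_two]
  rw [h4] at h3
  exact h3

end Pool.Agent.H15.DL
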