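import Pool.Agent.H15.DL.Ident
import Pool.Agent.H15.DL.Grid
import Pool.Agent.H15.DL.Law

/-! # PK2b: the exponential identity for the sheet, positive exponent (3.3) -/

open MeasureTheory ProbabilityTheory Filter Topology Set
open scoped ENNReal

namespace Pool.Agent.H15.DL

open Pool.Agent.H37.DL

theorem Pos_le_of_min {α : Type*} [MeasurableSpace α] {μ : Measure α} {g : α → ℝ≥0∞}
    (hg : Measurable g) {a : ℝ≥0∞} (h : ∀ C : ℕ, ∫⁻ x, min (C : ℝ≥0∞) (g x) ∂μ ≤ a) :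
    ∫⁻ x, g x ∂μ ≤ a := by
  have h1 : ∀ x, g x = ⨆ C : ℕ, min (C : ℝ≥0∞) (g x) := by
    intro x
    have h2 : (⨆ C : ℕ, min (C : ℝ≥0∞) (g x)) = min (⨆ C : ℕ, (C : ℝ≥0∞)) (g x) :=
      (iSup_inf_eq _ _).symm
    rw [h2, ENNReal.iSup_natCast, top_inf_eq]
  rw [lintegral_congr h1, lintegral_iSup (fun C => measurable_const.min hg)]
  · exact iSup_le h
  · intro C D hCD x
    exact min_le_min_right _ (by exact_mod_cast hCD)

/-- the maximum of the exponentials -/
noncomputable def Pos_f {m : ℕ} (La : ℝ) (x : Fin (m + 1) → ℝ) : ℝ :=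
  Finset.univ.sup' Finset.univ_nonempty fun i => Real.exp (La * x i)

theorem Pos_f_continuous {m : ℕ} (La : ℝ) : Continuous (Pos_f (m := m) La) := by
  unfold Pos_f
  exact Continuous.finset_sup'_apply _ fun i _ => by fun_prop

theorem Pos_f_pos {m : ℕ} (La : ℝ) (x : Fin (m + 1) → ℝ) : 0 < Pos_f La x := by
  unfold Pos_f
  obtain ⟨i, _, hi⟩ := Finset.exists_mem_eq_sup' (Finset.univ_nonempty (α := Fin (m + 1)))
    (fun i => Real.exp (La * x i))
  rw [hi]
  positivity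

theorem Pos_f_le {m : ℕ} {La : ℝ} {x : Fin (m + 1) → ℝ} {a : ℝ}
    (h : ∀ i, Real.exp (La * x i) ≤ a) : Pos_f La x ≤ a := by
  unfold Pos_f
  exact Finset.sup'_le _ _ fun i _ => h i

theorem Pos_ofReal {m : ℕ} (La : ℝ) (x : Fin (m + 1) → ℝ) :
    ENNReal.ofReal (Pos_f La x) = ⨆ i, ENNReal.ofReal (Real.exp (La * x i)) := by
  apply le_antisymm
  · unfold Pos_f
    obtain ⟨i, _, hi⟩ := Finset.exists_mem_eq_sup' (Finset.univ_nonempty (α := Fin (m + 1)))
      (fun i => Real.exp (La * x i))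
    rw [hi]
    exact le_iSup (fun i => ENNReal.ofReal (Real.exp (La * x i))) i
  · refine iSup_le fun i => ENNReal.ofReal_le_ofReal ?_
    unfold Pos_f
    exact Finset.le_sup' (fun i => Real.exp (La * x i)) (Finset.mem_univ i)

/-- On the coupling space, finite families: `hh_le_HH` (`floor_mem`), `HH_expo`, `expo_tendsto`,
`ra_sub`, `grid_limit` with `F x = min C (exp ((dL - dR)/2 * max_i x_i))`, then `C → ∞`. -/
theorem pos_fin {Ω₁ Ωb : Type*} [MeasurableSpace Ω₁] [MeasurableSpace Ωb]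
    {Q₁ : Measure Ω₁} {Pb : Measure Ωb} [IsProbabilityMeasure Q₁] [IsProbabilityMeasure Pb]
    {b : Ωb → ℝ → ℝ} {w : ℕ → Ω₁ → ℤ → ℕ → ℝ} (hw : ∀ n, IsExpWeights Q₁ (w n))
    {S : Ω₁ → ℝ × ℝ → ℝ} (hS : ∀ p, Measurable fun ω => S ω p)
    (hlim : ∀ R : ℝ, ∀ ε : ℝ, 0 < ε → Tendsto (fun n : ℕ => Q₁ {ω | ∃ p : ℝ × ℝ, |p.1| ≤ R ∧
      |p.2| ≤ R ∧ ε ≤ |Sn (w n ω) n p - S ω p|}) atTop (𝓝 0))
    (hb : IsBM Pb b) {dL dR : ℝ} (y : ℝ) (h : dR < dL) {m : ℕ} (u : Fin m → ℝ) :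
    ∫⁻ q, ⨆ i, ENNReal.ofReal (Real.exp ((dL - dR) / 2 *
        (S q.1 (u i, y) + b q.2 (u i) + dr dL dR (u i)))) ∂(Q₁.prod Pb) ≤
      ENNReal.ofReal (Real.exp (expL dL dR y)) := by
  obtain _ | m := m
  · simp
  set La : ℝ := (dL - dR) / 2 with hLa
  have hLa0 : 0 < La := by rw [hLa]; linarith
  obtain ⟨Ω₂, _, Q₂, z, hQ₂, hz⟩ := exists_isWalk
  -- the limit variable
  set Z : Ω₁ × Ωb → Fin (m + 1) → ℝ := fun q i =>
    S q.1 (u i, y) + b q.2 (u i) + dr dL dR (u i) with hZdef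
  have hZ : Measurable Z := measurable_pi_iff.mpr fun i =>
    (((hS _).comp measurable_fst).add ((hb.meas _).comp measurable_snd)).add_const _
  have hfm : Measurable (Pos_f (m := m) La) := (Pos_f_continuous La).measurable
  have hrew : ∀ q, (⨆ i, ENNReal.ofReal (Real.exp (La *
      (S q.1 (u i, y) + b q.2 (u i) + dr dL dR (u i))))) = ENNReal.ofReal (Pos_f La (Z q)) :=
    fun q => (Pos_ofReal La (Z q)).symm
  simp_rw [hrew]
  refine Pos_le_of_min (hfm.comp hZ).ennreal_ofReal fun C => ?_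
  -- bounded continuous function
  set F : (Fin (m + 1) → ℝ) → ℝ := fun x => min (C : ℝ) (Pos_f La x) with hF
  have hFc : Continuous F := continuous_const.min (Pos_f_continuous La)
  have hF0 : ∀ x, 0 ≤ F x := fun x => le_min C.cast_nonneg (Pos_f_pos La x).le
  have hFC : ∀ x, F x ≤ C := fun x => min_le_left _ _
  have hFb : ∃ C, ∀ x, |F x| ≤ C := ⟨C, fun x => by rw [abs_of_nonneg (hF0 x)]; exact hFC x⟩
  have hlimF := grid_limit hw hS hlim hz hb dL dR y u hFc hFb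
  have hexpo := expo_tendsto dL dR y (cn_tendsto y)
  -- the inequality for finite `n`
  have hev : ∀ᶠ n : ℕ in atTop, ∫ q, F (fun i => ex (w n q.1) (z q.2) dL dR y n ⌊sc n * u i⌋)
      ∂(Q₁.prod Q₂) ≤ Real.exp (expo (ra dR n) (ra dL n) (cn y n) n) := by
    have hfl : ∀ᶠ n : ℕ in atTop, ∀ i, -(n : ℤ) < ⌊sc n * u i⌋ ∧
        ⌊sc n * u i⌋ ≤ (cn y n : ℤ) := by
      rw [eventually_all]
      exact fun i => floor_mem (u i) y
    filter_upwards [hfl, ra_mem dR, ra_mem dL, eventually_ge_atTop 1] with n hfl haR haL hn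
    set al := ra dR n with hal
    set be := ra dL n with hbe
    have hrt := rt_pos hn
    have hsub : (al - be) * rt n = La := ra_sub hn dL dR
    have hmeas : Measurable fun q : Ω₁ × Ω₂ =>
        F (fun i => ex (w n q.1) (z q.2) dL dR y n ⌊sc n * u i⌋) :=
      hFc.measurable.comp (measurable_pi_iff.mpr fun i =>
        measurable_ex (hw n) hz dL dR y n _)
    have hint : Integrable (fun q : Ω₁ × Ω₂ =>
        F (fun i => ex (w n q.1) (z q.2) dL dR y n ⌊sc n * u i⌋)) (Q₁.prod Q₂) := by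
      refine Integrable.of_bound hmeas.aestronglyMeasurable C (ae_of_all _ fun q => ?_)
      rw [Real.norm_eq_abs, abs_of_nonneg (hF0 _)]
      exact hFC _
    have hle : ENNReal.ofReal (∫ q, F (fun i => ex (w n q.1) (z q.2) dL dR y n ⌊sc n * u i⌋)
        ∂(Q₁.prod Q₂)) ≤ ENNReal.ofReal (Real.exp (expo al be (cn y n) n)) := by
      rw [ofReal_integral_eq_lintegral_ofReal hint (ae_of_all _ fun q => hF0 _)]
      have hmp : MeasurePreserving (fun q : Ω₁ × (Ω₂ × Ω₂) => (q.1, q.2.1))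
          (Q₁.prod (Q₂.prod Q₂)) (Q₁.prod Q₂) :=
        (MeasurePreserving.id Q₁).prod measurePreserving_fst
      rw [← hmp.lintegral_comp hmeas.ennreal_ofReal,
        ← HH_expo (hw n) hz hz (by linarith : 0 < al) (by linarith : al < 1)
          (by linarith : 0 < be) (by linarith : be < 1) n (cn y n) n]
      refine lintegral_mono fun q => ENNReal.ofReal_le_ofReal ?_
      refine (min_le_right _ _).trans (Pos_f_le fun i => ?_)
      apply Real.exp_le_exp.mpr
      have h1 := hh_le_HH (w n q.1) (z q.2.1) (z q.2.2) al be hn (hfl i).1 (hfl i).2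
      unfold ex cs
      rw [← hsub]
      have h2 : (al - be) * rt n * ((hh (z q.2.1) al be ⌊sc n * u i⌋ +
          lpp (w n q.1) ⌊sc n * u i⌋ ((cn y n : ℤ) - ⌊sc n * u i⌋).toNat (n - 1) -
          2 * n - 2 * cn y n) / rt n) = (al - be) * (hh (z q.2.1) al be ⌊sc n * u i⌋ +
          lpp (w n q.1) ⌊sc n * u i⌋ ((cn y n : ℤ) - ⌊sc n * u i⌋).toNat (n - 1) -
          2 * n - 2 * cn y n) := by
        field_simp
      have h3 : 0 ≤ al - be := by
        have h4 : 0 < (al - be) * rt n := by rw [hsub]; exact hLa0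
        exact (pos_of_mul_pos_left h4 hrt.le).le
      rw [h2]
      exact mul_le_mul_of_nonneg_left (by linarith) h3
    exact (ENNReal.ofReal_le_ofReal_iff (Real.exp_pos _).le).mp hle
  have hfin : ∫ q, F (Z q) ∂(Q₁.prod Pb) ≤ Real.exp (expL dL dR y) :=
    le_of_tendsto_of_tendsto hlimF ((Real.continuous_exp.tendsto _).comp hexpo) hev
  have hintZ : Integrable (fun q => F (Z q)) (Q₁.prod Pb) := by
    refine Integrable.of_bound (hFc.measurable.comp hZ).aestronglyMeasurable C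
      (ae_of_all _ fun q => ?_)
    rw [Real.norm_eq_abs, abs_of_nonneg (hF0 _)]
    exact hFC _
  have hmin : ∀ q, min (C : ℝ≥0∞) (ENNReal.ofReal (Pos_f La (Z q))) = ENNReal.ofReal (F (Z q)) := by
    intro q
    rw [hF]
    simp only
    rw [ENNReal.ofReal_min, ENNReal.ofReal_natCast]
  calc ∫⁻ q, min (C : ℝ≥0∞) ((ENNReal.ofReal ∘ fun q => Pos_f La (Z q)) q) ∂(Q₁.prod Pb)
      = ∫⁻ q, ENNReal.ofReal (F (Z q)) ∂(Q₁.prod Pb) := lintegral_congr hmin
    _ = ENNReal.ofReal (∫ q, F (Z q) ∂(Q₁.prod Pb)) :=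
        (ofReal_integral_eq_lintegral_ofReal hintZ (ae_of_all _ fun q => hF0 _)).symm
    _ ≤ _ := ENNReal.ofReal_le_ofReal hfin

variable {Ω : Type*} [MeasurableSpace Ω] {P : Measure Ω} [IsProbabilityMeasure P]
  {S : Ω → ℝ × ℝ → ℝ} {Ωb : Type*} [MeasurableSpace Ωb] {Pb : Measure Ωb}
  [IsProbabilityMeasure Pb] {b : Ωb → ℝ → ℝ}

/-- (3.3), `dR < dL`; from `pos_fin` by `law_transfer` and monotone convergence -/
theorem pos (hS : IsAirySheet P S) (hb : IsBM Pb b) {dL dR : ℝ} (y : ℝ) (h : dR < dL)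
    {ι : Type*} [Countable ι] (u : ι → ℝ) :
    ∫⁻ q, ⨆ i, ENNReal.ofReal (Real.exp ((dL - dR) / 2 *
        (S q.1 (u i, y) + b q.2 (u i) + dr dL dR (u i)))) ∂(P.prod Pb) ≤
      ENNReal.ofReal (Real.exp (expL dL dR y)) := by
  rcases isEmpty_or_nonempty ι with hι | hι
  · simp
  obtain ⟨e, he⟩ := exists_surjective_nat ι
  obtain ⟨Ω₁, _, Q₁, S', w, hQ₁, hw, hS', hS'c, hlaw, hlim⟩ := hS.limit
  set a : ι → Ω × Ωb → ℝ≥0∞ := fun i q => ENNReal.ofReal (Real.exp ((dL - dR) / 2 *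
        (S q.1 (u i, y) + b q.2 (u i) + dr dL dR (u i)))) with ha
  have ham : ∀ i, Measurable (a i) := fun i => by
    refine (Real.measurable_exp.comp (Measurable.const_mul ?_ _)).ennreal_ofReal
    exact (((hS.meas _).comp measurable_fst).add ((hb.meas _).comp measurable_snd)).add_const _
  have hsup : ∀ q, (⨆ i, a i q) = ⨆ m : ℕ, ⨆ j : Fin m, a (e j) q := by
    intro q
    apply le_antisymm
    · refine iSup_le fun i => ?_
      obtain ⟨n, rfl⟩ := he i
      exact (le_iSup (fun j : Fin (n + 1) => a (e j) q) ⟨n, Nat.lt_succ_self n⟩).trans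
        (le_iSup (fun m : ℕ => ⨆ j : Fin m, a (e j) q) (n + 1))
    · exact iSup_le fun m => iSup_le fun j => le_iSup (fun i => a i q) (e j)
  change ∫⁻ q, (⨆ i, a i q) ∂(P.prod Pb) ≤ _
  simp_rw [hsup]
  rw [lintegral_iSup (fun m => Measurable.iSup fun j => ham _)]
  · refine iSup_le fun m => ?_
    have h1 := pos_fin hw hS' hlim hb y h (fun j : Fin m => u (e j))
    set G : (ℝ × ℝ → ℝ) × Ωb → ℝ≥0∞ := fun p => ⨆ j : Fin m, ENNReal.ofReal
      (Real.exp ((dL - dR) / 2 * (p.1 (u (e j), y) + b p.2 (u (e j)) + dr dL dR (u (e j)))))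
      with hG
    have hGm : Measurable G := by
      refine Measurable.iSup fun j => ?_
      refine (Real.measurable_exp.comp (Measurable.const_mul ?_ _)).ennreal_ofReal
      exact (((measurable_pi_apply ((u (e j), y) : ℝ × ℝ)).comp measurable_fst).add
        ((hb.meas _).comp measurable_snd)).add_const _
    have h2 := law_transfer (Pb := Pb) hS' hS.meas hlaw hGm
    calc ∫⁻ q, ⨆ j : Fin m, a (e j) q ∂(P.prod Pb) = ∫⁻ q, G (S q.1, q.2) ∂(P.prod Pb) := rfl
      _ = ∫⁻ q, G (S' q.1, q.2) ∂(Q₁.prod Pb) := h2.symm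
      _ ≤ _ := h1
  · intro m m' hmm q
    exact iSup_le fun j => le_iSup (fun j : Fin m' => a (e j) q) ⟨j, by omega⟩

end Pool.Agent.H15.DL
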