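import Pool.Agent.H15.DL.Base

/-! # PK2b: the scales -/

open MeasureTheory ProbabilityTheory Filter Topology Set
open scoped ENNReal

namespace Pool.Agent.H15.DL

open Pool.Agent.H37.DL

theorem sc_pos {n : ℕ} (hn : 1 ≤ n) : 0 < sc n := by
  unfold sc
  have : (0 : ℝ) < n := by exact_mod_cast hn
  positivity

theorem rt_pos {n : ℕ} (hn : 1 ≤ n) : 0 < rt n := by
  unfold rt
  have : (0 : ℝ) < n := by exact_mod_cast hn
  positivity

theorem rt_sq (n : ℕ) : rt n ^ 2 = 2 * sc n := by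
  unfold rt sc
  have hn : (0 : ℝ) ≤ n := Nat.cast_nonneg n
  rw [mul_pow, ← Real.rpow_natCast, ← Real.rpow_natCast, ← Real.rpow_mul (by norm_num),
    ← Real.rpow_mul hn, ← mul_assoc]
  congr 1
  · have : (2 : ℝ) * 2 ^ (5 / 3 : ℝ) = 2 ^ (1 + 5 / 3 : ℝ) := by
      rw [Real.rpow_add (by norm_num), Real.rpow_one]
    rw [this]
    norm_num
  · norm_num

theorem sc_sq (n : ℕ) : sc n ^ 2 = 4 * n * rt n := by
  unfold rt sc
  rcases Nat.eq_zero_or_pos n with h | h
  · subst h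
    simp [Real.zero_rpow]
  · have hn : (0 : ℝ) < n := by exact_mod_cast h
    have e1 : ((2 : ℝ) ^ (5 / 3 : ℝ)) ^ 2 = 4 * 2 ^ (4 / 3 : ℝ) := by
      rw [← Real.rpow_natCast, ← Real.rpow_mul (by norm_num)]
      have : (4 : ℝ) = 2 ^ (2 : ℝ) := by norm_num
      rw [this, ← Real.rpow_add (by norm_num)]
      norm_num
    have e2 : ((n : ℝ) ^ (2 / 3 : ℝ)) ^ 2 = n * (n : ℝ) ^ (1 / 3 : ℝ) := by
      rw [← Real.rpow_natCast, ← Real.rpow_mul hn.le]
      have : (n : ℝ) * (n : ℝ) ^ (1 / 3 : ℝ) = (n : ℝ) ^ (1 + 1 / 3 : ℝ) := by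
        rw [Real.rpow_add hn, Real.rpow_one]
      rw [this]
      norm_num
    rw [mul_pow, e1, e2]
    ring

theorem sc_mul_sq {n : ℕ} (hn : 1 ≤ n) : sc n * (rt n / sc n) ^ 2 = 2 := by
  have h1 := sc_pos hn
  rw [div_pow, rt_sq]
  field_simp

theorem n_mul_cube {n : ℕ} (hn : 1 ≤ n) : n * (rt n / sc n) ^ 3 = 1 / 2 := by
  have h1 := sc_pos hn
  have h2 := rt_sq n
  have h3 := sc_sq n
  rw [div_pow, ← mul_div_assoc, div_eq_div_iff (by positivity) (by norm_num)]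
  have : 2 * (n * rt n ^ 3) = sc n ^ 3 := by
    calc 2 * (n * rt n ^ 3) = 2 * (n * (rt n * rt n ^ 2)) := by ring
      _ = 2 * (n * (rt n * (2 * sc n))) := by rw [h2]
      _ = (4 * n * rt n) * sc n := by ring
      _ = sc n ^ 3 := by rw [← h3]; ring
  linarith

theorem tendsto_sc : Tendsto (fun n : ℕ => sc n) atTop atTop := by
  unfold sc
  refine Tendsto.const_mul_atTop (by positivity) ?_
  exact (tendsto_rpow_atTop (by norm_num)).comp tendsto_natCast_atTop_atTop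

theorem tendsto_rt : Tendsto (fun n : ℕ => rt n) atTop atTop := by
  unfold rt
  refine Tendsto.const_mul_atTop (by positivity) ?_
  exact (tendsto_rpow_atTop (by norm_num)).comp tendsto_natCast_atTop_atTop

theorem tendsto_rho : Tendsto (fun n : ℕ => rt n / sc n) atTop (𝓝 0) := by
  have h : Tendsto (fun n => 2 / rt n) atTop (𝓝 0) := tendsto_const_nhds.div_atTop tendsto_rt
  refine h.congr' ?_
  filter_upwards [eventually_ge_atTop 1] with n hn
  have h1 := sc_pos hn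
  have h2 := rt_pos hn
  rw [div_eq_div_iff h2.ne' h1.ne', ← rt_sq, sq]

theorem tendsto_sc_div : Tendsto (fun n : ℕ => sc n / n) atTop (𝓝 0) := by
  have h1 : Tendsto (fun n : ℕ => 2 ^ (5 / 3 : ℝ) * (n : ℝ) ^ (-(1 / 3) : ℝ)) atTop (𝓝 0) := by
    have := (tendsto_rpow_neg_atTop (y := (1 / 3 : ℝ)) (by norm_num)).comp
      (tendsto_natCast_atTop_atTop (R := ℝ))
    simpa using this.const_mul ((2 : ℝ) ^ (5 / 3 : ℝ))
  refine h1.congr' ?_
  filter_upwards [eventually_ge_atTop 1] with n hn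
  have hn' : (0 : ℝ) < n := by exact_mod_cast hn
  unfold sc
  rw [mul_div_assoc]
  congr 1
  rw [show (-(1 / 3) : ℝ) = 2 / 3 - 1 by norm_num, Real.rpow_sub_one hn'.ne']

theorem tendsto_floor (x : ℝ) : Tendsto (fun n : ℕ => (⌊sc n * x⌋ : ℝ) / sc n) atTop (𝓝 x) := by
  have h0 : Tendsto (fun n : ℕ => 1 / sc n) atTop (𝓝 0) :=
    tendsto_const_nhds.div_atTop tendsto_sc
  have h1 : Tendsto (fun n : ℕ => x - 1 / sc n) atTop (𝓝 x) := by
    simpa using tendsto_const_nhds.sub h0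
  refine tendsto_of_tendsto_of_tendsto_of_le_of_le' h1 tendsto_const_nhds ?_ ?_
  · filter_upwards [eventually_ge_atTop 1] with n hn
    have hs := sc_pos hn
    rw [le_div_iff₀ hs, sub_mul, one_div, inv_mul_cancel₀ hs.ne']
    linarith [Int.lt_floor_add_one (sc n * x)]
  · filter_upwards [eventually_ge_atTop 1] with n hn
    have hs := sc_pos hn
    rw [div_le_iff₀ hs]
    linarith [Int.floor_le (sc n * x)]

theorem tendsto_floor_div (x : ℝ) :
    Tendsto (fun n : ℕ => (⌊sc n * x⌋ : ℝ) / n) atTop (𝓝 0) := by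
  have h := (tendsto_floor x).mul tendsto_sc_div
  rw [mul_zero] at h
  refine h.congr' ?_
  filter_upwards [eventually_ge_atTop 1] with n hn
  have hs := sc_pos hn
  have hn' : (0 : ℝ) < n := by exact_mod_cast hn
  field_simp

theorem cn_eq (y : ℝ) : ∀ᶠ n : ℕ in atTop, ((cn y n : ℕ) : ℤ) = (n : ℤ) + ⌊sc n * y⌋ := by
  filter_upwards [(tendsto_floor_div y).eventually_const_lt (show (-1 : ℝ) < 0 by norm_num),
    eventually_ge_atTop 1] with n h hn
  have hn' : (0 : ℝ) < n := by exact_mod_cast hn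
  rw [lt_div_iff₀ hn'] at h
  have : (0 : ℤ) ≤ (n : ℤ) + ⌊sc n * y⌋ := by
    have : (0 : ℝ) ≤ ((n : ℤ) + ⌊sc n * y⌋ : ℤ) := by push_cast; linarith
    exact_mod_cast this
  unfold cn
  exact Int.toNat_of_nonneg this

/-- the columns at distance of order `sc n` are far from `- n` and from `cn y n` -/
theorem floor_mem (x y : ℝ) : ∀ᶠ n : ℕ in atTop,
    -(n : ℤ) < ⌊sc n * x⌋ ∧ ⌊sc n * x⌋ ≤ (cn y n : ℤ) := by
  filter_upwards [(tendsto_floor_div x).eventually_const_lt (show (-1 : ℝ) < 0 by norm_num),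
    (tendsto_floor_div x).eventually_lt_const (show (0 : ℝ) < 1 / 2 by norm_num),
    (tendsto_floor_div y).eventually_const_lt (show (-(1 / 2) : ℝ) < 0 by norm_num),
    eventually_ge_atTop 1, cn_eq y] with n h1 h2 h3 hn h4
  have hn' : (0 : ℝ) < n := by exact_mod_cast hn
  rw [lt_div_iff₀ hn'] at h1 h3
  rw [div_lt_iff₀ hn'] at h2
  constructor
  · have : (-(n : ℝ)) < (⌊sc n * x⌋ : ℝ) := by linarith
    exact_mod_cast this
  · rw [h4]
    have : ((⌊sc n * x⌋ : ℤ) : ℝ) ≤ ((n : ℤ) + ⌊sc n * y⌋ : ℤ) := by push_cast; linarith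
    exact_mod_cast this

theorem cn_tendsto (y : ℝ) : Tendsto (fun n : ℕ => ((cn y n : ℝ) - n) / sc n) atTop (𝓝 y) := by
  refine (tendsto_floor y).congr' ?_
  filter_upwards [cn_eq y] with n h
  have : (cn y n : ℝ) = (n : ℝ) + ⌊sc n * y⌋ := by exact_mod_cast congrArg (Int.cast (R := ℝ)) h
  rw [this]
  ring

theorem tendsto_ra (d : ℝ) : Tendsto (fun n : ℕ => ra d n) atTop (𝓝 (1 / 2)) := by
  unfold ra
  have := (((tendsto_rho.const_mul d).div_const 4).const_sub (1 / 2))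
  simpa using this

theorem ra_mem (d : ℝ) : ∀ᶠ n : ℕ in atTop, 3 / 8 ≤ ra d n ∧ ra d n ≤ 5 / 8 := by
  filter_upwards [(tendsto_ra d).eventually_const_le (show (3 / 8 : ℝ) < 1 / 2 by norm_num),
    (tendsto_ra d).eventually_le_const (show (1 / 2 : ℝ) < 5 / 8 by norm_num)] with n h1 h2
  exact ⟨h1, h2⟩

theorem ra_anti {n : ℕ} (hn : 1 ≤ n) {d d' : ℝ} (h : d ≤ d') : ra d' n ≤ ra d n := by
  unfold ra
  have h1 : 0 < rt n / sc n := div_pos (rt_pos hn) (sc_pos hn)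
  have := mul_le_mul_of_nonneg_right h h1.le
  linarith

theorem ra_sub {n : ℕ} (hn : 1 ≤ n) (dL dR : ℝ) :
    (ra dR n - ra dL n) * rt n = (dL - dR) / 2 := by
  unfold ra
  have h1 := sc_pos hn
  have h2 := rt_sq n
  have : (1 / 2 - dR * (rt n / sc n) / 4 - (1 / 2 - dL * (rt n / sc n) / 4)) * rt n =
      (dL - dR) / 4 * (rt n ^ 2 / sc n) := by ring
  rw [this, h2]
  field_simp
  ring

end Pool.Agent.H15.DL
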