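import Pool.Agent.H15.DL.Pos

/-! # PK2b: the upper tail (3.5).  `hsym` is a consequence of the symmetries of the sheet. -/

open MeasureTheory ProbabilityTheory Filter Topology Set
open scoped ENNReal

namespace Pool.Agent.H15.DL

open Pool.Agent.H37.DL

variable {Ω : Type*} [MeasurableSpace Ω] {P : Measure Ω} [IsProbabilityMeasure P]
  {S : Ω → ℝ × ℝ → ℝ} {Ωb : Type*} [MeasurableSpace Ωb] {Pb : Measure Ωb}
  [IsProbabilityMeasure Pb] {b : Ωb → ℝ → ℝ}

/-- (3.4), positive exponent: `pos` for the sheet `S (x - p.2, x - p.1)` at `y = x`, with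
`dR = -2 x - a`, `dL = -2 x + a` -/
theorem pos_par {x : ℝ} (hsym : IsAirySheet P fun ω p => S ω (x - p.2, x - p.1))
    (hb : IsBM Pb b) {a : ℝ} (ha : 0 < a) {ι : Type*} [Countable ι] (u : ι → ℝ) :
    ∫⁻ q, ⨆ i, ENNReal.ofReal (Real.exp (a * (S q.1 (0, x - u i) + (x - u i) ^ 2 - (u i) ^ 2
        + b q.2 (u i) - a * |u i|))) ∂(P.prod Pb) ≤ ENNReal.ofReal (Real.exp (a ^ 3 / 12)) := by
  have h0 := pos hsym hb (dL := -2 * x + a) (dR := -2 * x - a) x (by linarith) u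
  have e1 : ((-2 * x + a) - (-2 * x - a)) / 2 = a := by ring
  have e2 : expL (-2 * x + a) (-2 * x - a) x = a ^ 3 / 12 - a * x ^ 2 := by
    unfold expL; ring
  rw [e1, e2] at h0
  have e3 : ∀ v : ℝ, dr (-2 * x + a) (-2 * x - a) v = -2 * x * v - a * |v| := by
    intro v
    unfold dr
    rcases le_total 0 v with hv | hv
    · rw [max_eq_left hv, max_eq_right (by linarith), abs_of_nonneg hv]; ring
    · rw [max_eq_right hv, max_eq_left (by linarith), abs_of_nonpos hv]; ring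
  have e4 : ∀ (q : Ω × Ωb) (i : ι), ENNReal.ofReal (Real.exp (a * (S q.1 (0, x - u i)
      + (x - u i) ^ 2 - (u i) ^ 2 + b q.2 (u i) - a * |u i|))) =
      ENNReal.ofReal (Real.exp (a * x ^ 2)) * ENNReal.ofReal (Real.exp (a *
        (S q.1 (x - x, x - u i) + b q.2 (u i) + dr (-2 * x + a) (-2 * x - a) (u i)))) := by
    intro q i
    rw [← ENNReal.ofReal_mul (Real.exp_pos _).le, ← Real.exp_add, e3, sub_self]
    congr 2
    ring
  have e5 : ∀ q : Ω × Ωb, (⨆ i, ENNReal.ofReal (Real.exp (a * (S q.1 (0, x - u i)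
      + (x - u i) ^ 2 - (u i) ^ 2 + b q.2 (u i) - a * |u i|)))) =
      ENNReal.ofReal (Real.exp (a * x ^ 2)) * ⨆ i, ENNReal.ofReal (Real.exp (a *
        (S q.1 (x - x, x - u i) + b q.2 (u i) + dr (-2 * x + a) (-2 * x - a) (u i)))) := by
    intro q
    rw [ENNReal.mul_iSup]
    exact iSup_congr fun i => e4 q i
  calc ∫⁻ q, ⨆ i, ENNReal.ofReal (Real.exp (a * (S q.1 (0, x - u i) + (x - u i) ^ 2 - (u i) ^ 2
        + b q.2 (u i) - a * |u i|))) ∂(P.prod Pb)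
      = ∫⁻ q, ENNReal.ofReal (Real.exp (a * x ^ 2)) * ⨆ i, ENNReal.ofReal (Real.exp (a *
        (S q.1 (x - x, x - u i) + b q.2 (u i) + dr (-2 * x + a) (-2 * x - a) (u i))))
          ∂(P.prod Pb) := lintegral_congr e5
    _ = ENNReal.ofReal (Real.exp (a * x ^ 2)) * ∫⁻ q, ⨆ i, ENNReal.ofReal (Real.exp (a *
        (S q.1 (x - x, x - u i) + b q.2 (u i) + dr (-2 * x + a) (-2 * x - a) (u i))))
          ∂(P.prod Pb) := lintegral_const_mul' _ _ ENNReal.ofReal_ne_top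
    _ ≤ ENNReal.ofReal (Real.exp (a * x ^ 2)) *
        ENNReal.ofReal (Real.exp (a ^ 3 / 12 - a * x ^ 2)) := by
        gcongr
    _ = ENNReal.ofReal (Real.exp (a ^ 3 / 12)) := by
        rw [← ENNReal.ofReal_mul (Real.exp_pos _).le, ← Real.exp_add]
        congr 2
        ring

/-- the Brownian motion stays above `-4` on `[-1, 1]` with probability at least `1/2` -/
theorem bm_low (hb : IsBM Pb b) :
    1 / 2 ≤ Pb {ω | ∀ u : ℝ, |u| ≤ 1 → -4 ≤ b ω u} := by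
  have h1 := hb.neg.sup_le (T := 1) (r := 4) one_pos (by norm_num)
  have h2 := hb.neg.reflect.sup_le (T := 1) (r := 4) one_pos (by norm_num)
  have e : Real.exp (-(4 ^ 2) / (4 * 1)) ≤ 1 / 8 := by
    have : (-(4 ^ 2) / (4 * 1) : ℝ) = -4 := by norm_num
    rw [this, Real.exp_neg]
    have h3 := Real.add_one_le_exp (4 : ℝ)
    have h4 : (8 : ℝ) ≤ Real.exp 4 := by
      have : Real.exp 4 = Real.exp 2 * Real.exp 2 := by rw [← Real.exp_add]; norm_num
      have h5 := Real.add_one_le_exp (2 : ℝ)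
      nlinarith
    rw [one_div]
    exact inv_anti₀ (by norm_num) h4
  have hu : (Set.univ : Set Ωb) ⊆ {ω | ∀ u : ℝ, |u| ≤ 1 → -4 ≤ b ω u} ∪
      ({ω | ∃ x ∈ Set.Icc (0 : ℝ) 1, 4 ≤ -b ω x} ∪ {ω | ∃ x ∈ Set.Icc (0 : ℝ) 1, 4 ≤ -b ω (-x)}) := by
    intro ω _
    by_cases h : ∀ u : ℝ, |u| ≤ 1 → -4 ≤ b ω u
    · exact Or.inl h
    · right
      push Not at h
      obtain ⟨u, hu, hbu⟩ := h
      rcases le_total 0 u with h0 | h0
      · left
        rw [abs_of_nonneg h0] at hu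
        exact ⟨u, ⟨h0, hu⟩, by linarith⟩
      · right
        rw [abs_of_nonpos h0] at hu
        refine ⟨-u, ⟨by linarith, hu⟩, ?_⟩
        rw [neg_neg]
        linarith
  have h3 : (1 : ℝ≥0∞) ≤ Pb {ω | ∀ u : ℝ, |u| ≤ 1 → -4 ≤ b ω u} + 1 / 2 := by
    calc (1 : ℝ≥0∞) = Pb Set.univ := measure_univ.symm
      _ ≤ Pb ({ω | ∀ u : ℝ, |u| ≤ 1 → -4 ≤ b ω u} ∪
      ({ω | ∃ x ∈ Set.Icc (0 : ℝ) 1, 4 ≤ -b ω x} ∪
        {ω | ∃ x ∈ Set.Icc (0 : ℝ) 1, 4 ≤ -b ω (-x)})) := measure_mono hu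
      _ ≤ Pb {ω | ∀ u : ℝ, |u| ≤ 1 → -4 ≤ b ω u} +
        (Pb {ω | ∃ x ∈ Set.Icc (0 : ℝ) 1, 4 ≤ -b ω x} +
          Pb {ω | ∃ x ∈ Set.Icc (0 : ℝ) 1, 4 ≤ -b ω (-x)}) :=
        (measure_union_le _ _).trans (by gcongr; exact measure_union_le _ _)
      _ ≤ Pb {ω | ∀ u : ℝ, |u| ≤ 1 → -4 ≤ b ω u} + (ENNReal.ofReal (1 / 4) +
        ENNReal.ofReal (1 / 4)) := by
        gcongr
        · exact h1.trans (ENNReal.ofReal_le_ofReal (by linarith))
        · exact h2.trans (ENNReal.ofReal_le_ofReal (by linarith))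
      _ = Pb {ω | ∀ u : ℝ, |u| ≤ 1 → -4 ≤ b ω u} + 1 / 2 := by
        congr 1
        rw [← ENNReal.ofReal_add (by norm_num) (by norm_num)]
        rw [show (1 / 4 + 1 / 4 : ℝ) = (1 / 2 : ℝ) by norm_num,
          ENNReal.ofReal_div_of_pos (by norm_num)]
        simp
  have h4 : (1 / 2 + 1 / 2 : ℝ≥0∞) ≤ Pb {ω | ∀ u : ℝ, |u| ≤ 1 → -4 ≤ b ω u} + 1 / 2 := by
    rw [ENNReal.add_halves]
    exact h3
  exact (ENNReal.add_le_add_iff_right (by simp)).mp h4

/-- upper tail T2 (3.5) -/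
theorem upper (hc : ∀ ω, Continuous (S ω))
    (hsym : ∀ x : ℝ, IsAirySheet P fun ω p => S ω (x - p.2, x - p.1)) :
    ∃ C : ℝ, 0 < C ∧ ∀ x h : ℝ, 1 ≤ h →
    P {ω | ∃ y, |y - x| ≤ 1 ∧ h ≤ S ω (0, y) + y ^ 2} ≤
      ENNReal.ofReal (C * Real.exp (-(4 / 3) * h ^ (3 / 2 : ℝ) + C * h)) := by
  refine ⟨16, by norm_num, fun x h hh => ?_⟩
  obtain ⟨Ωb, mb, Pb, b, hPb, hb⟩ := exists_isBM
  set s := Real.sqrt h with hs
  have hs0 : 0 < s := Real.sqrt_pos.mpr (by linarith)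
  have hss : s * s = h := Real.mul_self_sqrt (by linarith)
  have hs1 : 1 ≤ s := by
    rw [hs]; exact Real.one_le_sqrt.mpr hh
  have hs3 : h ^ (3 / 2 : ℝ) = s ^ 3 := by
    rw [hs, Real.sqrt_eq_rpow, ← Real.rpow_natCast, ← Real.rpow_mul (by linarith)]
    norm_num
  set a := 2 * s with ha
  have ha0 : 0 < a := by positivity
  -- the measurable event
  set F : Set Ω := {ω | ∃ u : {q : ℚ // |(q : ℝ)| ≤ 1}, h - 1 < S ω (0, x - (u : ℚ)) +
    (x - (u : ℚ)) ^ 2} with hF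
  set G : Set Ωb := {ω | ∀ u : {q : ℚ // |(q : ℝ)| ≤ 1}, -4 ≤ b ω (u : ℚ)} with hG
  have hmS : ∀ p : ℝ × ℝ, Measurable fun ω => S ω p := by
    intro p
    have := (hsym 0).meas (-p.2, -p.1)
    simpa using this
  have hFm : MeasurableSet F := by
    have : F = ⋃ u : {q : ℚ // |(q : ℝ)| ≤ 1}, {ω | h - 1 < S ω (0, x - (u : ℚ)) +
        (x - (u : ℚ)) ^ 2} := by
      ext ω; simp [hF]
    rw [this]
    exact MeasurableSet.iUnion fun u => measurableSet_lt measurable_const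
      ((hmS _).add_const _)
  have hGm : MeasurableSet G := by
    have : G = ⋂ u : {q : ℚ // |(q : ℝ)| ≤ 1}, {ω | -4 ≤ b ω (u : ℚ)} := by
      ext ω; simp [hG]
    rw [this]
    exact MeasurableSet.iInter fun u => measurableSet_le measurable_const (hb.meas _)
  have hGh : 1 / 2 ≤ Pb G := (bm_low hb).trans (measure_mono fun ω hω u => hω _ u.2)
  have hEF : {ω | ∃ y, |y - x| ≤ 1 ∧ h ≤ S ω (0, y) + y ^ 2} ⊆ F := by
    rintro ω ⟨y, hy, hyh⟩
    have hcont : Continuous fun v : ℝ => S ω (0, x - v) + (x - v) ^ 2 := by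
      have := hc ω
      fun_prop
    have hopen : IsOpen {v : ℝ | h - 1 < S ω (0, x - v) + (x - v) ^ 2} :=
      isOpen_lt continuous_const hcont
    -- `x - y` is in the closed interval and in the open set
    have hmem : (x - y) ∈ {v : ℝ | h - 1 < S ω (0, x - v) + (x - v) ^ 2} := by
      change h - 1 < S ω (0, x - (x - y)) + (x - (x - y)) ^ 2
      rw [sub_sub_cancel]
      linarith
    have hcl : (x - y) ∈ closure (Set.Ioo (-1 : ℝ) 1) := by
      rw [closure_Ioo (by norm_num)]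
      rw [abs_sub_comm] at hy
      exact abs_le.mp hy
    obtain ⟨v, hv1, hv2⟩ := mem_closure_iff.mp hcl _ hopen hmem
    obtain ⟨q, hq⟩ := (Rat.denseRange_cast (𝕜 := ℝ)).exists_mem_open
      (hopen.inter (isOpen_Ioo (a := (-1 : ℝ)) (b := 1))) ⟨v, hv1, hv2⟩
    exact ⟨⟨q, (abs_lt.mpr hq.2).le⟩, hq.1⟩
  have key := pos_par (hsym x) hb ha0 (fun u : {q : ℚ // |(q : ℝ)| ≤ 1} => ((u : ℚ) : ℝ))
  -- Markov
  have hM : ENNReal.ofReal (Real.exp (a * (h - 6 - a))) * (P F * Pb G) ≤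
      ENNReal.ofReal (Real.exp (a ^ 3 / 12)) := by
    calc ENNReal.ofReal (Real.exp (a * (h - 6 - a))) * (P F * Pb G)
        = ∫⁻ q in F ×ˢ G, ENNReal.ofReal (Real.exp (a * (h - 6 - a))) ∂(P.prod Pb) := by
          rw [setLIntegral_const, Measure.prod_prod]
      _ ≤ ∫⁻ q in F ×ˢ G, ⨆ i : {q : ℚ // |(q : ℝ)| ≤ 1}, ENNReal.ofReal (Real.exp (a *
          (S q.1 (0, x - (i : ℚ)) + (x - (i : ℚ)) ^ 2 - ((i : ℚ) : ℝ) ^ 2
          + b q.2 (i : ℚ) - a * |((i : ℚ) : ℝ)|))) ∂(P.prod Pb) := by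
          apply setLIntegral_mono' (hFm.prod hGm)
          rintro ⟨ω, ω'⟩ ⟨⟨u, hu⟩, hω'⟩
          refine le_trans ?_ (le_iSup _ u)
          apply ENNReal.ofReal_le_ofReal
          apply Real.exp_le_exp.mpr
          apply mul_le_mul_of_nonneg_left _ ha0.le
          have h1 := hω' u
          have h2 := u.2
          have h3 : ((u : ℚ) : ℝ) ^ 2 ≤ 1 := by
            rw [← sq_abs]
            have := abs_nonneg ((u : ℚ) : ℝ)
            nlinarith
          have h4 : a * |((u : ℚ) : ℝ)| ≤ a := by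
            nlinarith
          simp only at hu ⊢
          linarith
      _ ≤ ∫⁻ q, ⨆ i : {q : ℚ // |(q : ℝ)| ≤ 1}, ENNReal.ofReal (Real.exp (a *
          (S q.1 (0, x - (i : ℚ)) + (x - (i : ℚ)) ^ 2 - ((i : ℚ) : ℝ) ^ 2
          + b q.2 (i : ℚ) - a * |((i : ℚ) : ℝ)|))) ∂(P.prod Pb) := setLIntegral_le_lintegral _ _
      _ ≤ _ := key
  have hPF : P F ≤ ENNReal.ofReal (2 * Real.exp (a ^ 3 / 12 - a * (h - 6 - a))) := by
    have e1 : ENNReal.ofReal (Real.exp (a * (h - 6 - a))) * P F * (1 / 2) ≤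
        ENNReal.ofReal (Real.exp (a ^ 3 / 12)) := by
      refine le_trans ?_ hM
      rw [mul_assoc]
      gcongr
    have e2 : P F = ENNReal.ofReal (2 * Real.exp (-(a * (h - 6 - a)))) *
        (ENNReal.ofReal (Real.exp (a * (h - 6 - a))) * P F * (1 / 2)) := by
      have e3 : (1 / 2 : ℝ≥0∞) = ENNReal.ofReal (1 / 2) := by
        rw [ENNReal.ofReal_div_of_pos (by norm_num)]
        simp
      rw [e3]
      have e4 : ENNReal.ofReal (2 * Real.exp (-(a * (h - 6 - a)))) *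
        (ENNReal.ofReal (Real.exp (a * (h - 6 - a))) * P F * ENNReal.ofReal (1 / 2)) =
        (ENNReal.ofReal (2 * Real.exp (-(a * (h - 6 - a)))) *
        ENNReal.ofReal (Real.exp (a * (h - 6 - a))) * ENNReal.ofReal (1 / 2)) * P F := by ring
      rw [e4, ← ENNReal.ofReal_mul (by positivity), ← ENNReal.ofReal_mul (by positivity)]
      have e5 : 2 * Real.exp (-(a * (h - 6 - a))) * Real.exp (a * (h - 6 - a)) * (1 / 2) = 1 := by
        rw [mul_assoc 2, ← Real.exp_add, neg_add_cancel, Real.exp_zero]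
        norm_num
      rw [e5]
      simp
    rw [e2]
    refine (mul_le_mul_right e1 _).trans ?_
    rw [← ENNReal.ofReal_mul (by positivity)]
    apply ENNReal.ofReal_le_ofReal
    rw [mul_assoc, ← Real.exp_add]
    apply mul_le_mul_of_nonneg_left _ (by norm_num)
    apply Real.exp_le_exp.mpr
    linarith
  refine (measure_mono hEF).trans (hPF.trans (ENNReal.ofReal_le_ofReal ?_))
  have e1 : a ^ 3 / 12 - a * (h - 6 - a) ≤ -(4 / 3) * h ^ (3 / 2 : ℝ) + 16 * h := by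
    rw [hs3, ha, ← hss]
    nlinarith [mul_nonneg hs0.le (sub_nonneg.mpr hs1)]
  calc 2 * Real.exp (a ^ 3 / 12 - a * (h - 6 - a))
      ≤ 16 * Real.exp (a ^ 3 / 12 - a * (h - 6 - a)) := by
        have := Real.exp_pos (a ^ 3 / 12 - a * (h - 6 - a))
        linarith
    _ ≤ 16 * Real.exp (-(4 / 3) * h ^ (3 / 2 : ℝ) + 16 * h) := by
        gcongr

end Pool.Agent.H15.DL
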