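import Pool.Agent.H15.DL.NegPar
import Pool.Agent.H15.DL.Upper
import Pool.Agent.H15.DL.Outside
import Pool.Agent.H15.DL.BMWin

/-! # PK2b: the window lower tail (3.6) -/

open MeasureTheory ProbabilityTheory Filter Topology Set
open scoped ENNReal

namespace Pool.Agent.H15.DL

open Pool.Agent.H37.DL

variable {Ω : Type*} [MeasurableSpace Ω] {P : Measure Ω} [IsProbabilityMeasure P]
  {S : Ω → ℝ × ℝ → ℝ}

/-- on the good event the functional is at most `-κ ^ 2 + C κ` -/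
theorem window_det {κ C s β v y : ℝ} (hκ : 0 < κ)
    (hW : |v| ≤ 1.05 * κ → s + y ^ 2 - v ^ 2 ≤ -κ ^ 2)
    (hO : s + y ^ 2 ≤ 0.01 * (κ ^ 2 + v ^ 2))
    (hB1 : |v| ≤ 1.05 * κ → β + 2 * κ * |v| ≤ C * κ)
    (hB2 : 1.05 * κ ≤ |v| → β + 2 * κ * |v| ≤
      (2 + 0.01) * κ * (|v| - 1.05 * κ) + 0.01 * κ ^ 2 + C * κ) :
    s + y ^ 2 - v ^ 2 + β + 2 * κ * |v| ≤ -κ ^ 2 + C * κ := by
  rcases le_total |v| (1.05 * κ) with h | h
  · have h1 := hW h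
    have h2 := hB1 h
    linarith
  · have h2 := hB2 h
    have hv : v ^ 2 = |v| ^ 2 := (sq_abs v).symm
    rw [hv] at hO ⊢
    obtain ⟨t, ht⟩ : ∃ t, |v| = 1.05 * κ + t := ⟨|v| - 1.05 * κ, by ring⟩
    have ht0 : 0 ≤ t := by linarith
    rw [ht] at h2 hO ⊢
    nlinarith [mul_nonneg hκ.le ht0, mul_nonneg ht0 ht0, mul_pos hκ hκ]

/-- window lower tail T3 (3.6) -/
theorem window (hc : ∀ ω, Continuous (S ω))
    (hsym : ∀ x : ℝ, IsAirySheet P fun ω p => S ω (x - p.2, x - p.1))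
    (hharris : ∀ (I J : Set ℝ), I.Countable → J.Countable → ∀ u v : ℝ → ℝ,
      P {ω | ∀ x ∈ I, S ω (0, x) ≤ u x} * P {ω | ∀ x ∈ J, S ω (0, x) ≤ v x} ≤
        P {ω | (∀ x ∈ I, S ω (0, x) ≤ u x) ∧ ∀ x ∈ J, S ω (0, x) ≤ v x}) :
    ∃ κ₀ : ℝ, 0 < κ₀ ∧ ∀ x κ : ℝ, κ₀ ≤ κ →
    P {ω | ∀ u, |u| ≤ 1.05 * κ → S ω (0, x + u) + (x + u) ^ 2 - u ^ 2 ≤ -κ ^ 2} ≤
      ENNReal.ofReal (Real.exp (-0.55 * κ ^ 3)) := by
  obtain ⟨Ωb, mb, Pb, b, hPb, hb⟩ := exists_isBM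
  obtain ⟨C₁, hC₁, hup⟩ := upper hc hsym
  obtain ⟨κ₁, hκ₁, hout⟩ := outside hC₁ hup (e := 0.01) (by norm_num)
  obtain ⟨C, hC, κ₂, hκ₂, hbm⟩ := bm_window hb (e := 0.01) (by norm_num)
  refine ⟨max (max κ₁ κ₂) (60 * (3 * C + 1)), by positivity, fun x κ hκ => ?_⟩
  have hk1 : κ₁ ≤ κ := le_trans (le_trans (le_max_left _ _) (le_max_left _ _)) hκ
  have hk2 : κ₂ ≤ κ := le_trans (le_trans (le_max_right _ _) (le_max_left _ _)) hκ
  have hk3 : 60 * (3 * C + 1) ≤ κ := le_trans (le_max_right _ _) hκ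
  have hkpos : 0 < κ := lt_of_lt_of_le hκ₁ hk1
  set W : Set Ω := {ω | ∀ u, |u| ≤ 1.05 * κ → S ω (0, x + u) + (x + u) ^ 2 - u ^ 2 ≤ -κ ^ 2}
    with hWdef
  set I : Set ℝ := (fun r : ℚ => x - (r : ℝ)) '' {r : ℚ | |(r : ℝ)| ≤ 1.05 * κ} with hI
  set J : Set ℝ := Set.range (fun r : ℚ => x - (r : ℝ)) with hJ
  set uu : ℝ → ℝ := fun y => -κ ^ 2 + (x - y) ^ 2 - y ^ 2 with huu
  set vv : ℝ → ℝ := fun y => 0.01 * (κ ^ 2 + (x - y) ^ 2) - y ^ 2 with hvv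
  set G : Set Ω := {ω | (∀ y ∈ I, S ω (0, y) ≤ uu y) ∧ ∀ y ∈ J, S ω (0, y) ≤ vv y} with hG
  have hIc : I.Countable := (Set.to_countable _).image _
  have hJc : J.Countable := Set.countable_range _
  have hWG : P W * (1 / 2) ≤ P G := by
    refine le_trans (mul_le_mul' (measure_mono fun ω hω => ?_)
      (le_trans (hout x κ hk1) (measure_mono fun ω hω => ?_))) (hharris I J hIc hJc uu vv)
    · rintro y ⟨r, hr, rfl⟩
      have := hω (-(r : ℝ)) (by rw [abs_neg]; exact hr)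
      simp only [huu]
      rw [show x + -(r : ℝ) = x - r by ring] at this
      nlinarith
    · rintro y ⟨r, rfl⟩
      have := hω (-(r : ℝ))
      simp only [hvv]
      rw [show x + -(r : ℝ) = x - r by ring] at this
      nlinarith
  set B : Set Ωb := {ω | (∀ u, |u| ≤ 1.05 * κ → b ω u + 2 * κ * |u| ≤ C * κ) ∧
          ∀ u, 1.05 * κ ≤ |u| → b ω u + 2 * κ * |u| ≤
            (2 + 0.01) * κ * (|u| - 1.05 * κ) + 0.01 * κ ^ 2 + C * κ} with hB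
  have hPB : ENNReal.ofReal (Real.exp (-(2 * 1.05) * κ ^ 3 - C * κ ^ 2)) ≤ Pb B := hbm κ hk2
  set F : Ω × Ωb → ℝ≥0∞ := fun q => ⨅ u : ℚ, ENNReal.ofReal (Real.exp (-((2 * κ) *
    (S q.1 (0, x - (u : ℝ)) + (x - (u : ℝ)) ^ 2 - (u : ℝ) ^ 2 + b q.2 (u : ℝ) +
      (2 * κ) * |(u : ℝ)|)))) with hF
  have hSm : ∀ y : ℝ, Measurable fun ω => S ω (0, y) := by
    intro y
    have := (hsym 0).meas (-y, 0)
    simpa using this
  have hFm : Measurable F := by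
    refine Measurable.iInf fun u => ?_
    have h1 : Measurable fun q : Ω × Ωb => S q.1 (0, x - (u : ℝ)) :=
      (hSm _).comp measurable_fst
    have h2 : Measurable fun q : Ω × Ωb => b q.2 (u : ℝ) := (hb.meas _).comp measurable_snd
    exact ENNReal.measurable_ofReal.comp (Real.measurable_exp.comp
      (measurable_const.mul ((((h1.add_const _).sub_const _).add h2).add_const _)).neg)
  have hnp : ∫⁻ q, F q ∂(P.prod Pb) ≤ ENNReal.ofReal (Real.exp (-((2 * κ) ^ 3 / 12))) :=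
    neg_par (hsym x) hb (by positivity)
  set c : ℝ≥0∞ := ENNReal.ofReal (Real.exp (2 * κ * (κ ^ 2 - C * κ))) with hcdef
  have hsub : G ×ˢ B ⊆ {q | c ≤ F q} := by
    rintro ⟨ω, ω'⟩ ⟨⟨h1, h2⟩, h3, h4⟩
    refine le_iInf fun r => ENNReal.ofReal_le_ofReal (Real.exp_le_exp.2 ?_)
    have key := window_det (κ := κ) (C := C) (s := S ω (0, x - (r : ℝ))) (β := b ω' (r : ℝ))
      (v := (r : ℝ)) (y := x - (r : ℝ)) hkpos (fun hr => ?_) ?_ (h3 r) (h4 r)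
    · have : (2 * κ) * (S ω (0, x - (r : ℝ)) + (x - (r : ℝ)) ^ 2 - (r : ℝ) ^ 2 + b ω' (r : ℝ) +
          (2 * κ) * |(r : ℝ)|) ≤ (2 * κ) * (-κ ^ 2 + C * κ) :=
        mul_le_mul_of_nonneg_left key (by positivity)
      linarith
    · have := h1 _ ⟨r, hr, rfl⟩
      simp only [huu] at this
      nlinarith
    · have := h2 _ ⟨r, rfl⟩
      simp only [hvv] at this
      nlinarith
  have hprod : c * (P G * Pb B) ≤ ENNReal.ofReal (Real.exp (-((2 * κ) ^ 3 / 12))) := by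
    rw [← Measure.prod_prod]
    refine le_trans (le_trans ?_ (mul_meas_ge_le_lintegral hFm c)) hnp
    gcongr
  have hall : c * (P W * (1 / 2) * ENNReal.ofReal (Real.exp (-(2 * 1.05) * κ ^ 3 - C * κ ^ 2))) ≤
      ENNReal.ofReal (Real.exp (-((2 * κ) ^ 3 / 12))) :=
    le_trans (mul_le_mul_right (mul_le_mul' hWG hPB) c) hprod
  have hPW : P W = ENNReal.ofReal (P.real W) := by
    rw [Measure.real, ENNReal.ofReal_toReal (measure_ne_top _ _)]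
  have hhalf : (1 / 2 : ℝ≥0∞) = ENNReal.ofReal (1 / 2) := by
    rw [ENNReal.ofReal_div_of_pos (by norm_num)]; simp
  rw [hcdef, hPW, hhalf, ← ENNReal.ofReal_mul measureReal_nonneg,
    ← ENNReal.ofReal_mul (by positivity), ← ENNReal.ofReal_mul (Real.exp_pos _).le,
    ENNReal.ofReal_le_ofReal_iff (Real.exp_pos _).le] at hall
  rw [hPW]
  refine ENNReal.ofReal_le_ofReal ?_
  set a := P.real W
  -- a ≤ 2 exp(...)
  have h2 : (2 : ℝ) ≤ Real.exp (κ ^ 2) := by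
    have h1 : (1 : ℝ) ≤ κ ^ 2 := by nlinarith
    have := Real.add_one_le_exp (κ ^ 2)
    linarith
  have e1 : Real.exp (2 * κ * (κ ^ 2 - C * κ)) *
      (a * (1 / 2) * Real.exp (-(2 * 1.05) * κ ^ 3 - C * κ ^ 2)) =
      a * (1 / 2) * Real.exp (2 * κ * (κ ^ 2 - C * κ) + (-(2 * 1.05) * κ ^ 3 - C * κ ^ 2)) := by
    rw [Real.exp_add]; ring
  rw [e1] at hall
  have e2 : a ≤ 2 * Real.exp (-((2 * κ) ^ 3 / 12) -
      (2 * κ * (κ ^ 2 - C * κ) + (-(2 * 1.05) * κ ^ 3 - C * κ ^ 2))) := by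
    rw [Real.exp_sub]
    rw [← mul_div_assoc, le_div_iff₀ (Real.exp_pos _)]
    linarith
  refine e2.trans ?_
  refine (mul_le_mul_of_nonneg_right h2 (Real.exp_pos _).le).trans ?_
  rw [← Real.exp_add]
  refine Real.exp_le_exp.2 ?_
  have h3 : 60 * (3 * C + 1) * κ ^ 2 ≤ κ * κ ^ 2 :=
    mul_le_mul_of_nonneg_right hk3 (by positivity)
  nlinarith

end Pool.Agent.H15.DL
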